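import Mathlib

/-! # H38Q, chunk C1 (S/M, ONLY MATHLIB): blocks and columns -/

namespace H38Q

/-- An initial segment of size `m`. -/
theorem c1_initial {C : Type*} [DecidableEq C] (S : Finset C) (τ : C → ℝ)
    (hinj : ∀ a ∈ S, ∀ b ∈ S, τ a = τ b → a = b) (m : ℕ) :
    m ≤ S.card → ∃ F : Finset C, F ⊆ S ∧ F.card = m ∧ ∀ a ∈ F, ∀ b ∈ S \ F, τ a < τ b := by
  induction m with
  | zero =>
    intro _
    exact ⟨∅, Finset.empty_subset _, rfl, fun a ha => absurd ha (Finset.notMem_empty _)⟩
  | succ m ih =>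
    intro hm
    obtain ⟨F, hFS, hFc, hF⟩ := ih (by omega)
    have hne : (S \ F).Nonempty := by
      rw [← Finset.card_pos, Finset.card_sdiff_of_subset hFS]
      omega
    obtain ⟨c, hc, hcmin⟩ := Finset.exists_min_image (S \ F) τ hne
    have hcS : c ∈ S := (Finset.mem_sdiff.1 hc).1
    have hcF : c ∉ F := (Finset.mem_sdiff.1 hc).2
    refine ⟨insert c F, Finset.insert_subset hcS hFS, ?_, ?_⟩
    · rw [Finset.card_insert_of_notMem hcF, hFc]
    · intro a ha b hb
      have hbS : b ∈ S := (Finset.mem_sdiff.1 hb).1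
      have hbn : b ∉ insert c F := (Finset.mem_sdiff.1 hb).2
      rw [Finset.mem_insert, not_or] at hbn
      have hb' : b ∈ S \ F := Finset.mem_sdiff.2 ⟨hbS, hbn.2⟩
      rcases Finset.mem_insert.1 ha with rfl | ha
      · refine lt_of_le_of_ne (hcmin b hb') ?_
        intro h
        exact hbn.1 (hinj a hcS b hbS h).symm
      · exact hF a ha b hb'

/-- (C1a, S/M) Consecutive blocks of an ordered finite set. PROOF. Induction on `r` (for all `S`): for `r + 1` first choose `F ⊆ S` with `F.card = m` and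
`τ a < τ b` for `a ∈ F`, `b ∈ S \ F` (this by induction on `m ≤ S.card`: take a `τ`-minimal element of `S \ F`, `Finset.exists_min_image`; strict by `hinj`), then the blocks of
`S \ F` (`r * m ≤ (S \ F).card`), `B 0 = F`, `B (i + 1) = B' i`. Or: `S.orderEmbOfFin` after transport to `S.image τ`. -/
theorem blocks {C : Type*} [DecidableEq C] (S : Finset C) (τ : C → ℝ)
    (hinj : ∀ a ∈ S, ∀ b ∈ S, τ a = τ b → a = b) (r m : ℕ) (hm : r * m ≤ S.card) :
    ∃ B : ℕ → Finset C, (∀ i, i < r → B i ⊆ S ∧ (B i).card = m) ∧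
      ∀ i j, i < j → j < r → ∀ a ∈ B i, ∀ b ∈ B j, τ a < τ b := by
  induction r generalizing S with
  | zero =>
    exact ⟨fun _ => ∅, fun i hi => absurd hi (Nat.not_lt_zero _),
      fun i j _ hj => absurd hj (Nat.not_lt_zero _)⟩
  | succ r ih =>
    have h1 : r * m + m ≤ S.card := by rw [Nat.succ_mul] at hm; exact hm
    obtain ⟨F, hFS, hFc, hF⟩ := c1_initial S τ hinj m (by omega)
    have hsub : S \ F ⊆ S := Finset.sdiff_subset
    have hcard : r * m ≤ (S \ F).card := by
      rw [Finset.card_sdiff_of_subset hFS]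
      omega
    obtain ⟨B, hB, hB2⟩ := ih (S \ F)
      (fun a ha b hb h => hinj a (hsub ha) b (hsub hb) h) hcard
    refine ⟨fun i => Nat.casesOn i F B, ?_, ?_⟩
    · intro i hi
      cases i with
      | zero => exact ⟨hFS, hFc⟩
      | succ i =>
        have := hB i (by omega)
        exact ⟨this.1.trans hsub, this.2⟩
    · intro i j hij hj a ha b hb
      cases j with
      | zero => exact absurd hij (Nat.not_lt_zero _)
      | succ j =>
        have hbm : b ∈ B j := hb
        cases i with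
        | zero =>
          have ham : a ∈ F := ha
          exact hF a ham b ((hB j (by omega)).1 hbm)
        | succ i =>
          have ham : a ∈ B i := ha
          exact hB2 i j (by omega) (by omega) a ham b hbm

/-- (C1b, S/M) PROOF. Double counting: `Y.card * m ≤ ∑ x ∈ Y, (M x).card = ∑ c ∈ A, (Y.filter (fun x => c ∈ M x)).card`
(`Finset.sum_card_bipartiteAbove_eq_sum_card_bipartiteBelow` or `Finset.sum_comm`). If all terms were `< Y.card / D`, that is `D * (..).card < Y.card`,
then `D * Y.card * m < A.card * Y.card ≤ D * m * Y.card` (`A` is nonempty because `Y` is and `1 ≤ m`). -/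
theorem column {R C : Type*} [DecidableEq R] [DecidableEq C] (Y : Finset R) (A : Finset C)
    (M : R → Finset C) (D m : ℕ) (hM : ∀ x ∈ Y, M x ⊆ A) (hm : ∀ x ∈ Y, m ≤ (M x).card)
    (hA : A.card ≤ D * m) (hY : Y.Nonempty) (h1 : 1 ≤ m) :
    ∃ c ∈ A, Y.card ≤ D * (Y.filter (fun x => c ∈ M x)).card := by
  by_contra hcon
  push Not at hcon
  have hdc : ∑ x ∈ Y, (M x).card = ∑ c ∈ A, (Y.filter (fun x => c ∈ M x)).card := by
    have h2 := Finset.sum_card_bipartiteAbove_eq_sum_card_bipartiteBelow
      (s := Y) (t := A) (fun x c => c ∈ M x)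
    have h3 : ∀ x ∈ Y, (M x).card = (Finset.bipartiteAbove (fun x c => c ∈ M x) A x).card := by
      intro x hx
      congr 1
      ext c
      simp only [Finset.bipartiteAbove, Finset.mem_filter]
      exact ⟨fun h => ⟨hM x hx h, h⟩, fun h => h.2⟩
    rw [Finset.sum_congr rfl h3, h2]
    rfl
  have hlow : Y.card * m ≤ ∑ x ∈ Y, (M x).card := by
    rw [← smul_eq_mul]
    exact Finset.card_nsmul_le_sum Y _ m hm
  have hAne : A.Nonempty := by
    obtain ⟨x, hx⟩ := hY
    have : 0 < (M x).card := lt_of_lt_of_le h1 (hm x hx)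
    obtain ⟨c, hc⟩ := Finset.card_pos.1 this
    exact ⟨c, hM x hx hc⟩
  have hup : ∑ c ∈ A, D * (Y.filter (fun x => c ∈ M x)).card < ∑ c ∈ A, Y.card :=
    Finset.sum_lt_sum_of_nonempty hAne hcon
  rw [← Finset.mul_sum, ← hdc, Finset.sum_const, smul_eq_mul] at hup
  have h4 : D * (Y.card * m) < A.card * Y.card := lt_of_le_of_lt (Nat.mul_le_mul_left D hlow) hup
  have h5 : A.card * Y.card ≤ D * m * Y.card := Nat.mul_le_mul_right _ hA
  have h6 : D * (Y.card * m) = D * m * Y.card := by ring
  omega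

end H38Q
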