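import Mathlib

/-!
# H38Q, file S2: chains for three transitive relations (pure combinatorics)
-/

namespace H38Q

variable {α : Type*}

/-- lengths of the chains in `X` before `x` -/
def chn (X : Finset α) (P : α → α → Prop) (x : α) : Set ℕ :=
  {n | ∃ l : List α, l.length = n ∧ (∀ z ∈ l, z ∈ X) ∧ (l ++ [x]).Pairwise P}

theorem chn_zero (X : Finset α) (P : α → α → Prop) (x : α) : 0 ∈ chn X P x :=
  ⟨[], rfl, by simp, by simp⟩

/-- Mirsky: without a chain of `s + 1` elements there is a height function with values `< s`. -/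
theorem height (X : Finset α) (P : α → α → Prop)
    (htr : ∀ x ∈ X, ∀ y ∈ X, ∀ z ∈ X, P x y → P y z → P x z) (s : ℕ)
    (h : ∀ l : List α, (∀ z ∈ l, z ∈ X) → l.Pairwise P → l.length ≤ s) :
    ∃ f : α → ℕ, (∀ x ∈ X, f x < s) ∧ ∀ x ∈ X, ∀ y ∈ X, P x y → f x < f y := by
  have hb : ∀ x ∈ X, ∀ n ∈ chn X P x, n + 1 ≤ s := by
    intro x hx n hn
    obtain ⟨l, rfl, hl, hp⟩ := hn
    have := h (l ++ [x]) (by
      intro z hz
      rcases List.mem_append.1 hz with h1 | h1
      · exact hl z h1
      · rw [List.mem_singleton.1 h1]; exact hx) hp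
    simpa using this
  refine ⟨fun x => sSup (chn X P x), ?_, ?_⟩
  · intro x hx
    have hm := Nat.sSup_mem ⟨0, chn_zero X P x⟩ ⟨s, fun n hn => (Nat.le_succ n).trans (hb x hx n hn)⟩
    exact hb x hx _ hm
  · intro x hx y hy hxy
    have hm := Nat.sSup_mem ⟨0, chn_zero X P x⟩ ⟨s, fun n hn => (Nat.le_succ n).trans (hb x hx n hn)⟩
    obtain ⟨l, hl1, hl2, hl3⟩ := hm
    have h1 : sSup (chn X P x) + 1 ∈ chn X P y := by
      refine ⟨l ++ [x], by simp [hl1], ?_, ?_⟩
      · intro z hz
        rcases List.mem_append.1 hz with h1 | h1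
        · exact hl2 z h1
        · rw [List.mem_singleton.1 h1]; exact hx
      · refine List.pairwise_append.2 ⟨hl3, by simp, ?_⟩
        intro z hz w hw
        rw [List.mem_singleton.1 hw]
        rcases List.mem_append.1 hz with h1 | h1
        · exact htr z (hl2 z h1) x hx y hy ((List.pairwise_append.1 hl3).2.2 z h1 x (by simp)) hxy
        · rw [List.mem_singleton.1 h1]; exact hxy
    exact Nat.lt_of_succ_le
      (le_csSup ⟨s, fun n hn => (Nat.le_succ n).trans (hb y hy n hn)⟩ h1)

/-- CH. Three transitive relations on `X` such that any two elements are comparable in one of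
them; if `s ^ 3 < |X|` there is a chain of `s + 1` elements for one of them. -/
theorem chain3 (X : Finset α) (P : Fin 3 → α → α → Prop)
    (htr : ∀ i, ∀ x ∈ X, ∀ y ∈ X, ∀ z ∈ X, P i x y → P i y z → P i x z)
    (hc : ∀ x ∈ X, ∀ y ∈ X, x ≠ y → ∃ i, P i x y ∨ P i y x) (s : ℕ) (hs : s ^ 3 < X.card) :
    ∃ i, ∃ l : List α, l.length = s + 1 ∧ (∀ z ∈ l, z ∈ X) ∧ l.Pairwise (P i) := by
  classical
  by_contra hno
  have hh : ∀ i, ∀ l : List α, (∀ z ∈ l, z ∈ X) → l.Pairwise (P i) → l.length ≤ s := by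
    intro i l hl hp
    by_contra hlt
    refine hno ⟨i, l.take (s + 1), ?_, fun z hz => hl z (List.mem_of_mem_take hz),
      hp.sublist (List.take_sublist _ _)⟩
    rw [List.length_take]
    omega
  choose f hf1 hf2 using fun i => height X (P i) (htr i) s (hh i)
  have hmap : ∀ x ∈ X, (fun i => f i x) ∈ Fintype.piFinset (fun _ : Fin 3 => Finset.range s) := by
    intro x hx
    exact Fintype.mem_piFinset.2 fun i => Finset.mem_range.2 (hf1 i x hx)
  have hcard : (Fintype.piFinset (fun _ : Fin 3 => Finset.range s)).card < X.card := by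
    rw [Fintype.card_piFinset]
    simpa using hs
  obtain ⟨x, hx, y, hy, hxy, he⟩ := Finset.exists_ne_map_eq_of_card_lt_of_maps_to hcard hmap
  obtain ⟨i, h1 | h1⟩ := hc x hx y hy hxy
  · have := hf2 i x hx y hy h1
    have h2 := congrFun he i
    omega
  · have := hf2 i y hy x hx h1
    have h2 := congrFun he i
    omega

end H38Q
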