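import Pool.Agent.Lib.H38Q.C1
import Pool.Agent.Lib.H38Q.S2

/-! # H38Q, chunk C4 (M): the reference column lemma (abstract) -/

namespace H38Q

/-- Rows `x ∈ X0` with finite sets `G x` of columns, ordered by `τ x`; three relations for every column `c`. -/
structure Sys {R C : Type*} (G : R → Finset C) (τ : R → C → ℝ) (al be ga : C → R → R → Prop)
    (RL : R → C → R → C → Prop) (X0 : Finset R) : Prop where
  inj : ∀ x ∈ X0, ∀ a ∈ G x, ∀ b ∈ G x, τ x a = τ x b → a = b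
  tal : ∀ c, ∀ x ∈ X0, ∀ y ∈ X0, ∀ z ∈ X0, c ∈ G x → c ∈ G y → c ∈ G z → al c x y → al c y z → al c x z
  tbe : ∀ c, ∀ x ∈ X0, ∀ y ∈ X0, ∀ z ∈ X0, c ∈ G x → c ∈ G y → c ∈ G z → be c x y → be c y z → be c x z
  tga : ∀ c, ∀ x ∈ X0, ∀ y ∈ X0, ∀ z ∈ X0, c ∈ G x → c ∈ G y → c ∈ G z → ga c x y → ga c y z → ga c x z
  ial : ∀ c, ∀ x ∈ X0, ¬ al c x x
  ibe : ∀ c, ∀ x ∈ X0, ¬ be c x x
  iga : ∀ c, ∀ x ∈ X0, ¬ ga c x x
  comp : ∀ c c', ∀ x ∈ X0, ∀ y ∈ X0, c ∈ G x → c ∈ G y → c' ∈ G x → c' ∈ G y → x ≠ y →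
    τ x c ≤ τ x c' → τ y c ≤ τ y c' →
    be c x y ∨ be c y x ∨ al c' x y ∨ al c' y x ∨ (ga c x y ∧ ga c' x y) ∨ (ga c y x ∧ ga c' y x)
  a1 : ∀ c, ∀ x ∈ X0, ∀ y ∈ X0, c ∈ G x → c ∈ G y → al c x y → ∀ a ∈ G x, ∀ b ∈ G y,
    τ x c ≤ τ x a → τ y c ≤ τ y b → RL x a y b
  a2 : ∀ c, ∀ x ∈ X0, ∀ y ∈ X0, c ∈ G x → c ∈ G y → be c x y → ∀ a ∈ G x, ∀ b ∈ G y,
    τ x a ≤ τ x c → τ y b ≤ τ y c → RL x a y b
  a4 : ∀ c c', ∀ x ∈ X0, ∀ y ∈ X0, c ∈ G x → c ∈ G y → c' ∈ G x → c' ∈ G y → ga c x y → ga c' x y →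
    ∀ a ∈ G x, ∀ b ∈ G y, τ x a ≤ τ x c' → τ y c ≤ τ y b → RL x a y b

/-- (C4, M) PROOF. For `x ∈ X0` let `B x 0, ..., B x 4` be the five blocks of `G x` (`blocks`, `d` elements each, `r = 5`, order `τ x`).
(1) `column` (rows `X0`, sets `B x 1`, `m = d`): `c` with `X0.card ≤ D * X1.card`, `X1` = the `x` with `c ∈ B x 1`. (2) `column` (rows `X1`, sets `B x 3`): `c'` with
`X1.card ≤ D * X2.card`, `X2` = the `x ∈ X1` with `c' ∈ B x 3`. So `D ^ 2 * k ^ 3 ≤ D ^ 2 * X2.card`, `k ^ 3 ≤ X2.card` (`D ≥ 1` as `X0` is nonempty and `X0.card ≤ D * X1.card`).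
(3) `chain3` (file S2.lean) on `X2` for the three transitive relations `P 0 = be c`, `P 1 = al c'`, `P 2 = fun x y => ga c x y ∧ ga c' x y` (use `![.., .., ..]` and
`Fin.forall_fin_succ`, or `fun i => if i = 0 then .. else if i = 1 then .. else ..`), every two different elements are related by `comp` (block 1 is before block 3), `s = k - 1`
(`(k - 1) ^ 3 < k ^ 3 ≤ X2.card`): a list `l` of length `k` in `X2`, `Pairwise (P i)`. `f j = l[j]`: `P i (f j) (f j')` for `j < j'` (`List.pairwise_iff_getElem`), injective by `ial, ibe, iga`. (4) `P 0 = be c`: `Z j = B (f j) 0` and `a2` (block 0 is before `c`).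
`P 1 = al c'`: `Z j = B (f j) 4` and `a1`. `P 2`: `Z j = B (f j) 2` (after `c`, before `c'`) and `a4`. -/
theorem xs {R C : Type*} [DecidableEq R] [DecidableEq C] {G : R → Finset C} {τ : R → C → ℝ}
    {al be ga : C → R → R → Prop} {RL : R → C → R → C → Prop} {X0 : Finset R}
    (h : Sys G τ al be ga RL X0) (A : Finset C) (D d k : ℕ) (hG : ∀ x ∈ X0, G x ⊆ A)
    (hd : ∀ x ∈ X0, 5 * d ≤ (G x).card) (hA : A.card ≤ D * d) (hd1 : 1 ≤ d) (hk : 1 ≤ k)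
    (hX : D ^ 2 * k ^ 3 ≤ X0.card) (hne : X0.Nonempty) :
    ∃ (f : Fin k → R) (Z : Fin k → Finset C), Function.Injective f ∧ (∀ i, f i ∈ X0) ∧
      (∀ i, Z i ⊆ G (f i)) ∧ (∀ i, d ≤ (Z i).card) ∧
      ∀ i j, i < j → ∀ a ∈ Z i, ∀ b ∈ Z j, RL (f i) a (f j) b := by
  classical
  have hB : ∀ x, ∃ B : ℕ → Finset C, x ∈ X0 → (∀ i, i < 5 → B i ⊆ G x ∧ (B i).card = d) ∧
      ∀ i j, i < j → j < 5 → ∀ a ∈ B i, ∀ b ∈ B j, τ x a < τ x b := by
    intro x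
    by_cases hx : x ∈ X0
    · obtain ⟨B, h1, h2⟩ := blocks (G x) (τ x) (h.inj x hx) 5 d (hd x hx)
      exact ⟨B, fun _ => ⟨h1, h2⟩⟩
    · exact ⟨fun _ => ∅, fun h => absurd h hx⟩
  choose B hB using hB
  have hBs : ∀ x ∈ X0, ∀ i, i < 5 → B x i ⊆ G x := fun x hx i hi => ((hB x hx).1 i hi).1
  have hBc : ∀ x ∈ X0, ∀ i, i < 5 → (B x i).card = d := fun x hx i hi => ((hB x hx).1 i hi).2
  have hBlt : ∀ x ∈ X0, ∀ i j, i < j → j < 5 → ∀ a ∈ B x i, ∀ b ∈ B x j, τ x a < τ x b :=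
    fun x hx => (hB x hx).2
  obtain ⟨c, hcA, hc⟩ := column X0 A (fun x => B x 1) D d
    (fun x hx => (hBs x hx 1 (by norm_num)).trans (hG x hx))
    (fun x hx => (hBc x hx 1 (by norm_num)).ge) hA hne hd1
  obtain ⟨X1, hX1⟩ : ∃ X1, X1 = X0.filter (fun x => c ∈ B x 1) := ⟨_, rfl⟩
  have hX1m : ∀ x, x ∈ X1 ↔ x ∈ X0 ∧ c ∈ B x 1 := fun x => by rw [hX1, Finset.mem_filter]
  rw [← hX1] at hc
  have hX1ne : X1.Nonempty := by
    rw [Finset.nonempty_iff_ne_empty]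
    intro h0
    rw [h0, Finset.card_empty, mul_zero, Nat.le_zero, Finset.card_eq_zero] at hc
    exact hne.ne_empty hc
  have hD : 0 < D := by
    rcases Nat.eq_zero_or_pos D with h0 | h0
    · rw [h0, zero_mul, Nat.le_zero, Finset.card_eq_zero] at hc
      exact absurd hc hne.ne_empty
    · exact h0
  obtain ⟨c', hc'A, hc'⟩ := column X1 A (fun x => B x 3) D d
    (fun x hx => (hBs x ((hX1m x).1 hx).1 3 (by norm_num)).trans (hG x ((hX1m x).1 hx).1))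
    (fun x hx => (hBc x ((hX1m x).1 hx).1 3 (by norm_num)).ge) hA hX1ne hd1
  obtain ⟨X2, hX2⟩ : ∃ X2, X2 = X1.filter (fun x => c' ∈ B x 3) := ⟨_, rfl⟩
  rw [← hX2] at hc'
  have m0 : ∀ x ∈ X2, x ∈ X0 := fun x hx => by
    rw [hX2, Finset.mem_filter, hX1m] at hx
    exact hx.1.1
  have m1 : ∀ x ∈ X2, c ∈ B x 1 := fun x hx => by
    rw [hX2, Finset.mem_filter, hX1m] at hx
    exact hx.1.2
  have m3 : ∀ x ∈ X2, c' ∈ B x 3 := fun x hx => by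
    rw [hX2, Finset.mem_filter] at hx
    exact hx.2
  have g1 : ∀ x ∈ X2, c ∈ G x := fun x hx => hBs x (m0 x hx) 1 (by norm_num) (m1 x hx)
  have g3 : ∀ x ∈ X2, c' ∈ G x := fun x hx => hBs x (m0 x hx) 3 (by norm_num) (m3 x hx)
  have hk3 : k ^ 3 ≤ X2.card := by
    have h1 : D ^ 2 * k ^ 3 ≤ D ^ 2 * X2.card := by
      calc D ^ 2 * k ^ 3 ≤ X0.card := hX
        _ ≤ D * X1.card := hc
        _ ≤ D * (D * X2.card) := Nat.mul_le_mul_left _ hc'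
        _ = D ^ 2 * X2.card := by ring
    exact Nat.le_of_mul_le_mul_left h1 (pow_pos hD 2)
  have hlt : (k - 1) ^ 3 < X2.card :=
    (Nat.pow_lt_pow_left (by omega) (by norm_num)).trans_le hk3
  have fin : ∀ (P : R → R → Prop) (b0 : ℕ), b0 < 5 → (∀ x ∈ X2, ¬ P x x) →
      (∀ x ∈ X2, ∀ y ∈ X2, P x y → ∀ a ∈ B x b0, ∀ b ∈ B y b0, RL x a y b) →
      ∀ l : List R, l.length = k - 1 + 1 → (∀ z ∈ l, z ∈ X2) → l.Pairwise P →
      ∃ (f : Fin k → R) (Z : Fin k → Finset C), Function.Injective f ∧ (∀ i, f i ∈ X0) ∧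
        (∀ i, Z i ⊆ G (f i)) ∧ (∀ i, d ≤ (Z i).card) ∧
        ∀ i j, i < j → ∀ a ∈ Z i, ∀ b ∈ Z j, RL (f i) a (f j) b := by
    intro P b0 hb0 hir hRL l hl hlX hlP
    have hlen : ∀ j : Fin k, j.1 < l.length := fun j => by
      have := j.2
      omega
    have hf2 : ∀ j : Fin k, l[j.1]'(hlen j) ∈ X2 := fun j => hlX _ (List.getElem_mem _)
    have hp : ∀ i j : Fin k, i < j → P (l[i.1]'(hlen i)) (l[j.1]'(hlen j)) := fun i j hij =>
      List.pairwise_iff_getElem.1 hlP i.1 j.1 (hlen i) (hlen j) hij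
    refine ⟨fun j => l[j.1]'(hlen j), fun j => B (l[j.1]'(hlen j)) b0, ?_, ?_, ?_, ?_, ?_⟩
    · intro i j hij
      rcases lt_trichotomy i j with h1 | h1 | h1
      · have h2 := hp i j h1
        have h3 : l[i.1]'(hlen i) = l[j.1]'(hlen j) := hij
        rw [h3] at h2
        exact absurd h2 (hir _ (hf2 j))
      · exact h1
      · have h2 := hp j i h1
        have h3 : l[i.1]'(hlen i) = l[j.1]'(hlen j) := hij
        rw [h3] at h2
        exact absurd h2 (hir _ (hf2 j))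
    · exact fun i => m0 _ (hf2 i)
    · exact fun i => hBs _ (m0 _ (hf2 i)) b0 hb0
    · exact fun i => (hBc _ (m0 _ (hf2 i)) b0 hb0).ge
    · exact fun i j hij a ha b hb => hRL _ (hf2 i) _ (hf2 j) (hp i j hij) a ha b hb
  obtain ⟨i, l, hl, hlX, hlP⟩ := chain3 X2 ![be c, al c', fun x y => ga c x y ∧ ga c' x y] (by
      intro i x hx y hy z hz
      match i with
      | 0 => exact fun h1 h2 => h.tbe c x (m0 x hx) y (m0 y hy) z (m0 z hz) (g1 x hx) (g1 y hy) (g1 z hz) h1 h2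
      | 1 => exact fun h1 h2 => h.tal c' x (m0 x hx) y (m0 y hy) z (m0 z hz) (g3 x hx) (g3 y hy) (g3 z hz) h1 h2
      | 2 => exact fun h1 h2 => ⟨h.tga c x (m0 x hx) y (m0 y hy) z (m0 z hz) (g1 x hx) (g1 y hy) (g1 z hz) h1.1 h2.1,
          h.tga c' x (m0 x hx) y (m0 y hy) z (m0 z hz) (g3 x hx) (g3 y hy) (g3 z hz) h1.2 h2.2⟩) (by
      intro x hx y hy hxy
      rcases h.comp c c' x (m0 x hx) y (m0 y hy) (g1 x hx) (g1 y hy) (g3 x hx) (g3 y hy) hxy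
        (hBlt x (m0 x hx) 1 3 (by norm_num) (by norm_num) c (m1 x hx) c' (m3 x hx)).le
        (hBlt y (m0 y hy) 1 3 (by norm_num) (by norm_num) c (m1 y hy) c' (m3 y hy)).le with h1 | h1 | h1 | h1 | h1 | h1
      · exact ⟨0, Or.inl h1⟩
      · exact ⟨0, Or.inr h1⟩
      · exact ⟨1, Or.inl h1⟩
      · exact ⟨1, Or.inr h1⟩
      · exact ⟨2, Or.inl h1⟩
      · exact ⟨2, Or.inr h1⟩) (k - 1) hlt
  match i, hlP with
  | 0, hlP =>
    refine fin (be c) 0 (by norm_num) (fun x hx => h.ibe c x (m0 x hx)) ?_ l hl hlX hlP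
    intro x hx y hy hxy a ha b hb
    exact h.a2 c x (m0 x hx) y (m0 y hy) (g1 x hx) (g1 y hy) hxy a (hBs x (m0 x hx) 0 (by norm_num) ha)
      b (hBs y (m0 y hy) 0 (by norm_num) hb)
      (hBlt x (m0 x hx) 0 1 (by norm_num) (by norm_num) a ha c (m1 x hx)).le
      (hBlt y (m0 y hy) 0 1 (by norm_num) (by norm_num) b hb c (m1 y hy)).le
  | 1, hlP =>
    refine fin (al c') 4 (by norm_num) (fun x hx => h.ial c' x (m0 x hx)) ?_ l hl hlX hlP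
    intro x hx y hy hxy a ha b hb
    exact h.a1 c' x (m0 x hx) y (m0 y hy) (g3 x hx) (g3 y hy) hxy a (hBs x (m0 x hx) 4 (by norm_num) ha)
      b (hBs y (m0 y hy) 4 (by norm_num) hb)
      (hBlt x (m0 x hx) 3 4 (by norm_num) (by norm_num) c' (m3 x hx) a ha).le
      (hBlt y (m0 y hy) 3 4 (by norm_num) (by norm_num) c' (m3 y hy) b hb).le
  | 2, hlP =>
    refine fin (fun x y => ga c x y ∧ ga c' x y) 2 (by norm_num) (fun x hx h1 => h.iga c x (m0 x hx) h1.1) ?_ l hl hlX hlP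
    intro x hx y hy hxy a ha b hb
    exact h.a4 c c' x (m0 x hx) y (m0 y hy) (g1 x hx) (g1 y hy) (g3 x hx) (g3 y hy) hxy.1 hxy.2 a (hBs x (m0 x hx) 2 (by norm_num) ha)
      b (hBs y (m0 y hy) 2 (by norm_num) hb)
      (hBlt x (m0 x hx) 2 3 (by norm_num) (by norm_num) a ha c' (m3 x hx)).le
      (hBlt y (m0 y hy) 1 2 (by norm_num) (by norm_num) c (m1 y hy) b hb).le

end H38Q
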