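import Pool.Agent.Lib.H98S.Ord
import Pool.Agent.Lib.H53P.CC

/-!
# H38Q: plane paths with `c n^(1/4)` vertices in simple drawings of `K_n`, definitions

`u, v` poles, `ρ` = rotation at `u` cut at `v`. `X` (points before), `A` (points after).
`RL T u v ρ x a y b`: `x` is on the left (the side of `u`) of `y`, for the edges `xa`, `yb` which
cross `uv`. Overview: `PROOF.md`.
-/

open H53P

namespace H38Q

variable {V : Type*} (T : Table V)

/-- `y` outer, `yb` passes `x` on the side of `v`. -/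
def N1 (u v : V) (ρ : V → ℝ) (x y b : V) : Prop :=
  ρ x < ρ y ∧ T.adj u v x y = false ∧ T.X y b x v = true

/-- `x` outer, `xa` passes `y` on the side of `u`. -/
def N2 (u v : V) (ρ : V → ℝ) (x a y : V) : Prop :=
  ρ y < ρ x ∧ T.adj u v x y = false ∧ T.X x a y u = true

/-- type `a` -/
def Sa (u v : V) (ρ : V → ℝ) (x y : V) : Prop := ρ y < ρ x ∧ T.X y u x v = true

/-- type `b`, no edge passes under the other point -/
def Sb0 (u v : V) (ρ : V → ℝ) (x a y b : V) : Prop :=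
  ρ x < ρ y ∧ T.X x v y u = true ∧ T.X x a y u = false ∧ T.X y b x u = false

/-- type `b`, `xa` passes under `y` -/
def Sb20 (u v : V) (ρ : V → ℝ) (x a y b : V) : Prop :=
  ρ y < ρ x ∧ T.X y v x u = true ∧ T.X x a y u = true ∧ T.X y b x u = false

/-- type `b`, `yb` passes under `x` -/
def Sb02 (u v : V) (ρ : V → ℝ) (x a y b : V) : Prop :=
  ρ y < ρ x ∧ T.X y v x u = true ∧ T.X x a y u = false ∧ T.X y b x u = true

/-- `x` is on the left of `y` for the edges `xa`, `yb`. -/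
def RL (u v : V) (ρ : V → ℝ) (x a y b : V) : Prop :=
  N1 T u v ρ x y b ∨ N2 T u v ρ x a y ∨ Sa T u v ρ x y ∨ Sb0 T u v ρ x a y b ∨
    Sb20 T u v ρ x a y b ∨ Sb02 T u v ρ x a y b

/-- first class (edges after `c` are good) -/
def al (u v : V) (ρ : V → ℝ) (c x y : V) : Prop :=
  N1 T u v ρ x y c ∨ Sa T u v ρ x y ∨ Sb02 T u v ρ x c y c

/-- second class (edges before `c` are good) -/
def be (u v : V) (ρ : V → ℝ) (c x y : V) : Prop :=
  N2 T u v ρ x c y ∨ Sa T u v ρ x y ∨ Sb20 T u v ρ x c y c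

/-- third class -/
def ga (u v : V) (ρ : V → ℝ) (c x y : V) : Prop := Sb0 T u v ρ x c y c

/-- The frame: poles `u, v`, rotation `ρ` at `u` with `v` first, the points of `X` before the points of `A`, at `u` and at `v`. -/
structure Fr (u v : V) (ρ : V → ℝ) (X A : Finset V) : Prop where
  ord : T.Ord u ρ
  ne : u ≠ v
  min : ∀ x, x ≠ u → x ≠ v → ρ v < ρ x
  xu : ∀ x ∈ X, x ≠ u ∧ x ≠ v
  au : ∀ a ∈ A, a ≠ u ∧ a ≠ v
  lt : ∀ x ∈ X, ∀ a ∈ A, ρ x < ρ a
  fan : ∀ x ∈ X, ∀ a ∈ A, T.adj u v x a = false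

/-- `τ` = order of the edges `xa` crossing `uv` at `x` (from `u` to `v`) -/
structure Star (u v : V) (ρ : V → ℝ) (X A : Finset V) (x : V) (τ : V → ℝ) : Prop where
  inj : ∀ a ∈ A, ∀ b ∈ A, T.X u v x a = true → T.X u v x b = true → τ a = τ b → a = b
  m1 : ∀ y ∈ X, ∀ a ∈ A, ∀ b ∈ A, ρ y < ρ x → T.adj u v x y = false → T.X u v x a = true →
    T.X u v x b = true → τ a ≤ τ b → T.X x b y u = true → T.X x a y u = true
  m1' : ∀ y ∈ X, ∀ a ∈ A, ∀ b ∈ A, ρ y < ρ x → T.adj u v x y = false → T.X u v x a = true →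
    T.X u v x b = true → τ a ≤ τ b → T.X x a y v = true → T.X x b y v = true
  m2 : ∀ y ∈ X, ∀ a ∈ A, ∀ b ∈ A, ρ x < ρ y → T.X x v y u = true → T.X u v x a = true →
    T.X u v x b = true → τ a ≤ τ b → T.X x a y u = true → T.X x b y u = true
  m3 : ∀ y ∈ X, ∀ a ∈ A, ∀ b ∈ A, ρ y < ρ x → T.X y v x u = true → T.X u v x a = true →
    T.X u v x b = true → τ a ≤ τ b → T.X x b y u = true → T.X x a y u = true

/-- a plane path with at least `k` vertices -/
def HasPath (k : ℕ) : Prop := ∃ l : List V, l.Nodup ∧ k ≤ l.length ∧ T.Plane (edges l)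

end H38Q
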