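import Pool.Agent.Lib.H38Q.S1
import Pool.Agent.Lib.H38Q.Defs

/-!
# H38Q, file S3: a staircase is a plane path
-/

open H53P

namespace H38Q

variable {V : Type*} (T : Table V)
variable {ι κ : Type*} [LinearOrder ι] [LinearOrder κ]

theorem s3_share {a b c d : V} (h : a = c ∨ a = d ∨ b = c ∨ b = d) : T.X a b c d = false := by
  by_contra hne
  rw [Bool.not_eq_false] at hne
  obtain ⟨-, -, h1, h2, h3, h4⟩ := T.ne a b c d hne
  rcases h with h | h | h | h
  · exact h1 h
  · exact h2 h
  · exact h3 h
  · exact h4 h

variable {T}

theorem s3_mem_edges {l : List V} {e : V × V} (h : e ∈ edges l) : e.1 ∈ l ∧ e.2 ∈ l := by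
  unfold edges at h
  exact ⟨(List.of_mem_zip h).1, List.mem_of_mem_tail (List.of_mem_zip h).2⟩

theorem s3_chain_edges {α : Type*} {R : α → α → Prop} : ∀ {p : List α}, p.IsChain R →
    ∀ e ∈ p.zip p.tail, R e.1 e.2
  | [], _, e, he => by simp at he
  | [a], _, e, he => by simp at he
  | a :: b :: t, h, e, he => by
    rw [List.isChain_cons_cons] at h
    simp only [List.tail_cons, List.zip_cons_cons, List.mem_cons] at he
    rcases he with he | he
    · rw [he]; exact h.1
    · exact s3_chain_edges h.2 e (by simpa using he)

/-- the plane path of a staircase -/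
theorem s3_plane {f : ι → V} {g : κ → V} {E : Finset (ι × κ)}
    (hE : ∀ r c r' c', (r, c) ∈ E → (r', c') ∈ E → r < r' → c < c' →
      T.X (f r) (g c) (f r') (g c') = false) :
    ∀ p : List (ι ⊕ κ), p.Pairwise Q → p.IsChain (S E) →
      ∀ e ∈ p.zip p.tail, ∀ e' ∈ p.zip p.tail,
        T.X (Sum.elim f g e.1) (Sum.elim f g e.2) (Sum.elim f g e'.1) (Sum.elim f g e'.2) = false
  | [], _, _, e, he, _, _ => by simp at he
  | [a], _, _, e, he, _, _ => by simp at he
  | a :: b :: t, hQ, hS, e, he, e', he' => by
    have key : ∀ w ∈ (b :: t).zip (b :: t).tail,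
        T.X (Sum.elim f g a) (Sum.elim f g b) (Sum.elim f g w.1) (Sum.elim f g w.2) = false := by
      intro w hw
      have hw1 : w.1 ∈ b :: t := (List.of_mem_zip hw).1
      have hw2 : w.2 ∈ b :: t := List.mem_of_mem_tail (List.of_mem_zip hw).2
      have hSw : S E w.1 w.2 := s3_chain_edges (List.isChain_cons_cons.1 hS).2 w hw
      have hSa : S E a b := (List.isChain_cons_cons.1 hS).1
      rcases List.mem_cons.1 hw1 with h1 | h1
      · exact s3_share T (Or.inr (Or.inr (Or.inl (by rw [h1]))))
      · rcases List.mem_cons.1 hw2 with h2 | h2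
        · exact s3_share T (Or.inr (Or.inr (Or.inr (by rw [h2]))))
        · have qa := (List.pairwise_cons.1 hQ).1
          have qb := (List.pairwise_cons.1 (List.pairwise_cons.1 hQ).2).1
          have a1 := qa w.1 (List.mem_cons_of_mem _ h1)
          have a2 := qa w.2 (List.mem_cons_of_mem _ h2)
          have b1 := qb w.1 h1
          have b2 := qb w.2 h2
          obtain ⟨w1, w2⟩ := w
          simp only at hSw a1 a2 b1 b2 ⊢
          rcases a with r | c
          · rcases b with r2 | c
            · exact absurd hSa (by simp [S])
            · rcases w1 with r' | c'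
              · rcases w2 with r3 | c'
                · exact absurd hSw (by simp [S])
                · exact hE r c r' c' hSa hSw a1 b2
              · rcases w2 with r' | c3
                · have := hE r c r' c' hSa hSw a2 b1
                  rw [T.symm2, T.symm1, T.symm2]
                  exact this
                · exact absurd hSw (by simp [S])
          · rcases b with r | c2
            · rcases w1 with r' | c'
              · rcases w2 with r3 | c'
                · exact absurd hSw (by simp [S])
                · have := hE r c r' c' hSa hSw b1 a2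
                  rw [T.symm1]
                  exact this
              · rcases w2 with r' | c3
                · have := hE r c r' c' hSa hSw b2 a1
                  rw [T.symm1, T.symm2, T.symm1, T.symm2]
                  exact this
                · exact absurd hSw (by simp [S])
            · exact absurd hSa (by simp [S])
    simp only [List.tail_cons, List.zip_cons_cons, List.mem_cons] at he he'
    have ih := s3_plane hE (b :: t) (List.pairwise_cons.1 hQ).2 (List.isChain_cons_cons.1 hS).2
    rcases he with he | he
    · rcases he' with he' | he'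
      · rw [he, he']
        exact s3_share T (Or.inl rfl)
      · rw [he]
        exact key e' (by simpa using he')
    · rcases he' with he' | he'
      · rw [he', T.symm2]
        exact key e (by simpa using he)
      · exact ih e (by simpa using he) e' (by simpa using he')

theorem s3_nodup {f : ι → V} {g : κ → V} (hf : Function.Injective f) (hg : Function.Injective g)
    (hfg : ∀ r c, f r ≠ g c) {p : List (ι ⊕ κ)} (hQ : p.Pairwise Q) :
    (p.map (Sum.elim f g)).Nodup := by
  have hinj : Function.Injective (Sum.elim f g) := hf.sumElim hg hfg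
  refine List.Nodup.map hinj ?_
  refine hQ.imp ?_
  intro x y hxy he
  subst he
  rcases x with r | c
  · exact lt_irrefl _ hxy
  · exact lt_irrefl _ hxy

/-- STAIRCASE to PATH -/
theorem stair_path [Fintype ι] [Fintype κ] {f : ι → V} {g : κ → V} (hf : Function.Injective f)
    (hg : Function.Injective g) (hfg : ∀ r c, f r ≠ g c) (E : Finset (ι × κ))
    (hE : ∀ r c r' c', (r, c) ∈ E → (r', c') ∈ E → r < r' → c < c' →
      T.X (f r) (g c) (f r') (g c') = false) {M : ℕ} (h1 : Fintype.card ι ≤ M)
    (h2 : Fintype.card κ ≤ M) (k : ℕ) (h : k * M < E.card) : HasPath T (k + 2) := by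
  obtain ⟨p, hp1, hp2, hp3⟩ := stair E M h1 h2 k h
  refine ⟨p.map (Sum.elim f g), s3_nodup hf hg hfg hp2, by simp [hp1], ?_⟩
  have he : edges (p.map (Sum.elim f g)) =
      (p.zip p.tail).map (Prod.map (Sum.elim f g) (Sum.elim f g)) := by
    unfold edges
    rw [← List.map_tail, List.zip_map]
  intro e hem e' hem'
  rw [he, List.mem_map] at hem hem'
  obtain ⟨w, hw, rfl⟩ := hem
  obtain ⟨w', hw', rfl⟩ := hem'
  exact s3_plane hE p hp2 hp3 w hw w' hw'

end H38Q
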