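import Pool.Agent.Lib.H38Q.Defs
import Pool.Agent.Lib.H38Q.S3

/-! # H38Q, chunk C7 (M): from the table of ones to the path -/

open H53P

namespace H38Q

/-- (C7) from `stair_path` (file S3, helper63) -/
theorem path_of_H {V : Type*} (T : Table V) {K : ℕ} (f g : Fin K → V) (hf : Function.Injective f)
    (hg : Function.Injective g) (hfg : ∀ i j, f i ≠ g j) (H : Finset (Fin K × Fin K))
    (hX : ∀ e ∈ H, ∀ e' ∈ H, e.1 < e'.1 → e.2 < e'.2 →
      T.X (f e.1) (g e.2) (f e'.1) (g e'.2) = false)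
    (k : ℕ) (hc : (K + K) * (k - 1) < H.card) : HasPath T k := by
  have h1 : (k - 1) * K < H.card := by
    refine lt_of_le_of_lt ?_ hc
    rw [Nat.mul_comm]
    exact Nat.mul_le_mul_right _ (Nat.le_add_left _ _)
  obtain ⟨l, h2, h3, h4⟩ := stair_path (T := T) hf hg hfg H
    (fun r c r' c' h5 h6 h7 h8 => hX (r, c) h5 (r', c') h6 h7 h8)
    (by simp) (by simp) (k - 1) h1
  exact ⟨l, h2, by omega, h4⟩

end H38Q
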