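import Pool.Agent.Lib.H38Q.Defs
import Pool.Agent.Lib.H53P.FIN1

/-! # H38Q, chunk D1 (M): from the table to the drawing -/

open H53P SimpleDraw

namespace H38Q

theorem d1_edge {α : Type*} (l : List α) (i j : ℕ) (hi : i < l.length) (hj : j < l.length)
    (hij : i + 1 = j) : (l[i], l[j]) ∈ edges l := by
  unfold edges
  rw [List.mem_iff_getElem]
  subst hij
  refine ⟨i, ?_, ?_⟩
  · rw [List.length_zip, List.length_tail]
    omega
  · rw [List.getElem_zip, List.getElem_tail]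

theorem d1_adj {α : Type*} (l : List α) (i j : Fin l.length)
    (h : (SimpleGraph.pathGraph l.length).Adj i j) :
    (l.get i, l.get j) ∈ edges l ∨ (l.get j, l.get i) ∈ edges l := by
  rcases SimpleGraph.pathGraph_adj.1 h with h4 | h4
  · exact Or.inl (d1_edge l i j i.2 j.2 h4)
  · exact Or.inr (d1_edge l j i j.2 i.2 h4)

/-- (D1, M) PROOF. MODEL: `H53P.fin1_cycle` (file H53P/FIN1.lean), COPY with `pathGraph` for `cycleGraph`. `HasPath`: a list `l` without repetition, `m = l.length`, `f = l.get` (injective). If `i, j` are adjacent in `pathGraph m` then `j = i + 1` or `i = j + 1`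
(`SimpleGraph.pathGraph_adj`), so `(l[i], l[j])` or `(l[j], l[i])` is in `edges l = l.zip l.tail`. The rest is the same as in `fin1_cycle`. -/
theorem fin_path {n : ℕ} (D : SimpleDrawing n) {k : ℕ} (h : HasPath (table D) k) :
    ∃ m, k ≤ m ∧ ∃ f : Fin m ↪ Fin n, D.Plane ((SimpleGraph.pathGraph m).map f) := by
  obtain ⟨l, hnd, hk, hpl⟩ := h
  refine ⟨l.length, hk, ⟨l.get, List.nodup_iff_injective_get.1 hnd⟩, ?_⟩
  intro a b c d hab hcd hne p hp
  have hX : X D a b c d = false := by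
    obtain ⟨i, j, hij, rfl, rfl⟩ := SimpleGraph.map_adj _ _ _ _ |>.1 hab
    obtain ⟨k', l', hkl, rfl, rfl⟩ := SimpleGraph.map_adj _ _ _ _ |>.1 hcd
    have s1 := (table D).symm1
    have s2 := (table D).symm2
    rcases d1_adj l i j hij with h4 | h4 <;>
      rcases d1_adj l k' l' hkl with h5 | h5
    · exact hpl _ h4 _ h5
    · have h6 := hpl _ h4 _ h5
      rw [s2, s1, s2] at h6
      exact h6
    · have h6 := hpl _ h4 _ h5
      rw [s1] at h6
      exact h6
    · have h6 := hpl _ h4 _ h5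
      rw [s1, s2, s1, s2] at h6
      exact h6
  have hab' : a ≠ b := hab.ne
  have hcd' : c ≠ d := hcd.ne
  have hsub := D.inter a b c d hab' hcd' hne
  have m1 := tf3_mem D hab'
  have m2 := tf3_mem D hcd'
  by_cases e1 : a = c
  · subst e1
    exact ⟨a, Or.inl rfl, Or.inl rfl, hsub hp ⟨m1.1, m2.1⟩⟩
  by_cases e2 : a = d
  · subst e2
    exact ⟨a, Or.inl rfl, Or.inr rfl, hsub hp ⟨m1.1, m2.2⟩⟩
  by_cases e3 : b = c
  · subst e3
    exact ⟨b, Or.inr rfl, Or.inl rfl, hsub hp ⟨m1.2, m2.1⟩⟩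
  by_cases e4 : b = d
  · subst e4
    exact ⟨b, Or.inr rfl, Or.inr rfl, hsub hp ⟨m1.2, m2.2⟩⟩
  exfalso
  unfold X at hX
  rw [decide_eq_false_iff_not] at hX
  exact hX ⟨hab', hcd', e1, e2, e3, e4, ⟨p, hp⟩⟩

end H38Q
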