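import Mathlib

/-! # H38Q, chunk M1A (S/M, ONLY MATHLIB): columns of large degree -/

namespace H38Q

/-- (M1A, S/M) PROOF. `deg a` = the number of `i` with `a ∈ Z i`, `A0` = the set on the right. `K * d ≤ ∑ i, (Z i).card = ∑ a ∈ A, deg a` (`Finset.sum_comm'` or bipartite double counting), and `deg a ≤ K` for `a ∈ A0`,
`deg a ≤ 10 * k` for the others, so `K * d ≤ A0.card * K + A.card * (10 * k) ≤ A0.card * K + D * d * (10 * k)`, and `2 * (D * d * (10 * k)) = K * d`. So `K * d ≤ 2 * A0.card * K`, cancel `K` (`1 ≤ D`, `1 ≤ k`). -/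
theorem deg_count {C : Type*} [DecidableEq C] (A : Finset C) (D d k : ℕ) (hD : 1 ≤ D) (hk : 1 ≤ k)
    (Z : Fin (20 * D * k) → Finset C) (hZ : ∀ i, Z i ⊆ A) (hd : ∀ i, d ≤ (Z i).card)
    (hA : A.card ≤ D * d) :
    d ≤ 2 * (A.filter
      (fun a => 10 * k ≤ (Finset.univ.filter (fun i => a ∈ Z i)).card)).card := by
  obtain ⟨K, hK⟩ : ∃ K, K = 20 * D * k := ⟨_, rfl⟩
  have hK0 : 0 < K := by
    rw [hK]
    positivity
  have h1 : ∑ i, (Z i).card = ∑ a ∈ A, (Finset.univ.filter (fun i => a ∈ Z i)).card := by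
    have h2 : ∀ i, (Z i).card = ∑ a ∈ A, if a ∈ Z i then 1 else 0 := by
      intro i
      rw [← Finset.card_filter]
      congr 1
      ext a
      rw [Finset.mem_filter]
      exact ⟨fun h => ⟨hZ i h, h⟩, fun h => h.2⟩
    rw [Finset.sum_congr rfl fun i _ => h2 i, Finset.sum_comm]
    refine Finset.sum_congr rfl fun a _ => ?_
    rw [Finset.card_filter]
  have h2 : K * d ≤ ∑ i, (Z i).card := by
    have h3 : ∑ _i : Fin (20 * D * k), d ≤ ∑ i, (Z i).card := Finset.sum_le_sum fun i _ => hd i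
    rw [Finset.sum_const, Finset.card_univ, Fintype.card_fin, smul_eq_mul] at h3
    refine le_trans (le_of_eq ?_) h3
    rw [hK]
  obtain ⟨A0, hA0⟩ : ∃ A0, A0 = A.filter (fun a => 10 * k ≤ (Finset.univ.filter (fun i => a ∈ Z i)).card) := ⟨_, rfl⟩
  rw [← hA0]
  have h3 : ∑ a ∈ A, (Finset.univ.filter (fun i => a ∈ Z i)).card ≤ A0.card * K + A.card * (10 * k) := by
    have h4 : ∀ a ∈ A, (Finset.univ.filter (fun i => a ∈ Z i)).card ≤ (if a ∈ A0 then K else 0) + 10 * k := by
      intro a ha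
      by_cases h5 : a ∈ A0
      · rw [if_pos h5]
        have h6 : (Finset.univ.filter (fun i => a ∈ Z i)).card ≤ K := by
          refine (Finset.card_filter_le _ _).trans ?_
          rw [Finset.card_univ, Fintype.card_fin, hK]
        omega
      · rw [if_neg h5]
        rw [hA0, Finset.mem_filter, not_and] at h5
        have := h5 ha
        omega
    refine (Finset.sum_le_sum h4).trans ?_
    rw [Finset.sum_add_distrib, Finset.sum_const, smul_eq_mul]
    refine Nat.add_le_add_right (le_of_eq ?_) _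
    rw [← Finset.sum_filter, Finset.sum_const, smul_eq_mul]
    congr 2
    ext a
    rw [Finset.mem_filter]
    refine ⟨fun h => h.2, fun h => ⟨?_, h⟩⟩
    rw [hA0, Finset.mem_filter] at h
    exact h.1
  have h4 : A.card * (10 * k) ≤ D * d * (10 * k) := Nat.mul_le_mul_right _ hA
  have h5 : 2 * (D * d * (10 * k)) = K * d := by
    rw [hK]
    ring
  have h6 : K * d ≤ K * (2 * A0.card) := by
    have h7 : K * (2 * A0.card) = 2 * (A0.card * K) := by ring
    rw [h7]
    omega
  exact Nat.le_of_mul_le_mul_left h6 hK0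

end H38Q
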