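import Pool.Agent.Lib.H38Q.G3
import Pool.Agent.Lib.H38Q.C7
import Pool.Agent.Lib.H38Q.M1A

/-! # H38Q, chunk M1 (M/L): a dense frame contains a long path -/

open H53P

namespace H38Q

variable {V : Type*} {T : Table V} {u v : V} {ρ ρ' : V → ℝ} {X A : Finset V}

/-- (M1, M/L) PROOF. `K = 20 * D * k ≥ 1`. (1) `xs_frame h X0 A` with `G x = A.filter (fun a => T.X u v x a = true)` and `k := K`: `f, Z`. (2) `deg_count`: `A0` = the `a ∈ A` with `10 * k ≤ deg a`, `d ≤ 2 * A0.card`, so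
`(10 * D) ^ 2 * K ^ 3 ≤ A0.card` and `A0` is nonempty. (3) `xs_frame h' A0 (univ.image f)` (rows `A0`, columns = the `f i`, contained in `X`) with `G' a` = the image under `f` of the `i` with `a ∈ Z i` (`(G' a).card = deg a ≥ 10 * k = 5 * (2 * k)` by injectivity;
`T.X v u a (f i) = T.X u v (f i) a = true` for `a ∈ Z i ⊆ G (f i)`, by the symmetries of `T.X`), `D := 10 * D`, `d := 2 * k` (`(univ.image f).card = K = 10 * D * (2 * k)`), `k := K`: `g : Fin K → V`, `Z'`.
(4) `H` = the pairs `(i, j)` with `f i ∈ Z' (Fin.rev j)`, and `g' j = g (Fin.rev j)`. `H.card ≥ K * (2 * k)` (sum over `j`; `Z' J ⊆ G' (g J) ⊆` range of `f`, `f` injective, so the number of `i` with `f i ∈ Z' J` is `(Z' J).card ≥ 2 * k`), and `(K + K) * (k - 1) < K * (2 * k)`.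
(5) `path_of_H T f g' .. H`: for `(i, j), (i', j') ∈ H`, `i < i'`, `j < j'`, `J = rev j > J' = rev j'`: `x = f i`, `y = f i'`, `a = g J`, `b = g J'`. `f i ∈ Z' J ⊆ G' (g J)` gives `g J ∈ Z i`, in the same way `g J' ∈ Z i'`, so (1) gives `RL T u v ρ x a y b`;
(3) for `J' < J`, `y ∈ Z' J'`, `x ∈ Z' J` gives `RL T v u ρ' b y a x`; `f_cross`. `f i ≠ g j` because `ρ (f i) < ρ (g j)` (`h.lt`). -/
theorem frame_path [DecidableEq V] (h : Fr T u v ρ X A) (h' : Fr T v u ρ' A X) (X0 : Finset V)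
    (hX0 : X0 ⊆ X) (D d k : ℕ) (hD : 1 ≤ D) (hk : 1 ≤ k) (hd1 : 1 ≤ d) (hA : A.card ≤ D * d)
    (hd : ∀ x ∈ X0, 5 * d ≤ (A.filter (fun a => T.X u v x a = true)).card)
    (hne : X0.Nonempty) (h1 : D ^ 2 * (20 * D * k) ^ 3 ≤ X0.card)
    (h2 : 2 * ((10 * D) ^ 2 * (20 * D * k) ^ 3) ≤ d) : HasPath T k := by
  have hK1 : 1 ≤ 20 * D * k := Nat.mul_pos (Nat.mul_pos (by norm_num) hD) hk
  obtain ⟨f, Z, hf, hfX, hZG, hZd, hRL⟩ := xs_frame h X0 A hX0 (Finset.Subset.refl _)
    (fun x => A.filter (fun a => T.X u v x a = true)) (fun x _ => Finset.filter_subset _ _)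
    (fun x _ a ha => (Finset.mem_filter.1 ha).2) D d (20 * D * k) hd hA hd1 hK1 h1 hne
  have hdeg := deg_count A D d k hD hk Z (fun i => (hZG i).trans (Finset.filter_subset _ _)) hZd hA
  set A0 : Finset V := A.filter (fun a => 10 * k ≤ (Finset.univ.filter (fun i => a ∈ Z i)).card) with hA0
  have hA0c : (10 * D) ^ 2 * (20 * D * k) ^ 3 ≤ A0.card := by omega
  have hpos : 1 ≤ (10 * D) ^ 2 * (20 * D * k) ^ 3 :=
    Nat.mul_pos (pow_pos (Nat.mul_pos (by norm_num) hD) 2) (pow_pos hK1 3)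
  have hA0n : A0.Nonempty := Finset.card_pos.1 (by omega)
  have hcr : ∀ i, ∀ a ∈ Z i, T.X u v (f i) a = true := fun i a ha => (Finset.mem_filter.1 (hZG i ha)).2
  have hZA : ∀ i, ∀ a ∈ Z i, a ∈ A := fun i a ha => (Finset.mem_filter.1 (hZG i ha)).1
  obtain ⟨g, Z', hg, hgA, hZG', hZd', hRL'⟩ := xs_frame h' A0 (Finset.univ.image f) (Finset.filter_subset _ _)
    (fun y hy => by
      obtain ⟨i, -, rfl⟩ := Finset.mem_image.1 hy
      exact hX0 (hfX i))
    (fun a => (Finset.univ.filter (fun i => a ∈ Z i)).image f)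
    (fun a _ => Finset.image_subset_image (Finset.filter_subset _ _))
    (fun a _ y hy => by
      obtain ⟨i, hi, rfl⟩ := Finset.mem_image.1 hy
      have h3 := hcr i a (Finset.mem_filter.1 hi).2
      rw [T.symm1, T.symm2, T.symm1, T.symm2]
      exact h3)
    (10 * D) (2 * k) (20 * D * k)
    (fun a ha => by
      rw [Finset.card_image_of_injective _ hf]
      have h3 := (Finset.mem_filter.1 ha).2
      omega)
    (by
      rw [Finset.card_image_of_injective _ hf, Finset.card_univ, Fintype.card_fin]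
      exact le_of_eq (by ring))
    (by omega) hK1 hA0c hA0n
  have hback : ∀ i J, f i ∈ Z' J → g J ∈ Z i := by
    intro i J hi
    obtain ⟨i', hi', he⟩ := Finset.mem_image.1 (hZG' J hi)
    rw [← hf he]
    exact (Finset.mem_filter.1 hi').2
  let H : Finset (Fin (20 * D * k) × Fin (20 * D * k)) := Finset.univ.filter fun e => f e.1 ∈ Z' (Fin.rev e.2)
  have hmem : ∀ e, e ∈ H ↔ f e.1 ∈ Z' (Fin.rev e.2) := fun e => by simp [H]
  have hHc : 20 * D * k * (2 * k) ≤ H.card := by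
    rw [Finset.card_eq_sum_card_fiberwise (f := Prod.snd) (t := Finset.univ) (fun e _ => Finset.mem_univ _)]
    calc 20 * D * k * (2 * k) = ∑ j : Fin (20 * D * k), 2 * k := by
          rw [Finset.sum_const, Finset.card_univ, Fintype.card_fin, smul_eq_mul]
      _ ≤ ∑ j : Fin (20 * D * k), (H.filter fun e => e.2 = j).card := by
          refine Finset.sum_le_sum fun j _ => (hZd' (Fin.rev j)).trans ?_
          have h3 : Z' (Fin.rev j) ⊆ (H.filter fun e => e.2 = j).image fun e => f e.1 := by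
            intro y hy
            obtain ⟨i, hi, rfl⟩ := Finset.mem_image.1 (hZG' _ hy)
            refine Finset.mem_image.2 ⟨(i, j), Finset.mem_filter.2 ⟨(hmem _).2 hy, rfl⟩, rfl⟩
          exact (Finset.card_le_card h3).trans Finset.card_image_le
  refine path_of_H T f (fun j => g (Fin.rev j)) hf (hg.comp Fin.rev_injective) ?_ H ?_ k ?_
  · intro i j he
    have h3 := h.lt (f i) (hX0 (hfX i)) (g (Fin.rev j)) (Finset.mem_filter.1 (hgA _)).1
    rw [he] at h3
    exact lt_irrefl _ h3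
  · rintro ⟨i, j⟩ he ⟨i', j'⟩ he' hi hj
    have e1 : f i ∈ Z' (Fin.rev j) := (hmem _).1 he
    have e2 : f i' ∈ Z' (Fin.rev j') := (hmem _).1 he'
    have e3 := hback _ _ e1
    have e4 := hback _ _ e2
    have hJ : Fin.rev j' < Fin.rev j := Fin.rev_lt_rev.2 hj
    refine f_cross h h' (hX0 (hfX i)) (hX0 (hfX i')) (hZA _ _ e3) (hZA _ _ e4) ?_ ?_ (hcr _ _ e3) (hcr _ _ e4)
      (hRL i i' hi _ e3 _ e4) (hRL' _ _ hJ _ e2 _ e1)
    · exact fun h3 => hi.ne (hf h3)
    · exact fun h3 => hJ.ne (hg h3).symm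
  · refine lt_of_lt_of_le ?_ hHc
    obtain ⟨m, rfl⟩ := Nat.exists_eq_add_of_le' hk
    rw [Nat.add_sub_cancel]
    have h3 : 0 < 20 * D * (m + 1) := hK1
    generalize 20 * D * (m + 1) = K at h3 ⊢
    nlinarith

end H38Q
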