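import Pool.Agent.Lib.H38Q.K4
import Pool.Agent.Lib.H38Q.M1

/-! # H38Q, chunk M2 (M): the theorem for tables -/

open H53P

namespace H38Q

/-- (M2a, M) PROOF. `n = card V`, `d = n / (10 * c)`, `D = 11 * c`, `X0` = the `x ∈ X` with `5 * d ≤ deg x`. `10 * c * d ≤ n`, so `c * (sum of the degrees) ≤ c * (X0.card * n + n * (5 * d)) ≤ c * X0.card * n + n * n / 2` (degrees are `≤ n`, `X.card ≤ n`), with `hG`:
`n ≤ 2 * c * X0.card`. `n ≤ D * d` for `n ≥ 110 * c` (`10 * c * (d + 1) > n`, `Nat.div_add_mod`), `A.card ≤ n`. `D ^ 2 * (20 * D * k) ^ 3 = 121 * 220 ^ 3 * c ^ 5 * k ^ 3 ≤ X0.card` because `2 * c * (..) ≤ n ≤ 2 * c * X0.card`;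
`2 * ((10 * D) ^ 2 * (20 * D * k) ^ 3) = 200 * 121 * 220 ^ 3 * c ^ 5 * k ^ 3 ≤ d` because `20 * c * d ≥ n` (`n ≥ 20 * c`). Then `frame_path`. -/
theorem path_of_dense {V : Type*} [Fintype V] [DecidableEq V] {T : Table V} {u v : V}
    {ρ ρ' : V → ℝ} {X A : Finset V} (h : Fr T u v ρ X A) (h' : Fr T v u ρ' A X) (c k : ℕ)
    (hc : 1 ≤ c) (hk : 1 ≤ k)
    (hG : (Fintype.card V) ^ 2 ≤ c * ∑ x ∈ X, (A.filter (fun a => T.X u v x a = true)).card)
    (hn : 4000 * 121 * 220 ^ 3 * c ^ 6 * k ^ 3 ≤ Fintype.card V) : HasPath T k := by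
  classical
  obtain ⟨n, hnn⟩ : ∃ n, n = Fintype.card V := ⟨_, rfl⟩
  rw [← hnn] at hG hn
  obtain ⟨Q, hQ⟩ : ∃ Q, Q = 121 * 220 ^ 3 * c ^ 5 * k ^ 3 := ⟨_, rfl⟩
  have hQ1 : 1 ≤ Q := by
    rw [hQ]
    exact Nat.mul_pos (Nat.mul_pos (by norm_num) (pow_pos hc 5)) (pow_pos hk 3)
  have hn2 : 4000 * (c * Q) ≤ n := by
    refine le_trans (le_of_eq ?_) hn
    rw [hQ]
    ring
  have hcQ : 1 ≤ c * Q := Nat.mul_pos hc hQ1
  have hn0 : 0 < n := by omega
  obtain ⟨d, hd⟩ : ∃ d, d = n / (10 * c) := ⟨_, rfl⟩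
  have hd1 : 10 * c * d ≤ n := by
    rw [hd]
    exact Nat.mul_div_le n (10 * c)
  have hd2 : 200 * Q ≤ d := by
    rw [hd, Nat.le_div_iff_mul_le (by omega)]
    calc 200 * Q * (10 * c) = 2000 * (c * Q) := by ring
      _ ≤ n := by omega
  have hd3 : n ≤ 11 * c * d := by
    have h1 : n < 10 * c * (d + 1) := by
      rw [hd]
      exact Nat.lt_mul_div_succ n (by omega)
    have h2 : c * 10 ≤ c * d := Nat.mul_le_mul_left _ (by omega)
    have h3 : 10 * c * (d + 1) = 10 * (c * d) + c * 10 := by ring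
    have h4 : 11 * c * d = 11 * (c * d) := by ring
    omega
  have hXn : X.card ≤ n := by rw [hnn]; exact Finset.card_le_univ X
  have hAn : A.card ≤ n := by rw [hnn]; exact Finset.card_le_univ A
  obtain ⟨X0, hX0⟩ : ∃ X0 : Finset V, X0 = X.filter
    (fun x => 5 * d ≤ (A.filter (fun a => T.X u v x a = true)).card) := ⟨_, rfl⟩
  have hsum : ∑ x ∈ X, (A.filter (fun a => T.X u v x a = true)).card ≤ X0.card * n + n * (5 * d) := by
    rw [← Finset.sum_filter_add_sum_filter_not X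
      (fun x => 5 * d ≤ (A.filter (fun a => T.X u v x a = true)).card), ← hX0]
    refine Nat.add_le_add ?_ ?_
    · rw [← smul_eq_mul]
      exact Finset.sum_le_card_nsmul _ _ _ fun x _ => (Finset.card_filter_le _ _).trans hAn
    · refine (Finset.sum_le_card_nsmul _ _ (5 * d) fun x hx => ?_).trans ?_
      · exact (not_le.1 (Finset.mem_filter.1 hx).2).le
      · rw [smul_eq_mul]
        exact Nat.mul_le_mul_right _ ((Finset.card_filter_le _ _).trans hXn)
  have hX0n : n ≤ 2 * c * X0.card := by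
    have h1 : 2 * n ^ 2 ≤ 2 * (c * (X0.card * n + n * (5 * d))) :=
      Nat.mul_le_mul_left _ (hG.trans (Nat.mul_le_mul_left _ hsum))
    have h2 : 2 * (c * (X0.card * n + n * (5 * d))) = n * (2 * c * X0.card) + n * (10 * c * d) := by ring
    have h3 : n * (10 * c * d) ≤ n * n := Nat.mul_le_mul_left _ hd1
    have h4 : 2 * n ^ 2 = n * n + n * n := by ring
    have h5 : n * n ≤ n * (2 * c * X0.card) := by omega
    exact Nat.le_of_mul_le_mul_left h5 hn0
  have hQX : Q ≤ X0.card := by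
    have h1 : c * Q ≤ c * X0.card := by
      have h2 : 2 * c * X0.card = 2 * (c * X0.card) := by ring
      omega
    exact Nat.le_of_mul_le_mul_left h1 hc
  refine frame_path h h' X0 ?_ (11 * c) d k (by omega) hk (by omega) (hAn.trans hd3) ?_ ?_ ?_ ?_
  · rw [hX0]
    exact Finset.filter_subset _ _
  · intro x hx
    rw [hX0] at hx
    exact (Finset.mem_filter.1 hx).2
  · exact Finset.card_pos.1 (by omega)
  · refine le_trans (le_of_eq ?_) hQX
    rw [hQ]
    ring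
  · refine le_trans (le_of_eq ?_) hd2
    rw [hQ]
    ring

/-- (M2b, S) the theorem for tables. PROOF. `C = 4000 * 121 * 220 ^ 3 * 8192000 ^ 6`, `dense_frame` (`320 ≤ C ≤ card V`) and `path_of_dense`. -/
theorem main_table : ∃ C : ℕ, 1 ≤ C ∧ ∀ (V : Type) [Fintype V] [DecidableEq V] (T : Table V)
    (k : ℕ), 1 ≤ k → C * k ^ 3 ≤ Fintype.card V → HasPath T k := by
  refine ⟨4000 * 121 * 220 ^ 3 * 8192000 ^ 6, by norm_num, ?_⟩
  intro V _ _ T k hk hC
  have h1 : 1 ≤ k ^ 3 := Nat.one_le_pow 3 k hk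
  have h2 : 320 ≤ Fintype.card V := by
    refine le_trans ?_ hC
    calc 320 = 320 * 1 := rfl
      _ ≤ 4000 * 121 * 220 ^ 3 * 8192000 ^ 6 * k ^ 3 := Nat.mul_le_mul (by norm_num) h1
  obtain ⟨u, v, ρ, ρ', X, A, h, h', hG⟩ := dense_frame T h2
  exact path_of_dense h h' 8192000 k (by norm_num) hk hG hC

end H38Q
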