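import Pool.Agent.Lib.H38Q.D1
import Pool.Agent.Lib.H38Q.M2

/-! # H38Q, chunk D2 (S/M): the theorem -/

open H53P SimpleDraw

namespace H38Q

/-- (D2a, S) PROOF. `m = 1`, `f = fun _ => 0`; `pathGraph 1` has no edges. -/
theorem one_path {n : ℕ} (hn : 1 ≤ n) (D : SimpleDrawing n) :
    ∃ f : Fin 1 ↪ Fin n, D.Plane ((SimpleGraph.pathGraph 1).map f) := by
  refine ⟨⟨fun _ => ⟨0, hn⟩, fun a b _ => Subsingleton.elim a b⟩, ?_⟩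
  intro a b c d hab
  exfalso
  obtain ⟨i, j, hij, -, -⟩ := SimpleGraph.map_adj _ _ _ _ |>.1 hab
  exact hij.ne (Subsingleton.elim i j)

/-- (D2b, S/M) PROOF. `C` of `main_table`, `c = 1 / (2 * C)`. `t = (n / C) ^ (1 / 3)` (real), `k = ⌊t⌋₊`. If `1 ≤ k`: `k ^ 3 ≤ t ^ 3 = n / C`, so `C * k ^ 3 ≤ n` (`Nat.floor_le`, casts) and `main_table`, `fin_path`:
`m ≥ k > t - 1`, `t ≤ 2 * k`, and `c * n ^ (1/3) = (1 / (2 * C)) * C ^ (1/3) * t ≤ t / 2 ≤ k ≤ m` (`C ^ (1/3) ≤ C`, `1 ≤ C`). If `k = 0`: `t < 1`, `n < C`, `c * n ^ (1/3) ≤ c * n ≤ 1` (`1 ≤ n`, `n ^ (1/3) ≤ n`), and `one_path`. -/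
theorem final : ∃ c : ℝ, 0 < c ∧ ∀ n : ℕ, 1 ≤ n → ∀ D : SimpleDrawing n, ∃ m : ℕ,
    (∃ f : Fin m ↪ Fin n, D.Plane ((SimpleGraph.pathGraph m).map f)) ∧
      c * (n : ℝ) ^ (1 / 3 : ℝ) ≤ m := by
  obtain ⟨C, hC, hmain⟩ := main_table
  have hC1 : (1 : ℝ) ≤ C := by exact_mod_cast hC
  have hC0 : (0 : ℝ) < C := by linarith
  refine ⟨1 / (2 * C), by positivity, fun n hn D => ?_⟩
  have hn1 : (1 : ℝ) ≤ n := by exact_mod_cast hn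
  have hn0 : (0 : ℝ) ≤ n := by linarith
  have ht0 : (0 : ℝ) ≤ ((n : ℝ) / C) ^ (1 / 3 : ℝ) := Real.rpow_nonneg (by positivity) _
  have ht3 : (((n : ℝ) / C) ^ (1 / 3 : ℝ)) ^ 3 = (n : ℝ) / C := by
    rw [← Real.rpow_natCast, ← Real.rpow_mul (by positivity)]
    norm_num
  have hsplit : (n : ℝ) ^ (1 / 3 : ℝ) = (C : ℝ) ^ (1 / 3 : ℝ) * ((n : ℝ) / C) ^ (1 / 3 : ℝ) := by
    rw [← Real.mul_rpow hC0.le (by positivity)]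
    congr 1
    field_simp
  have hCr : (C : ℝ) ^ (1 / 3 : ℝ) ≤ C := by
    calc (C : ℝ) ^ (1 / 3 : ℝ) ≤ (C : ℝ) ^ (1 : ℝ) := Real.rpow_le_rpow_of_exponent_le hC1 (by norm_num)
      _ = C := Real.rpow_one _
  set t : ℝ := ((n : ℝ) / C) ^ (1 / 3 : ℝ) with htdef
  -- the constant times the root is at most t / 2
  have hle : 1 / (2 * (C : ℝ)) * (n : ℝ) ^ (1 / 3 : ℝ) ≤ t / 2 := by
    rw [hsplit]
    have h1 : (C : ℝ) ^ (1 / 3 : ℝ) * t ≤ C * t := mul_le_mul_of_nonneg_right hCr ht0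
    calc 1 / (2 * (C : ℝ)) * ((C : ℝ) ^ (1 / 3 : ℝ) * t) ≤ 1 / (2 * (C : ℝ)) * (C * t) :=
          mul_le_mul_of_nonneg_left h1 (by positivity)
      _ = t / 2 := by field_simp
  by_cases hk : 1 ≤ ⌊t⌋₊
  · have hkt : ((⌊t⌋₊ : ℕ) : ℝ) ≤ t := Nat.floor_le ht0
    have hk3 : C * ⌊t⌋₊ ^ 3 ≤ n := by
      have h1 : ((⌊t⌋₊ : ℕ) : ℝ) ^ 3 ≤ t ^ 3 := pow_le_pow_left₀ (Nat.cast_nonneg _) hkt 3
      rw [ht3] at h1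
      have h2 : (C : ℝ) * ((⌊t⌋₊ : ℕ) : ℝ) ^ 3 ≤ n := by
        calc (C : ℝ) * ((⌊t⌋₊ : ℕ) : ℝ) ^ 3 ≤ C * ((n : ℝ) / C) := mul_le_mul_of_nonneg_left h1 hC0.le
          _ = n := by field_simp
      exact_mod_cast h2
    have hp : HasPath (table D) ⌊t⌋₊ := hmain (Fin n) (table D) ⌊t⌋₊ hk (by rw [Fintype.card_fin]; exact hk3)
    obtain ⟨m, hm, f, hf⟩ := fin_path D hp
    refine ⟨m, ⟨f, hf⟩, ?_⟩
    have h1 : t < ⌊t⌋₊ + 1 := Nat.lt_floor_add_one t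
    have h2 : (1 : ℝ) ≤ ((⌊t⌋₊ : ℕ) : ℝ) := by exact_mod_cast hk
    have h3 : ((⌊t⌋₊ : ℕ) : ℝ) ≤ m := by exact_mod_cast hm
    linarith
  · obtain ⟨f, hf⟩ := one_path hn D
    refine ⟨1, ⟨f, hf⟩, ?_⟩
    have h0 : ⌊t⌋₊ = 0 := by omega
    have h1 : t < 1 := (Nat.floor_eq_zero).1 h0
    push_cast
    linarith


end H38Q
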