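import Pool.Agent.Lib.H38Q.Defs
import Pool.Agent.Lib.H98S.PF

/-!
# H38Q, file F: the finite facts (helper98)

All facts are statements on at most 6 points, checked by SAT over all crossing tables.
-/

set_option linter.unusedVariables false

open H53P H98Q

namespace H38Q

variable {V : Type*} {T : Table V} {u v : V} {ρ ρ' : V → ℝ} {X A : Finset V}

/-- (5 points u v x y c) Two points `x, y` with a common `c`: one of the classes applies. -/
theorem f_total_aux (h : Fr T u v ρ X A) {x y c : V} (hx : x ∈ X) (hy : y ∈ X) (hc : c ∈ A)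
    (gx : T.X u v x c = true) (gy : T.X u v y c = true) (lxy : ρ x < ρ y) :
    al T u v ρ c x y ∨ al T u v ρ c y x ∨ be T u v ρ c x y ∨ be T u v ρ c y x ∨
      ga T u v ρ c x y ∨ ga T u v ρ c y x := by
  obtain ⟨xu, xv⟩ := h.xu x hx
  have lvx := h.min x xu xv
  obtain ⟨yu, yv⟩ := h.xu y hy
  have lvy := h.min y yu yv
  obtain ⟨cu, cv⟩ := h.au c hc
  have lvc := h.min c cu cv
  have lxc := h.lt x hx c hc
  obtain ⟨fxc1, fxc2⟩ := adj_f (h.fan x hx c hc)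
  have lyc := h.lt y hy c hc
  obtain ⟨fyc1, fyc2⟩ := adj_f (h.fan y hy c hc)
  cases h1 : T.X u x v y with
  | true =>
    exact Or.inr (Or.inl (Or.inr (Or.inl (And.intro lxy ((T.xs3 x u y v).trans h1)))))
  | false =>
    cases h2 : T.X u y v x with
    | true =>
      have k : T.X x v y u = true := (T.xs7 x v y u).trans h2
      cases h3 : T.X x c y u with
      | true =>
        cases h4 : T.X y c x u with
        | true =>
          exfalso
          have k3 : T.X x c u y = true := (T.xs2 x c u y).trans h3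
          have k4 : T.X x u c y = true := (T.xs4 x u c y).trans ((T.xs1 c y x u).trans h4)
          have k5 := T.one x c u y k3
          rw [k5] at k4
          cases k4
        | false => exact Or.inr (Or.inl (Or.inr (Or.inr (And.intro lxy (And.intro k (And.intro h4 h3))))))
      | false =>
        cases h4 : T.X y c x u with
        | true => exact Or.inr (Or.inr (Or.inr (Or.inl (Or.inr (Or.inr (And.intro lxy (And.intro k (And.intro h4 h3))))))))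
        | false => exact Or.inr (Or.inr (Or.inr (Or.inr (Or.inl (And.intro lxy (And.intro k (And.intro h3 h4)))))))
    | false =>
      cases h3 : T.X y c x v with
      | true => exact Or.inl (Or.inl (And.intro lxy (And.intro (adj_i h1 h2) h3)))
      | false =>
        cases h4 : T.X y c x u with
        | true =>
          exact Or.inr (Or.inr (Or.inr (Or.inl (Or.inl (And.intro lxy (And.intro (adj_i h2 h1) h4))))))
        | false =>
          exfalso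
          exact q_tot (rot4 h.ord h.ne.symm xu yu cu lvx lxy lyc) gx gy fxc1 fxc2 fyc1 fyc2 h1 h2 ((T.xs5 y c x v).symm.trans h3) ((T.xs5 y c x u).symm.trans h4)

/-- (5 points u v x y c) Two points `x, y` with a common `c`: one of the classes applies. -/
theorem f_total (h : Fr T u v ρ X A) {x y c : V} (hx : x ∈ X) (hy : y ∈ X) (hc : c ∈ A) (hxy : x ≠ y)
    (gx : T.X u v x c = true) (gy : T.X u v y c = true) :
    al T u v ρ c x y ∨ al T u v ρ c y x ∨ be T u v ρ c x y ∨ be T u v ρ c y x ∨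
      ga T u v ρ c x y ∨ ga T u v ρ c y x := by
  rcases lt_trichotomy (ρ x) (ρ y) with l | l | l
  · exact f_total_aux h hx hy hc gx gy l
  · exact absurd (h.ord.1 x y (h.xu x hx).1 (h.xu y hy).1 l) hxy
  · rcases f_total_aux h hy hx hc gy gx l with k | k | k | k | k | k
    · exact Or.inr (Or.inl k)
    · exact Or.inl k
    · exact Or.inr (Or.inr (Or.inr (Or.inl k)))
    · exact Or.inr (Or.inr (Or.inl k))
    · exact Or.inr (Or.inr (Or.inr (Or.inr (Or.inr k))))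
    · exact Or.inr (Or.inr (Or.inr (Or.inr (Or.inl k))))

/-- (6 points) -/
theorem f_al (h : Fr T u v ρ X A) {x y z c : V} (hx : x ∈ X) (hy : y ∈ X) (hz : z ∈ X) (hc : c ∈ A)
    (gx : T.X u v x c = true) (gy : T.X u v y c = true) (gz : T.X u v z c = true)
    (h1 : al T u v ρ c x y) (h2 : al T u v ρ c y z) : al T u v ρ c x z := by
  obtain ⟨xu, xv⟩ := h.xu x hx
  have lvx := h.min x xu xv
  obtain ⟨yu, yv⟩ := h.xu y hy
  have lvy := h.min y yu yv
  obtain ⟨zu, zv⟩ := h.xu z hz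
  have lvz := h.min z zu zv
  obtain ⟨cu, cv⟩ := h.au c hc
  have lvc := h.min c cu cv
  have lxc := h.lt x hx c hc
  obtain ⟨fxc1, fxc2⟩ := adj_f (h.fan x hx c hc)
  have lyc := h.lt y hy c hc
  obtain ⟨fyc1, fyc2⟩ := adj_f (h.fan y hy c hc)
  have lzc := h.lt z hz c hc
  obtain ⟨fzc1, fzc2⟩ := adj_f (h.fan z hz c hc)
  by_contra hn
  rcases h1 with ⟨op, pA, p2⟩ | ⟨op, p0⟩ | ⟨op, p0, p1, p2⟩
  · rcases h2 with ⟨oq, qA, q2⟩ | ⟨oq, q0⟩ | ⟨oq, q0, q1, q2⟩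
    · obtain ⟨p0, p1⟩ := adj_f pA
      obtain ⟨q0, q1⟩ := adj_f qA
      have lxy := op
      have lyz := oq
      have lxz := lxy.trans lyz
      exact q_al_N1_N1_xyz (rot5 h.ord h.ne.symm xu yu zu cu lvx lxy lyz lzc) gx gy gz fxc1 fxc2 fyc1 fyc2 fzc1 fzc2 p0 p1 ((T.xs5 y c x v).symm.trans p2) q0 q1 ((T.xs5 z c y v).symm.trans q2) (fun k0 k1 k2 => hn (Or.inl (And.intro lxz (And.intro (adj_i k0 k1) ((T.xs5 z c x v).trans k2)))))
    · obtain ⟨p0, p1⟩ := adj_f pA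
      have lxy := op
      have lzy := oq
      rcases lt_trichotomy (ρ x) (ρ z) with t | t | t
      · have lxz := t
        exact q_al_N1_Sa_xzy (rot5 h.ord h.ne.symm xu zu yu cu lvx lxz lzy lyc) gx gy gz fxc1 fxc2 fyc1 fyc2 fzc1 fzc2 p0 p1 ((T.xs5 y c x v).symm.trans p2) ((T.xs3 z u y v).symm.trans q0) (fun k0 k1 k2 => hn (Or.inl (And.intro lxz (And.intro (adj_i k0 k1) ((T.xs5 z c x v).trans k2)))))
      · obtain rfl := h.ord.1 x z xu zu t
        exact bcontra ((T.xs3 x u y v).symm.trans q0) p0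
      · have lzx := t
        exact q_al_N1_Sa_zxy (rot5 h.ord h.ne.symm zu xu yu cu lvz lzx lxy lyc) gx gy gz fxc1 fxc2 fyc1 fyc2 fzc1 fzc2 p0 p1 ((T.xs5 y c x v).symm.trans p2) ((T.xs3 z u y v).symm.trans q0) (bf (fun k0 => hn (Or.inr (Or.inl (And.intro lzx ((T.xs3 z u x v).trans k0)))))) (fun k0 k1 k2 => hn (Or.inr (Or.inr (And.intro lzx (And.intro ((T.xs7 z v x u).trans k0) (And.intro ((T.xs5 x c z u).trans k1) ((T.xs5 z c x u).trans k2)))))))
    · obtain ⟨p0, p1⟩ := adj_f pA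
      have lxy := op
      have lzy := oq
      rcases lt_trichotomy (ρ x) (ρ z) with t | t | t
      · have lxz := t
        exact q_al_N1_Sb02_xzy (rot5 h.ord h.ne.symm xu zu yu cu lvx lxz lzy lyc) gx gy gz fxc1 fxc2 fyc1 fyc2 fzc1 fzc2 p0 p1 ((T.xs5 y c x v).symm.trans p2) ((T.xs7 z v y u).symm.trans q0) ((T.xs5 y c z u).symm.trans q1) ((T.xs5 z c y u).symm.trans q2) (fun k0 k1 k2 => hn (Or.inl (And.intro lxz (And.intro (adj_i k0 k1) ((T.xs5 z c x v).trans k2)))))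
      · obtain rfl := h.ord.1 x z xu zu t
        exact bcontra ((T.xs7 x v y u).symm.trans q0) p1
      · have lzx := t
        exact q_al_N1_Sb02_zxy (rot5 h.ord h.ne.symm zu xu yu cu lvz lzx lxy lyc) gx gy gz fxc1 fxc2 fyc1 fyc2 fzc1 fzc2 p0 p1 ((T.xs5 y c x v).symm.trans p2) ((T.xs7 z v y u).symm.trans q0) ((T.xs5 y c z u).symm.trans q1) ((T.xs5 z c y u).symm.trans q2) (bf (fun k0 => hn (Or.inr (Or.inl (And.intro lzx ((T.xs3 z u x v).trans k0)))))) (fun k0 k1 k2 => hn (Or.inr (Or.inr (And.intro lzx (And.intro ((T.xs7 z v x u).trans k0) (And.intro ((T.xs5 x c z u).trans k1) ((T.xs5 z c x u).trans k2)))))))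
  · rcases h2 with ⟨oq, qA, q2⟩ | ⟨oq, q0⟩ | ⟨oq, q0, q1, q2⟩
    · obtain ⟨q0, q1⟩ := adj_f qA
      have lyx := op
      have lyz := oq
      rcases lt_trichotomy (ρ x) (ρ z) with t | t | t
      · have lxz := t
        exact q_al_Sa_N1_yxz (rot5 h.ord h.ne.symm yu xu zu cu lvy lyx lxz lzc) gx gy gz fxc1 fxc2 fyc1 fyc2 fzc1 fzc2 ((T.xs3 y u x v).symm.trans p0) q0 q1 ((T.xs5 z c y v).symm.trans q2) (fun k0 k1 k2 => hn (Or.inl (And.intro lxz (And.intro (adj_i k0 k1) ((T.xs5 z c x v).trans k2)))))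
      · obtain rfl := h.ord.1 x z xu zu t
        exact bcontra ((T.xs3 y u x v).symm.trans p0) q0
      · have lzx := t
        exact q_al_Sa_N1_yzx (rot5 h.ord h.ne.symm yu zu xu cu lvy lyz lzx lxc) gx gy gz fxc1 fxc2 fyc1 fyc2 fzc1 fzc2 ((T.xs3 y u x v).symm.trans p0) q0 q1 ((T.xs5 z c y v).symm.trans q2) (bf (fun k0 => hn (Or.inr (Or.inl (And.intro lzx ((T.xs3 z u x v).trans k0)))))) (fun k0 k1 k2 => hn (Or.inr (Or.inr (And.intro lzx (And.intro ((T.xs7 z v x u).trans k0) (And.intro ((T.xs5 x c z u).trans k1) ((T.xs5 z c x u).trans k2)))))))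
    · have lyx := op
      have lzy := oq
      have lzx := lzy.trans lyx
      exact q_al_Sa_Sa_zyx (rot5 h.ord h.ne.symm zu yu xu cu lvz lzy lyx lxc) gx gy gz fxc1 fxc2 fyc1 fyc2 fzc1 fzc2 ((T.xs3 y u x v).symm.trans p0) ((T.xs3 z u y v).symm.trans q0) (bf (fun k0 => hn (Or.inr (Or.inl (And.intro lzx ((T.xs3 z u x v).trans k0)))))) (fun k0 k1 k2 => hn (Or.inr (Or.inr (And.intro lzx (And.intro ((T.xs7 z v x u).trans k0) (And.intro ((T.xs5 x c z u).trans k1) ((T.xs5 z c x u).trans k2)))))))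
    · have lyx := op
      have lzy := oq
      have lzx := lzy.trans lyx
      exact q_al_Sa_Sb02_zyx (rot5 h.ord h.ne.symm zu yu xu cu lvz lzy lyx lxc) gx gy gz fxc1 fxc2 fyc1 fyc2 fzc1 fzc2 ((T.xs3 y u x v).symm.trans p0) ((T.xs7 z v y u).symm.trans q0) ((T.xs5 y c z u).symm.trans q1) ((T.xs5 z c y u).symm.trans q2) (bf (fun k0 => hn (Or.inr (Or.inl (And.intro lzx ((T.xs3 z u x v).trans k0)))))) (fun k0 k1 k2 => hn (Or.inr (Or.inr (And.intro lzx (And.intro ((T.xs7 z v x u).trans k0) (And.intro ((T.xs5 x c z u).trans k1) ((T.xs5 z c x u).trans k2)))))))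
  · rcases h2 with ⟨oq, qA, q2⟩ | ⟨oq, q0⟩ | ⟨oq, q0, q1, q2⟩
    · obtain ⟨q0, q1⟩ := adj_f qA
      have lyx := op
      have lyz := oq
      rcases lt_trichotomy (ρ x) (ρ z) with t | t | t
      · have lxz := t
        exact q_al_Sb02_N1_yxz (rot5 h.ord h.ne.symm yu xu zu cu lvy lyx lxz lzc) gx gy gz fxc1 fxc2 fyc1 fyc2 fzc1 fzc2 ((T.xs7 y v x u).symm.trans p0) ((T.xs5 x c y u).symm.trans p1) ((T.xs5 y c x u).symm.trans p2) q0 q1 ((T.xs5 z c y v).symm.trans q2) (fun k0 k1 k2 => hn (Or.inl (And.intro lxz (And.intro (adj_i k0 k1) ((T.xs5 z c x v).trans k2)))))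
      · obtain rfl := h.ord.1 x z xu zu t
        exact bcontra ((T.xs7 y v x u).symm.trans p0) q1
      · have lzx := t
        exact q_al_Sb02_N1_yzx (rot5 h.ord h.ne.symm yu zu xu cu lvy lyz lzx lxc) gx gy gz fxc1 fxc2 fyc1 fyc2 fzc1 fzc2 ((T.xs7 y v x u).symm.trans p0) ((T.xs5 x c y u).symm.trans p1) ((T.xs5 y c x u).symm.trans p2) q0 q1 ((T.xs5 z c y v).symm.trans q2) (bf (fun k0 => hn (Or.inr (Or.inl (And.intro lzx ((T.xs3 z u x v).trans k0)))))) (fun k0 k1 k2 => hn (Or.inr (Or.inr (And.intro lzx (And.intro ((T.xs7 z v x u).trans k0) (And.intro ((T.xs5 x c z u).trans k1) ((T.xs5 z c x u).trans k2)))))))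
    · have lyx := op
      have lzy := oq
      have lzx := lzy.trans lyx
      exact q_al_Sb02_Sa_zyx (rot5 h.ord h.ne.symm zu yu xu cu lvz lzy lyx lxc) gx gy gz fxc1 fxc2 fyc1 fyc2 fzc1 fzc2 ((T.xs7 y v x u).symm.trans p0) ((T.xs5 x c y u).symm.trans p1) ((T.xs5 y c x u).symm.trans p2) ((T.xs3 z u y v).symm.trans q0) (bf (fun k0 => hn (Or.inr (Or.inl (And.intro lzx ((T.xs3 z u x v).trans k0)))))) (fun k0 k1 k2 => hn (Or.inr (Or.inr (And.intro lzx (And.intro ((T.xs7 z v x u).trans k0) (And.intro ((T.xs5 x c z u).trans k1) ((T.xs5 z c x u).trans k2)))))))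
    · have lyx := op
      have lzy := oq
      have lzx := lzy.trans lyx
      exact q_al_Sb02_Sb02_zyx (rot5 h.ord h.ne.symm zu yu xu cu lvz lzy lyx lxc) gx gy gz fxc1 fxc2 fyc1 fyc2 fzc1 fzc2 ((T.xs7 y v x u).symm.trans p0) ((T.xs5 x c y u).symm.trans p1) ((T.xs5 y c x u).symm.trans p2) ((T.xs7 z v y u).symm.trans q0) ((T.xs5 y c z u).symm.trans q1) ((T.xs5 z c y u).symm.trans q2) (bf (fun k0 => hn (Or.inr (Or.inl (And.intro lzx ((T.xs3 z u x v).trans k0)))))) (fun k0 k1 k2 => hn (Or.inr (Or.inr (And.intro lzx (And.intro ((T.xs7 z v x u).trans k0) (And.intro ((T.xs5 x c z u).trans k1) ((T.xs5 z c x u).trans k2)))))))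

/-- (6 points) -/
theorem f_be (h : Fr T u v ρ X A) {x y z c : V} (hx : x ∈ X) (hy : y ∈ X) (hz : z ∈ X) (hc : c ∈ A)
    (gx : T.X u v x c = true) (gy : T.X u v y c = true) (gz : T.X u v z c = true)
    (h1 : be T u v ρ c x y) (h2 : be T u v ρ c y z) : be T u v ρ c x z := by
  obtain ⟨xu, xv⟩ := h.xu x hx
  have lvx := h.min x xu xv
  obtain ⟨yu, yv⟩ := h.xu y hy
  have lvy := h.min y yu yv
  obtain ⟨zu, zv⟩ := h.xu z hz
  have lvz := h.min z zu zv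
  obtain ⟨cu, cv⟩ := h.au c hc
  have lvc := h.min c cu cv
  have lxc := h.lt x hx c hc
  obtain ⟨fxc1, fxc2⟩ := adj_f (h.fan x hx c hc)
  have lyc := h.lt y hy c hc
  obtain ⟨fyc1, fyc2⟩ := adj_f (h.fan y hy c hc)
  have lzc := h.lt z hz c hc
  obtain ⟨fzc1, fzc2⟩ := adj_f (h.fan z hz c hc)
  by_contra hn
  rcases h1 with ⟨op, pA, p2⟩ | ⟨op, p0⟩ | ⟨op, p0, p1, p2⟩
  · rcases h2 with ⟨oq, qA, q2⟩ | ⟨oq, q0⟩ | ⟨oq, q0, q1, q2⟩
    · obtain ⟨p0, p1⟩ := adj_f pA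
      obtain ⟨q0, q1⟩ := adj_f qA
      have lyx := op
      have lzy := oq
      have lzx := lzy.trans lyx
      exact q_be_N2_N2_zyx (rot5 h.ord h.ne.symm zu yu xu cu lvz lzy lyx lxc) gx gy gz fxc1 fxc2 fyc1 fyc2 fzc1 fzc2 p0 p1 ((T.xs5 x c y u).symm.trans p2) q0 q1 ((T.xs5 y c z u).symm.trans q2) (fun k0 k1 k2 => hn (Or.inl (And.intro lzx (And.intro (adj_i k0 k1) ((T.xs5 x c z u).trans k2))))) (bf (fun k0 => hn (Or.inr (Or.inl (And.intro lzx ((T.xs3 z u x v).trans k0)))))) (fun k0 k1 k2 => hn (Or.inr (Or.inr (And.intro lzx (And.intro ((T.xs7 z v x u).trans k0) (And.intro ((T.xs5 x c z u).trans k1) ((T.xs5 z c x u).trans k2)))))))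
    · obtain ⟨p0, p1⟩ := adj_f pA
      have lyx := op
      have lzy := oq
      have lzx := lzy.trans lyx
      exact q_be_N2_Sa_zyx (rot5 h.ord h.ne.symm zu yu xu cu lvz lzy lyx lxc) gx gy gz fxc1 fxc2 fyc1 fyc2 fzc1 fzc2 p0 p1 ((T.xs5 x c y u).symm.trans p2) ((T.xs3 z u y v).symm.trans q0) (fun k0 k1 k2 => hn (Or.inl (And.intro lzx (And.intro (adj_i k0 k1) ((T.xs5 x c z u).trans k2))))) (bf (fun k0 => hn (Or.inr (Or.inl (And.intro lzx ((T.xs3 z u x v).trans k0)))))) (fun k0 k1 k2 => hn (Or.inr (Or.inr (And.intro lzx (And.intro ((T.xs7 z v x u).trans k0) (And.intro ((T.xs5 x c z u).trans k1) ((T.xs5 z c x u).trans k2)))))))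
    · obtain ⟨p0, p1⟩ := adj_f pA
      have lyx := op
      have lzy := oq
      have lzx := lzy.trans lyx
      exact q_be_N2_Sb20_zyx (rot5 h.ord h.ne.symm zu yu xu cu lvz lzy lyx lxc) gx gy gz fxc1 fxc2 fyc1 fyc2 fzc1 fzc2 p0 p1 ((T.xs5 x c y u).symm.trans p2) ((T.xs7 z v y u).symm.trans q0) ((T.xs5 y c z u).symm.trans q1) ((T.xs5 z c y u).symm.trans q2) (fun k0 k1 k2 => hn (Or.inl (And.intro lzx (And.intro (adj_i k0 k1) ((T.xs5 x c z u).trans k2))))) (bf (fun k0 => hn (Or.inr (Or.inl (And.intro lzx ((T.xs3 z u x v).trans k0)))))) (fun k0 k1 k2 => hn (Or.inr (Or.inr (And.intro lzx (And.intro ((T.xs7 z v x u).trans k0) (And.intro ((T.xs5 x c z u).trans k1) ((T.xs5 z c x u).trans k2)))))))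
  · rcases h2 with ⟨oq, qA, q2⟩ | ⟨oq, q0⟩ | ⟨oq, q0, q1, q2⟩
    · obtain ⟨q0, q1⟩ := adj_f qA
      have lyx := op
      have lzy := oq
      have lzx := lzy.trans lyx
      exact q_be_Sa_N2_zyx (rot5 h.ord h.ne.symm zu yu xu cu lvz lzy lyx lxc) gx gy gz fxc1 fxc2 fyc1 fyc2 fzc1 fzc2 ((T.xs3 y u x v).symm.trans p0) q0 q1 ((T.xs5 y c z u).symm.trans q2) (fun k0 k1 k2 => hn (Or.inl (And.intro lzx (And.intro (adj_i k0 k1) ((T.xs5 x c z u).trans k2))))) (bf (fun k0 => hn (Or.inr (Or.inl (And.intro lzx ((T.xs3 z u x v).trans k0)))))) (fun k0 k1 k2 => hn (Or.inr (Or.inr (And.intro lzx (And.intro ((T.xs7 z v x u).trans k0) (And.intro ((T.xs5 x c z u).trans k1) ((T.xs5 z c x u).trans k2)))))))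
    · have lyx := op
      have lzy := oq
      have lzx := lzy.trans lyx
      exact q_be_Sa_Sa_zyx (rot5 h.ord h.ne.symm zu yu xu cu lvz lzy lyx lxc) gx gy gz fxc1 fxc2 fyc1 fyc2 fzc1 fzc2 ((T.xs3 y u x v).symm.trans p0) ((T.xs3 z u y v).symm.trans q0) (fun k0 k1 k2 => hn (Or.inl (And.intro lzx (And.intro (adj_i k0 k1) ((T.xs5 x c z u).trans k2))))) (bf (fun k0 => hn (Or.inr (Or.inl (And.intro lzx ((T.xs3 z u x v).trans k0)))))) (fun k0 k1 k2 => hn (Or.inr (Or.inr (And.intro lzx (And.intro ((T.xs7 z v x u).trans k0) (And.intro ((T.xs5 x c z u).trans k1) ((T.xs5 z c x u).trans k2)))))))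
    · have lyx := op
      have lzy := oq
      have lzx := lzy.trans lyx
      exact q_be_Sa_Sb20_zyx (rot5 h.ord h.ne.symm zu yu xu cu lvz lzy lyx lxc) gx gy gz fxc1 fxc2 fyc1 fyc2 fzc1 fzc2 ((T.xs3 y u x v).symm.trans p0) ((T.xs7 z v y u).symm.trans q0) ((T.xs5 y c z u).symm.trans q1) ((T.xs5 z c y u).symm.trans q2) (fun k0 k1 k2 => hn (Or.inl (And.intro lzx (And.intro (adj_i k0 k1) ((T.xs5 x c z u).trans k2))))) (bf (fun k0 => hn (Or.inr (Or.inl (And.intro lzx ((T.xs3 z u x v).trans k0)))))) (fun k0 k1 k2 => hn (Or.inr (Or.inr (And.intro lzx (And.intro ((T.xs7 z v x u).trans k0) (And.intro ((T.xs5 x c z u).trans k1) ((T.xs5 z c x u).trans k2)))))))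
  · rcases h2 with ⟨oq, qA, q2⟩ | ⟨oq, q0⟩ | ⟨oq, q0, q1, q2⟩
    · obtain ⟨q0, q1⟩ := adj_f qA
      have lyx := op
      have lzy := oq
      have lzx := lzy.trans lyx
      exact q_be_Sb20_N2_zyx (rot5 h.ord h.ne.symm zu yu xu cu lvz lzy lyx lxc) gx gy gz fxc1 fxc2 fyc1 fyc2 fzc1 fzc2 ((T.xs7 y v x u).symm.trans p0) ((T.xs5 x c y u).symm.trans p1) ((T.xs5 y c x u).symm.trans p2) q0 q1 ((T.xs5 y c z u).symm.trans q2) (fun k0 k1 k2 => hn (Or.inl (And.intro lzx (And.intro (adj_i k0 k1) ((T.xs5 x c z u).trans k2))))) (bf (fun k0 => hn (Or.inr (Or.inl (And.intro lzx ((T.xs3 z u x v).trans k0)))))) (fun k0 k1 k2 => hn (Or.inr (Or.inr (And.intro lzx (And.intro ((T.xs7 z v x u).trans k0) (And.intro ((T.xs5 x c z u).trans k1) ((T.xs5 z c x u).trans k2)))))))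
    · have lyx := op
      have lzy := oq
      have lzx := lzy.trans lyx
      exact q_be_Sb20_Sa_zyx (rot5 h.ord h.ne.symm zu yu xu cu lvz lzy lyx lxc) gx gy gz fxc1 fxc2 fyc1 fyc2 fzc1 fzc2 ((T.xs7 y v x u).symm.trans p0) ((T.xs5 x c y u).symm.trans p1) ((T.xs5 y c x u).symm.trans p2) ((T.xs3 z u y v).symm.trans q0) (fun k0 k1 k2 => hn (Or.inl (And.intro lzx (And.intro (adj_i k0 k1) ((T.xs5 x c z u).trans k2))))) (bf (fun k0 => hn (Or.inr (Or.inl (And.intro lzx ((T.xs3 z u x v).trans k0)))))) (fun k0 k1 k2 => hn (Or.inr (Or.inr (And.intro lzx (And.intro ((T.xs7 z v x u).trans k0) (And.intro ((T.xs5 x c z u).trans k1) ((T.xs5 z c x u).trans k2)))))))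
    · have lyx := op
      have lzy := oq
      have lzx := lzy.trans lyx
      exact q_be_Sb20_Sb20_zyx (rot5 h.ord h.ne.symm zu yu xu cu lvz lzy lyx lxc) gx gy gz fxc1 fxc2 fyc1 fyc2 fzc1 fzc2 ((T.xs7 y v x u).symm.trans p0) ((T.xs5 x c y u).symm.trans p1) ((T.xs5 y c x u).symm.trans p2) ((T.xs7 z v y u).symm.trans q0) ((T.xs5 y c z u).symm.trans q1) ((T.xs5 z c y u).symm.trans q2) (fun k0 k1 k2 => hn (Or.inl (And.intro lzx (And.intro (adj_i k0 k1) ((T.xs5 x c z u).trans k2))))) (bf (fun k0 => hn (Or.inr (Or.inl (And.intro lzx ((T.xs3 z u x v).trans k0)))))) (fun k0 k1 k2 => hn (Or.inr (Or.inr (And.intro lzx (And.intro ((T.xs7 z v x u).trans k0) (And.intro ((T.xs5 x c z u).trans k1) ((T.xs5 z c x u).trans k2)))))))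

/-- (6 points) -/
theorem f_ga (h : Fr T u v ρ X A) {x y z c : V} (hx : x ∈ X) (hy : y ∈ X) (hz : z ∈ X) (hc : c ∈ A)
    (gx : T.X u v x c = true) (gy : T.X u v y c = true) (gz : T.X u v z c = true)
    (h1 : ga T u v ρ c x y) (h2 : ga T u v ρ c y z) : ga T u v ρ c x z := by
  obtain ⟨xu, xv⟩ := h.xu x hx
  have lvx := h.min x xu xv
  obtain ⟨yu, yv⟩ := h.xu y hy
  have lvy := h.min y yu yv
  obtain ⟨zu, zv⟩ := h.xu z hz
  have lvz := h.min z zu zv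
  obtain ⟨cu, cv⟩ := h.au c hc
  have lvc := h.min c cu cv
  have lxc := h.lt x hx c hc
  obtain ⟨fxc1, fxc2⟩ := adj_f (h.fan x hx c hc)
  have lyc := h.lt y hy c hc
  obtain ⟨fyc1, fyc2⟩ := adj_f (h.fan y hy c hc)
  have lzc := h.lt z hz c hc
  obtain ⟨fzc1, fzc2⟩ := adj_f (h.fan z hz c hc)
  by_contra hn
  rcases h1 with ⟨op, p0, p1, p2⟩
  · obtain ⟨oq, q0, q1, q2⟩ := h2
    have lxy := op
    have lyz := oq
    have lxz := lxy.trans lyz
    exact q_ga_Sb0_Sb0_xyz (rot5 h.ord h.ne.symm xu yu zu cu lvx lxy lyz lzc) gx gy gz fxc1 fxc2 fyc1 fyc2 fzc1 fzc2 ((T.xs7 x v y u).symm.trans p0) ((T.xs5 x c y u).symm.trans p1) ((T.xs5 y c x u).symm.trans p2) ((T.xs7 y v z u).symm.trans q0) ((T.xs5 y c z u).symm.trans q1) ((T.xs5 z c y u).symm.trans q2) (fun k0 k1 k2 => hn (And.intro lxz (And.intro ((T.xs7 x v z u).trans k0) (And.intro ((T.xs5 x c z u).trans k1) ((T.xs5 z c x u).trans k2)))))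

/-- (5 points u v x a b) the edges `xa`, `xb` crossing `uv` are in the same sector `u, v` at `x` -/
theorem f_sep (h : Fr T u v ρ X A) {x a b : V} (hx : x ∈ X) (ha : a ∈ A) (hb : b ∈ A) (hab : a ≠ b)
    (ga : T.X u v x a = true) (gb : T.X u v x b = true) : T.alt x u v a b = false := by
  obtain ⟨xu, xv⟩ := h.xu x hx
  have lvx := h.min x xu xv
  obtain ⟨au, av⟩ := h.au a ha
  have lva := h.min a au av
  obtain ⟨bu, bv⟩ := h.au b hb
  have lvb := h.min b bu bv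
  have lxa := h.lt x hx a ha
  obtain ⟨fxa1, fxa2⟩ := adj_f (h.fan x hx a ha)
  have lxb := h.lt x hx b hb
  obtain ⟨fxb1, fxb2⟩ := adj_f (h.fan x hx b hb)
  have xa : x ≠ a := fun e => by rw [e] at lxa; exact lt_irrefl _ lxa
  have xb : x ≠ b := fun e => by rw [e] at lxb; exact lt_irrefl _ lxb
  apply bf
  intro hs
  rcases lt_trichotomy (ρ a) (ρ b) with lab | t | lba
  · exact q_sep_ab (rot4 h.ord h.ne.symm xu au bu lvx lxa lab) (okS1_i (T.ok5 h.ne xu.symm au.symm bu.symm xv.symm av.symm bv.symm xa xb hab) hs) ga gb fxa1 fxa2 fxb1 fxb2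
  · exact hab (h.ord.1 a b au bu t)
  · exact q_sep_ba (rot4 h.ord h.ne.symm xu bu au lvx lxb lba) (okS1_i (T.ok5 h.ne xu.symm bu.symm au.symm xv.symm bv.symm av.symm xb xa hab.symm) ((alt_sw T x u v a b).symm.trans hs)) ga gb fxa1 fxa2 fxb1 fxb2

/-- (6 points u v x y a b) `a` before `b` at `x`: cyclic order `u a b v` at `x`, that is `T.alt x u b a v = true`. -/
theorem f_m1 (h : Fr T u v ρ X A) {x y a b : V} (hx : x ∈ X) (hy : y ∈ X) (ha : a ∈ A) (hb : b ∈ A)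
    (hab : a ≠ b) (hyx : ρ y < ρ x) (hadj : T.adj u v x y = false) (ga : T.X u v x a = true)
    (gb : T.X u v x b = true) (hbe : T.alt x u b a v = true) (h1 : T.X x b y u = true) :
    T.X x a y u = true := by
  obtain ⟨xu, xv⟩ := h.xu x hx
  have lvx := h.min x xu xv
  obtain ⟨yu, yv⟩ := h.xu y hy
  have lvy := h.min y yu yv
  obtain ⟨au, av⟩ := h.au a ha
  have lva := h.min a au av
  obtain ⟨bu, bv⟩ := h.au b hb
  have lvb := h.min b bu bv
  have lxa := h.lt x hx a ha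
  obtain ⟨fxa1, fxa2⟩ := adj_f (h.fan x hx a ha)
  have lxb := h.lt x hx b hb
  obtain ⟨fxb1, fxb2⟩ := adj_f (h.fan x hx b hb)
  have lya := h.lt y hy a ha
  obtain ⟨fya1, fya2⟩ := adj_f (h.fan y hy a ha)
  have lyb := h.lt y hy b hb
  obtain ⟨fyb1, fyb2⟩ := adj_f (h.fan y hy b hb)
  have xa : x ≠ a := fun e => by rw [e] at lxa; exact lt_irrefl _ lxa
  have xb : x ≠ b := fun e => by rw [e] at lxb; exact lt_irrefl _ lxb
  have lyx := hyx
  obtain ⟨a1, a2⟩ := adj_f hadj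
  apply bt
  intro hn
  rcases lt_trichotomy (ρ a) (ρ b) with lab | t | lba
  · exact q_m1_ab (rot5 h.ord h.ne.symm yu xu au bu lvy lyx lxa lab) (okS2_i (T.ok5 h.ne xu.symm au.symm bu.symm xv.symm av.symm bv.symm xa xb hab) hbe) ga gb fxa1 fxa2 fxb1 fxb2 fya1 fya2 fyb1 fyb2 a1 a2 ((T.xs5 x b y u).symm.trans h1) ((T.xs5 x a y u).symm.trans hn)
  · exact (hab (h.ord.1 a b au bu t)).elim
  · exact q_m1_ba (rot5 h.ord h.ne.symm yu xu bu au lvy lyx lxb lba) (okS3_i (T.ok5 h.ne xu.symm bu.symm au.symm xv.symm bv.symm av.symm xb xa hab.symm) hbe) ga gb fxa1 fxa2 fxb1 fxb2 fya1 fya2 fyb1 fyb2 a1 a2 ((T.xs5 x b y u).symm.trans h1) ((T.xs5 x a y u).symm.trans hn)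

/-- (6 points) -/
theorem f_m1' (h : Fr T u v ρ X A) {x y a b : V} (hx : x ∈ X) (hy : y ∈ X) (ha : a ∈ A) (hb : b ∈ A)
    (hab : a ≠ b) (hyx : ρ y < ρ x) (hadj : T.adj u v x y = false) (ga : T.X u v x a = true)
    (gb : T.X u v x b = true) (hbe : T.alt x u b a v = true) (h1 : T.X x a y v = true) :
    T.X x b y v = true := by
  obtain ⟨xu, xv⟩ := h.xu x hx
  have lvx := h.min x xu xv
  obtain ⟨yu, yv⟩ := h.xu y hy
  have lvy := h.min y yu yv
  obtain ⟨au, av⟩ := h.au a ha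
  have lva := h.min a au av
  obtain ⟨bu, bv⟩ := h.au b hb
  have lvb := h.min b bu bv
  have lxa := h.lt x hx a ha
  obtain ⟨fxa1, fxa2⟩ := adj_f (h.fan x hx a ha)
  have lxb := h.lt x hx b hb
  obtain ⟨fxb1, fxb2⟩ := adj_f (h.fan x hx b hb)
  have lya := h.lt y hy a ha
  obtain ⟨fya1, fya2⟩ := adj_f (h.fan y hy a ha)
  have lyb := h.lt y hy b hb
  obtain ⟨fyb1, fyb2⟩ := adj_f (h.fan y hy b hb)
  have xa : x ≠ a := fun e => by rw [e] at lxa; exact lt_irrefl _ lxa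
  have xb : x ≠ b := fun e => by rw [e] at lxb; exact lt_irrefl _ lxb
  have lyx := hyx
  obtain ⟨a1, a2⟩ := adj_f hadj
  apply bt
  intro hn
  rcases lt_trichotomy (ρ a) (ρ b) with lab | t | lba
  · exact q_m1p_ab (rot5 h.ord h.ne.symm yu xu au bu lvy lyx lxa lab) (okS2_i (T.ok5 h.ne xu.symm au.symm bu.symm xv.symm av.symm bv.symm xa xb hab) hbe) ga gb fxa1 fxa2 fxb1 fxb2 fya1 fya2 fyb1 fyb2 a1 a2 ((T.xs5 x a y v).symm.trans h1) ((T.xs5 x b y v).symm.trans hn)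
  · exact (hab (h.ord.1 a b au bu t)).elim
  · exact q_m1p_ba (rot5 h.ord h.ne.symm yu xu bu au lvy lyx lxb lba) (okS3_i (T.ok5 h.ne xu.symm bu.symm au.symm xv.symm bv.symm av.symm xb xa hab.symm) hbe) ga gb fxa1 fxa2 fxb1 fxb2 fya1 fya2 fyb1 fyb2 a1 a2 ((T.xs5 x a y v).symm.trans h1) ((T.xs5 x b y v).symm.trans hn)

/-- (6 points) -/
theorem f_m2 (h : Fr T u v ρ X A) {x y a b : V} (hx : x ∈ X) (hy : y ∈ X) (ha : a ∈ A) (hb : b ∈ A)
    (hab : a ≠ b) (hyx : ρ x < ρ y) (hX : T.X x v y u = true) (ga : T.X u v x a = true)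
    (gb : T.X u v x b = true) (hbe : T.alt x u b a v = true) (h1 : T.X x a y u = true) :
    T.X x b y u = true := by
  obtain ⟨xu, xv⟩ := h.xu x hx
  have lvx := h.min x xu xv
  obtain ⟨yu, yv⟩ := h.xu y hy
  have lvy := h.min y yu yv
  obtain ⟨au, av⟩ := h.au a ha
  have lva := h.min a au av
  obtain ⟨bu, bv⟩ := h.au b hb
  have lvb := h.min b bu bv
  have lxa := h.lt x hx a ha
  obtain ⟨fxa1, fxa2⟩ := adj_f (h.fan x hx a ha)
  have lxb := h.lt x hx b hb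
  obtain ⟨fxb1, fxb2⟩ := adj_f (h.fan x hx b hb)
  have lya := h.lt y hy a ha
  obtain ⟨fya1, fya2⟩ := adj_f (h.fan y hy a ha)
  have lyb := h.lt y hy b hb
  obtain ⟨fyb1, fyb2⟩ := adj_f (h.fan y hy b hb)
  have xa : x ≠ a := fun e => by rw [e] at lxa; exact lt_irrefl _ lxa
  have xb : x ≠ b := fun e => by rw [e] at lxb; exact lt_irrefl _ lxb
  have lxy := hyx
  apply bt
  intro hn
  rcases lt_trichotomy (ρ a) (ρ b) with lab | t | lba
  · exact q_m2_ab (rot5 h.ord h.ne.symm xu yu au bu lvx lxy lya lab) (okS2_i (T.ok5 h.ne xu.symm au.symm bu.symm xv.symm av.symm bv.symm xa xb hab) hbe) ga gb fxa1 fxa2 fxb1 fxb2 fya1 fya2 fyb1 fyb2 ((T.xs7 x v y u).symm.trans hX) ((T.xs5 x a y u).symm.trans h1) ((T.xs5 x b y u).symm.trans hn)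
  · exact (hab (h.ord.1 a b au bu t)).elim
  · exact q_m2_ba (rot5 h.ord h.ne.symm xu yu bu au lvx lxy lyb lba) (okS3_i (T.ok5 h.ne xu.symm bu.symm au.symm xv.symm bv.symm av.symm xb xa hab.symm) hbe) ga gb fxa1 fxa2 fxb1 fxb2 fya1 fya2 fyb1 fyb2 ((T.xs7 x v y u).symm.trans hX) ((T.xs5 x a y u).symm.trans h1) ((T.xs5 x b y u).symm.trans hn)

/-- (6 points) -/
theorem f_m3 (h : Fr T u v ρ X A) {x y a b : V} (hx : x ∈ X) (hy : y ∈ X) (ha : a ∈ A) (hb : b ∈ A)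
    (hab : a ≠ b) (hyx : ρ y < ρ x) (hX : T.X y v x u = true) (ga : T.X u v x a = true)
    (gb : T.X u v x b = true) (hbe : T.alt x u b a v = true) (h1 : T.X x b y u = true) :
    T.X x a y u = true := by
  obtain ⟨xu, xv⟩ := h.xu x hx
  have lvx := h.min x xu xv
  obtain ⟨yu, yv⟩ := h.xu y hy
  have lvy := h.min y yu yv
  obtain ⟨au, av⟩ := h.au a ha
  have lva := h.min a au av
  obtain ⟨bu, bv⟩ := h.au b hb
  have lvb := h.min b bu bv
  have lxa := h.lt x hx a ha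
  obtain ⟨fxa1, fxa2⟩ := adj_f (h.fan x hx a ha)
  have lxb := h.lt x hx b hb
  obtain ⟨fxb1, fxb2⟩ := adj_f (h.fan x hx b hb)
  have lya := h.lt y hy a ha
  obtain ⟨fya1, fya2⟩ := adj_f (h.fan y hy a ha)
  have lyb := h.lt y hy b hb
  obtain ⟨fyb1, fyb2⟩ := adj_f (h.fan y hy b hb)
  have xa : x ≠ a := fun e => by rw [e] at lxa; exact lt_irrefl _ lxa
  have xb : x ≠ b := fun e => by rw [e] at lxb; exact lt_irrefl _ lxb
  have lyx := hyx
  apply bt
  intro hn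
  rcases lt_trichotomy (ρ a) (ρ b) with lab | t | lba
  · exact q_m3_ab (rot5 h.ord h.ne.symm yu xu au bu lvy lyx lxa lab) (okS2_i (T.ok5 h.ne xu.symm au.symm bu.symm xv.symm av.symm bv.symm xa xb hab) hbe) ga gb fxa1 fxa2 fxb1 fxb2 fya1 fya2 fyb1 fyb2 ((T.xs7 y v x u).symm.trans hX) ((T.xs5 x b y u).symm.trans h1) ((T.xs5 x a y u).symm.trans hn)
  · exact (hab (h.ord.1 a b au bu t)).elim
  · exact q_m3_ba (rot5 h.ord h.ne.symm yu xu bu au lvy lyx lxb lba) (okS3_i (T.ok5 h.ne xu.symm bu.symm au.symm xv.symm bv.symm av.symm xb xa hab.symm) hbe) ga gb fxa1 fxa2 fxb1 fxb2 fya1 fya2 fyb1 fyb2 ((T.xs7 y v x u).symm.trans hX) ((T.xs5 x b y u).symm.trans h1) ((T.xs5 x a y u).symm.trans hn)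

/-- (5 points) opposite order at `u` and `v` -/
theorem f_or_t (h : Fr T u v ρ X A) (h' : Fr T v u ρ' A X) {x a b : V} (hx : x ∈ X)
    (ha : a ∈ A) (hb : b ∈ A) (lab : ρ a < ρ b) (lab' : ρ' a < ρ' b) (k1 : T.X u a v b = false)
    (k2 : T.X u b v a = false) : False := by
  obtain ⟨xu, xv⟩ := h.xu x hx
  have lvx := h.min x xu xv
  obtain ⟨au, av⟩ := h.au a ha
  have lva := h.min a au av
  obtain ⟨bu, bv⟩ := h.au b hb
  have lvb := h.min b bu bv
  have lxa := h.lt x hx a ha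
  obtain ⟨fxa1, fxa2⟩ := adj_f (h.fan x hx a ha)
  have lxb := h.lt x hx b hb
  obtain ⟨fxb1, fxb2⟩ := adj_f (h.fan x hx b hb)
  have xa : x ≠ a := fun e => by rw [e] at lxa; exact lt_irrefl _ lxa
  have xb : x ≠ b := fun e => by rw [e] at lxb; exact lt_irrefl _ lxb
  have hab : a ≠ b := fun e => by rw [e] at lab; exact lt_irrefl _ lab
  have r := rot4 h'.ord h.ne av bv xv (h'.min a av au) lab' (h'.lt b hb x hx)
  have hs : T.alt v u b a x = true := r.2 u a b x (List.Sublist.refl _)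
  exact q_or1 (rot4 h.ord h.ne.symm xu au bu lvx lxa lab) (okV1_i (T.ok5 h.ne xu.symm au.symm bu.symm xv.symm av.symm bv.symm xa xb hab) hs) fxa1 fxa2 fxb1 fxb2 k1 k2

theorem f_or_f1 (h : Fr T u v ρ X A) (h' : Fr T v u ρ' A X) {x a b : V} (hx : x ∈ X)
    (ha : a ∈ A) (hb : b ∈ A) (lab : ρ a < ρ b) (lba' : ρ' b < ρ' a) (k : T.X u a v b = true) : False := by
  obtain ⟨xu, xv⟩ := h.xu x hx
  have lvx := h.min x xu xv
  obtain ⟨au, av⟩ := h.au a ha
  have lva := h.min a au av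
  obtain ⟨bu, bv⟩ := h.au b hb
  have lvb := h.min b bu bv
  have lxa := h.lt x hx a ha
  obtain ⟨fxa1, fxa2⟩ := adj_f (h.fan x hx a ha)
  have lxb := h.lt x hx b hb
  obtain ⟨fxb1, fxb2⟩ := adj_f (h.fan x hx b hb)
  have xa : x ≠ a := fun e => by rw [e] at lxa; exact lt_irrefl _ lxa
  have xb : x ≠ b := fun e => by rw [e] at lxb; exact lt_irrefl _ lxb
  have hab : a ≠ b := fun e => by rw [e] at lab; exact lt_irrefl _ lab
  have r := rot4 h'.ord h.ne bv av xv (h'.min b bv bu) lba' (h'.lt a ha x hx)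
  have hs : T.alt v u a b x = true := r.2 u b a x (List.Sublist.refl _)
  exact q_or2 (rot4 h.ord h.ne.symm xu au bu lvx lxa lab) (okV2_i (T.ok5 h.ne xu.symm au.symm bu.symm xv.symm av.symm bv.symm xa xb hab) hs) fxa1 fxa2 fxb1 fxb2 k

theorem f_or_f2 (h : Fr T u v ρ X A) (h' : Fr T v u ρ' A X) {x a b : V} (hx : x ∈ X)
    (ha : a ∈ A) (hb : b ∈ A) (lab : ρ a < ρ b) (lba' : ρ' b < ρ' a) (k : T.X u b v a = true) : False := by
  obtain ⟨xu, xv⟩ := h.xu x hx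
  have lvx := h.min x xu xv
  obtain ⟨au, av⟩ := h.au a ha
  have lva := h.min a au av
  obtain ⟨bu, bv⟩ := h.au b hb
  have lvb := h.min b bu bv
  have lxa := h.lt x hx a ha
  obtain ⟨fxa1, fxa2⟩ := adj_f (h.fan x hx a ha)
  have lxb := h.lt x hx b hb
  obtain ⟨fxb1, fxb2⟩ := adj_f (h.fan x hx b hb)
  have xa : x ≠ a := fun e => by rw [e] at lxa; exact lt_irrefl _ lxa
  have xb : x ≠ b := fun e => by rw [e] at lxb; exact lt_irrefl _ lxb
  have hab : a ≠ b := fun e => by rw [e] at lab; exact lt_irrefl _ lab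
  have r := rot4 h'.ord h.ne bv av xv (h'.min b bv bu) lba' (h'.lt a ha x hx)
  have hs : T.alt v u a b x = true := r.2 u b a x (List.Sublist.refl _)
  exact q_or3 (rot4 h.ord h.ne.symm xu au bu lvx lxa lab) (okV2_i (T.ok5 h.ne xu.symm au.symm bu.symm xv.symm av.symm bv.symm xa xb hab) hs) fxa1 fxa2 fxb1 fxb2 k

/-- opposite order at `u` and `v`: no crossing of the arcs -/
theorem f_opp (h : Fr T u v ρ X A) (h' : Fr T v u ρ' A X) {x a b : V} (hx : x ∈ X)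
    (ha : a ∈ A) (hb : b ∈ A) (lba' : ρ' b < ρ' a) (k1 : T.X u a v b = false)
    (k2 : T.X u b v a = false) : ρ a < ρ b := by
  rcases lt_trichotomy (ρ a) (ρ b) with t | t | t
  · exact t
  · rw [h.ord.1 a b (h.au a ha).1 (h.au b hb).1 t] at lba'
    exact absurd lba' (lt_irrefl _)
  · exact (f_or_t h h' hx hb ha t lba' k2 k1).elim

/-- same order at `u` and `v`: the arcs cross -/
theorem f_same (h : Fr T u v ρ X A) (h' : Fr T v u ρ' A X) {x a b : V} (hx : x ∈ X)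
    (ha : a ∈ A) (hb : b ∈ A) (lab' : ρ' a < ρ' b)
    (k : T.X u a v b = true ∨ T.X u b v a = true) : ρ a < ρ b := by
  rcases lt_trichotomy (ρ a) (ρ b) with t | t | t
  · exact t
  · rw [h.ord.1 a b (h.au a ha).1 (h.au b hb).1 t] at lab'
    exact absurd lab' (lt_irrefl _)
  · rcases k with k | k
    · exact (f_or_f2 h h' hx hb ha t lab' k).elim
    · exact (f_or_f1 h h' hx hb ha t lab' k).elim

/-- (6 points u v x y a b, 36 cases) THE MAIN FACT: `x` left of `y`, `a` left of `b` (seen from `v`: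
`b` left of `a`) then the edges `xa`, `yb` do not cross. -/
theorem f_cross (h : Fr T u v ρ X A) (h' : Fr T v u ρ' A X) {x y a b : V} (hx : x ∈ X) (hy : y ∈ X)
    (ha : a ∈ A) (hb : b ∈ A) (hxy : x ≠ y) (hab : a ≠ b) (ga : T.X u v x a = true)
    (gb : T.X u v y b = true) (h1 : RL T u v ρ x a y b) (h2 : RL T v u ρ' b y a x) :
    T.X x a y b = false := by
  obtain ⟨xu, xv⟩ := h.xu x hx
  have lvx := h.min x xu xv
  obtain ⟨yu, yv⟩ := h.xu y hy
  have lvy := h.min y yu yv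
  obtain ⟨au, av⟩ := h.au a ha
  have lva := h.min a au av
  obtain ⟨bu, bv⟩ := h.au b hb
  have lvb := h.min b bu bv
  have lxa := h.lt x hx a ha
  obtain ⟨fxa1, fxa2⟩ := adj_f (h.fan x hx a ha)
  have lxb := h.lt x hx b hb
  obtain ⟨fxb1, fxb2⟩ := adj_f (h.fan x hx b hb)
  have lya := h.lt y hy a ha
  obtain ⟨fya1, fya2⟩ := adj_f (h.fan y hy a ha)
  have lyb := h.lt y hy b hb
  obtain ⟨fyb1, fyb2⟩ := adj_f (h.fan y hy b hb)
  apply bf
  intro hr
  rcases h1 with ⟨op, pA, p2⟩ | ⟨op, pA, p2⟩ | ⟨op, p0⟩ | ⟨op, p0, p1, p2⟩ | ⟨op, p0, p1, p2⟩ | ⟨op, p0, p1, p2⟩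
  · have lxy := op
    obtain ⟨p0, p1⟩ := adj_f pA
    rcases h2 with ⟨oq, qA, q2⟩ | ⟨oq, qA, q2⟩ | ⟨oq, q0⟩ | ⟨oq, q0, q1, q2⟩ | ⟨oq, q0, q1, q2⟩ | ⟨oq, q0, q1, q2⟩
    · obtain ⟨qB, qC⟩ := adj_f qA
      have q0 : T.X u a v b = false := (T.xs4 u a v b).trans qB
      have q1 : T.X u b v a = false := (T.xs4 u b v a).trans qC
      have lab := f_opp h h' hx ha hb oq q0 q1
      exact q_x_N1_N1 (rot5 h.ord h.ne.symm xu yu au bu lvx lxy lya lab) ga gb fxa1 fxa2 fxb1 fxb2 fya1 fya2 fyb1 fyb2 p0 p1 ((T.xs5 y b x v).symm.trans p2) q0 q1 ((T.xs7 a x b u).symm.trans q2) hr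
    · obtain ⟨qB, qC⟩ := adj_f qA
      have q0 : T.X u a v b = false := (T.xs4 u a v b).trans qB
      have q1 : T.X u b v a = false := (T.xs4 u b v a).trans qC
      have lba := f_opp h h' hx hb ha oq q1 q0
      exact q_x_N1_N2 (rot5 h.ord h.ne.symm xu yu bu au lvx lxy lyb lba) ga gb fxa1 fxa2 fxb1 fxb2 fya1 fya2 fyb1 fyb2 p0 p1 ((T.xs5 y b x v).symm.trans p2) q0 q1 ((T.xs7 b y a v).symm.trans q2) hr
    · have lab := f_same h h' hx ha hb oq (Or.inr ((T.xs7 a v b u).symm.trans q0))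
      exact q_x_N1_Sa (rot5 h.ord h.ne.symm xu yu au bu lvx lxy lya lab) ga gb fxa1 fxa2 fxb1 fxb2 fya1 fya2 fyb1 fyb2 p0 p1 ((T.xs5 y b x v).symm.trans p2) ((T.xs7 a v b u).symm.trans q0) hr
    · have lba := f_same h h' hx hb ha oq (Or.inl ((T.xs3 b u a v).symm.trans q0))
      exact q_x_N1_Sb0 (rot5 h.ord h.ne.symm xu yu bu au lvx lxy lyb lba) ga gb fxa1 fxa2 fxb1 fxb2 fya1 fya2 fyb1 fyb2 p0 p1 ((T.xs5 y b x v).symm.trans p2) ((T.xs3 b u a v).symm.trans q0) ((T.xs7 b y a v).symm.trans q1) ((T.xs7 a x b v).symm.trans q2) hr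
    · have lab := f_same h h' hx ha hb oq (Or.inl ((T.xs3 a u b v).symm.trans q0))
      exact q_x_N1_Sb20 (rot5 h.ord h.ne.symm xu yu au bu lvx lxy lya lab) ga gb fxa1 fxa2 fxb1 fxb2 fya1 fya2 fyb1 fyb2 p0 p1 ((T.xs5 y b x v).symm.trans p2) ((T.xs3 a u b v).symm.trans q0) ((T.xs7 b y a v).symm.trans q1) ((T.xs7 a x b v).symm.trans q2) hr
    · have lab := f_same h h' hx ha hb oq (Or.inl ((T.xs3 a u b v).symm.trans q0))
      exact q_x_N1_Sb02 (rot5 h.ord h.ne.symm xu yu au bu lvx lxy lya lab) ga gb fxa1 fxa2 fxb1 fxb2 fya1 fya2 fyb1 fyb2 p0 p1 ((T.xs5 y b x v).symm.trans p2) ((T.xs3 a u b v).symm.trans q0) ((T.xs7 b y a v).symm.trans q1) ((T.xs7 a x b v).symm.trans q2) hr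
  · have lyx := op
    obtain ⟨p0, p1⟩ := adj_f pA
    rcases h2 with ⟨oq, qA, q2⟩ | ⟨oq, qA, q2⟩ | ⟨oq, q0⟩ | ⟨oq, q0, q1, q2⟩ | ⟨oq, q0, q1, q2⟩ | ⟨oq, q0, q1, q2⟩
    · obtain ⟨qB, qC⟩ := adj_f qA
      have q0 : T.X u a v b = false := (T.xs4 u a v b).trans qB
      have q1 : T.X u b v a = false := (T.xs4 u b v a).trans qC
      have lab := f_opp h h' hx ha hb oq q0 q1
      exact q_x_N2_N1 (rot5 h.ord h.ne.symm yu xu au bu lvy lyx lxa lab) ga gb fxa1 fxa2 fxb1 fxb2 fya1 fya2 fyb1 fyb2 p0 p1 ((T.xs5 x a y u).symm.trans p2) q0 q1 ((T.xs7 a x b u).symm.trans q2) ((T.xs4 x a y b).symm.trans hr)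
    · obtain ⟨qB, qC⟩ := adj_f qA
      have q0 : T.X u a v b = false := (T.xs4 u a v b).trans qB
      have q1 : T.X u b v a = false := (T.xs4 u b v a).trans qC
      have lba := f_opp h h' hx hb ha oq q1 q0
      exact q_x_N2_N2 (rot5 h.ord h.ne.symm yu xu bu au lvy lyx lxb lba) ga gb fxa1 fxa2 fxb1 fxb2 fya1 fya2 fyb1 fyb2 p0 p1 ((T.xs5 x a y u).symm.trans p2) q0 q1 ((T.xs7 b y a v).symm.trans q2) ((T.xs4 x a y b).symm.trans hr)
    · have lab := f_same h h' hx ha hb oq (Or.inr ((T.xs7 a v b u).symm.trans q0))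
      exact q_x_N2_Sa (rot5 h.ord h.ne.symm yu xu au bu lvy lyx lxa lab) ga gb fxa1 fxa2 fxb1 fxb2 fya1 fya2 fyb1 fyb2 p0 p1 ((T.xs5 x a y u).symm.trans p2) ((T.xs7 a v b u).symm.trans q0) ((T.xs4 x a y b).symm.trans hr)
    · have lba := f_same h h' hx hb ha oq (Or.inl ((T.xs3 b u a v).symm.trans q0))
      exact q_x_N2_Sb0 (rot5 h.ord h.ne.symm yu xu bu au lvy lyx lxb lba) ga gb fxa1 fxa2 fxb1 fxb2 fya1 fya2 fyb1 fyb2 p0 p1 ((T.xs5 x a y u).symm.trans p2) ((T.xs3 b u a v).symm.trans q0) ((T.xs7 b y a v).symm.trans q1) ((T.xs7 a x b v).symm.trans q2) ((T.xs4 x a y b).symm.trans hr)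
    · have lab := f_same h h' hx ha hb oq (Or.inl ((T.xs3 a u b v).symm.trans q0))
      exact q_x_N2_Sb20 (rot5 h.ord h.ne.symm yu xu au bu lvy lyx lxa lab) ga gb fxa1 fxa2 fxb1 fxb2 fya1 fya2 fyb1 fyb2 p0 p1 ((T.xs5 x a y u).symm.trans p2) ((T.xs3 a u b v).symm.trans q0) ((T.xs7 b y a v).symm.trans q1) ((T.xs7 a x b v).symm.trans q2) ((T.xs4 x a y b).symm.trans hr)
    · have lab := f_same h h' hx ha hb oq (Or.inl ((T.xs3 a u b v).symm.trans q0))
      exact q_x_N2_Sb02 (rot5 h.ord h.ne.symm yu xu au bu lvy lyx lxa lab) ga gb fxa1 fxa2 fxb1 fxb2 fya1 fya2 fyb1 fyb2 p0 p1 ((T.xs5 x a y u).symm.trans p2) ((T.xs3 a u b v).symm.trans q0) ((T.xs7 b y a v).symm.trans q1) ((T.xs7 a x b v).symm.trans q2) ((T.xs4 x a y b).symm.trans hr)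
  · have lyx := op
    rcases h2 with ⟨oq, qA, q2⟩ | ⟨oq, qA, q2⟩ | ⟨oq, q0⟩ | ⟨oq, q0, q1, q2⟩ | ⟨oq, q0, q1, q2⟩ | ⟨oq, q0, q1, q2⟩
    · obtain ⟨qB, qC⟩ := adj_f qA
      have q0 : T.X u a v b = false := (T.xs4 u a v b).trans qB
      have q1 : T.X u b v a = false := (T.xs4 u b v a).trans qC
      have lab := f_opp h h' hx ha hb oq q0 q1
      exact q_x_Sa_N1 (rot5 h.ord h.ne.symm yu xu au bu lvy lyx lxa lab) ga gb fxa1 fxa2 fxb1 fxb2 fya1 fya2 fyb1 fyb2 ((T.xs3 y u x v).symm.trans p0) q0 q1 ((T.xs7 a x b u).symm.trans q2) ((T.xs4 x a y b).symm.trans hr)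
    · obtain ⟨qB, qC⟩ := adj_f qA
      have q0 : T.X u a v b = false := (T.xs4 u a v b).trans qB
      have q1 : T.X u b v a = false := (T.xs4 u b v a).trans qC
      have lba := f_opp h h' hx hb ha oq q1 q0
      exact q_x_Sa_N2 (rot5 h.ord h.ne.symm yu xu bu au lvy lyx lxb lba) ga gb fxa1 fxa2 fxb1 fxb2 fya1 fya2 fyb1 fyb2 ((T.xs3 y u x v).symm.trans p0) q0 q1 ((T.xs7 b y a v).symm.trans q2) ((T.xs4 x a y b).symm.trans hr)
    · have lab := f_same h h' hx ha hb oq (Or.inr ((T.xs7 a v b u).symm.trans q0))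
      exact q_x_Sa_Sa (rot5 h.ord h.ne.symm yu xu au bu lvy lyx lxa lab) ga gb fxa1 fxa2 fxb1 fxb2 fya1 fya2 fyb1 fyb2 ((T.xs3 y u x v).symm.trans p0) ((T.xs7 a v b u).symm.trans q0) ((T.xs4 x a y b).symm.trans hr)
    · have lba := f_same h h' hx hb ha oq (Or.inl ((T.xs3 b u a v).symm.trans q0))
      exact q_x_Sa_Sb0 (rot5 h.ord h.ne.symm yu xu bu au lvy lyx lxb lba) ga gb fxa1 fxa2 fxb1 fxb2 fya1 fya2 fyb1 fyb2 ((T.xs3 y u x v).symm.trans p0) ((T.xs3 b u a v).symm.trans q0) ((T.xs7 b y a v).symm.trans q1) ((T.xs7 a x b v).symm.trans q2) ((T.xs4 x a y b).symm.trans hr)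
    · have lab := f_same h h' hx ha hb oq (Or.inl ((T.xs3 a u b v).symm.trans q0))
      exact q_x_Sa_Sb20 (rot5 h.ord h.ne.symm yu xu au bu lvy lyx lxa lab) ga gb fxa1 fxa2 fxb1 fxb2 fya1 fya2 fyb1 fyb2 ((T.xs3 y u x v).symm.trans p0) ((T.xs3 a u b v).symm.trans q0) ((T.xs7 b y a v).symm.trans q1) ((T.xs7 a x b v).symm.trans q2) ((T.xs4 x a y b).symm.trans hr)
    · have lab := f_same h h' hx ha hb oq (Or.inl ((T.xs3 a u b v).symm.trans q0))
      exact q_x_Sa_Sb02 (rot5 h.ord h.ne.symm yu xu au bu lvy lyx lxa lab) ga gb fxa1 fxa2 fxb1 fxb2 fya1 fya2 fyb1 fyb2 ((T.xs3 y u x v).symm.trans p0) ((T.xs3 a u b v).symm.trans q0) ((T.xs7 b y a v).symm.trans q1) ((T.xs7 a x b v).symm.trans q2) ((T.xs4 x a y b).symm.trans hr)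
  · have lxy := op
    rcases h2 with ⟨oq, qA, q2⟩ | ⟨oq, qA, q2⟩ | ⟨oq, q0⟩ | ⟨oq, q0, q1, q2⟩ | ⟨oq, q0, q1, q2⟩ | ⟨oq, q0, q1, q2⟩
    · obtain ⟨qB, qC⟩ := adj_f qA
      have q0 : T.X u a v b = false := (T.xs4 u a v b).trans qB
      have q1 : T.X u b v a = false := (T.xs4 u b v a).trans qC
      have lab := f_opp h h' hx ha hb oq q0 q1
      exact q_x_Sb0_N1 (rot5 h.ord h.ne.symm xu yu au bu lvx lxy lya lab) ga gb fxa1 fxa2 fxb1 fxb2 fya1 fya2 fyb1 fyb2 ((T.xs7 x v y u).symm.trans p0) ((T.xs5 x a y u).symm.trans p1) ((T.xs5 y b x u).symm.trans p2) q0 q1 ((T.xs7 a x b u).symm.trans q2) hr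
    · obtain ⟨qB, qC⟩ := adj_f qA
      have q0 : T.X u a v b = false := (T.xs4 u a v b).trans qB
      have q1 : T.X u b v a = false := (T.xs4 u b v a).trans qC
      have lba := f_opp h h' hx hb ha oq q1 q0
      exact q_x_Sb0_N2 (rot5 h.ord h.ne.symm xu yu bu au lvx lxy lyb lba) ga gb fxa1 fxa2 fxb1 fxb2 fya1 fya2 fyb1 fyb2 ((T.xs7 x v y u).symm.trans p0) ((T.xs5 x a y u).symm.trans p1) ((T.xs5 y b x u).symm.trans p2) q0 q1 ((T.xs7 b y a v).symm.trans q2) hr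
    · have lab := f_same h h' hx ha hb oq (Or.inr ((T.xs7 a v b u).symm.trans q0))
      exact q_x_Sb0_Sa (rot5 h.ord h.ne.symm xu yu au bu lvx lxy lya lab) ga gb fxa1 fxa2 fxb1 fxb2 fya1 fya2 fyb1 fyb2 ((T.xs7 x v y u).symm.trans p0) ((T.xs5 x a y u).symm.trans p1) ((T.xs5 y b x u).symm.trans p2) ((T.xs7 a v b u).symm.trans q0) hr
    · have lba := f_same h h' hx hb ha oq (Or.inl ((T.xs3 b u a v).symm.trans q0))
      exact q_x_Sb0_Sb0 (rot5 h.ord h.ne.symm xu yu bu au lvx lxy lyb lba) ga gb fxa1 fxa2 fxb1 fxb2 fya1 fya2 fyb1 fyb2 ((T.xs7 x v y u).symm.trans p0) ((T.xs5 x a y u).symm.trans p1) ((T.xs5 y b x u).symm.trans p2) ((T.xs3 b u a v).symm.trans q0) ((T.xs7 b y a v).symm.trans q1) ((T.xs7 a x b v).symm.trans q2) hr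
    · have lab := f_same h h' hx ha hb oq (Or.inl ((T.xs3 a u b v).symm.trans q0))
      exact q_x_Sb0_Sb20 (rot5 h.ord h.ne.symm xu yu au bu lvx lxy lya lab) ga gb fxa1 fxa2 fxb1 fxb2 fya1 fya2 fyb1 fyb2 ((T.xs7 x v y u).symm.trans p0) ((T.xs5 x a y u).symm.trans p1) ((T.xs5 y b x u).symm.trans p2) ((T.xs3 a u b v).symm.trans q0) ((T.xs7 b y a v).symm.trans q1) ((T.xs7 a x b v).symm.trans q2) hr
    · have lab := f_same h h' hx ha hb oq (Or.inl ((T.xs3 a u b v).symm.trans q0))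
      exact q_x_Sb0_Sb02 (rot5 h.ord h.ne.symm xu yu au bu lvx lxy lya lab) ga gb fxa1 fxa2 fxb1 fxb2 fya1 fya2 fyb1 fyb2 ((T.xs7 x v y u).symm.trans p0) ((T.xs5 x a y u).symm.trans p1) ((T.xs5 y b x u).symm.trans p2) ((T.xs3 a u b v).symm.trans q0) ((T.xs7 b y a v).symm.trans q1) ((T.xs7 a x b v).symm.trans q2) hr
  · have lyx := op
    rcases h2 with ⟨oq, qA, q2⟩ | ⟨oq, qA, q2⟩ | ⟨oq, q0⟩ | ⟨oq, q0, q1, q2⟩ | ⟨oq, q0, q1, q2⟩ | ⟨oq, q0, q1, q2⟩
    · obtain ⟨qB, qC⟩ := adj_f qA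
      have q0 : T.X u a v b = false := (T.xs4 u a v b).trans qB
      have q1 : T.X u b v a = false := (T.xs4 u b v a).trans qC
      have lab := f_opp h h' hx ha hb oq q0 q1
      exact q_x_Sb20_N1 (rot5 h.ord h.ne.symm yu xu au bu lvy lyx lxa lab) ga gb fxa1 fxa2 fxb1 fxb2 fya1 fya2 fyb1 fyb2 ((T.xs7 y v x u).symm.trans p0) ((T.xs5 x a y u).symm.trans p1) ((T.xs5 y b x u).symm.trans p2) q0 q1 ((T.xs7 a x b u).symm.trans q2) ((T.xs4 x a y b).symm.trans hr)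
    · obtain ⟨qB, qC⟩ := adj_f qA
      have q0 : T.X u a v b = false := (T.xs4 u a v b).trans qB
      have q1 : T.X u b v a = false := (T.xs4 u b v a).trans qC
      have lba := f_opp h h' hx hb ha oq q1 q0
      exact q_x_Sb20_N2 (rot5 h.ord h.ne.symm yu xu bu au lvy lyx lxb lba) ga gb fxa1 fxa2 fxb1 fxb2 fya1 fya2 fyb1 fyb2 ((T.xs7 y v x u).symm.trans p0) ((T.xs5 x a y u).symm.trans p1) ((T.xs5 y b x u).symm.trans p2) q0 q1 ((T.xs7 b y a v).symm.trans q2) ((T.xs4 x a y b).symm.trans hr)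
    · have lab := f_same h h' hx ha hb oq (Or.inr ((T.xs7 a v b u).symm.trans q0))
      exact q_x_Sb20_Sa (rot5 h.ord h.ne.symm yu xu au bu lvy lyx lxa lab) ga gb fxa1 fxa2 fxb1 fxb2 fya1 fya2 fyb1 fyb2 ((T.xs7 y v x u).symm.trans p0) ((T.xs5 x a y u).symm.trans p1) ((T.xs5 y b x u).symm.trans p2) ((T.xs7 a v b u).symm.trans q0) ((T.xs4 x a y b).symm.trans hr)
    · have lba := f_same h h' hx hb ha oq (Or.inl ((T.xs3 b u a v).symm.trans q0))
      exact q_x_Sb20_Sb0 (rot5 h.ord h.ne.symm yu xu bu au lvy lyx lxb lba) ga gb fxa1 fxa2 fxb1 fxb2 fya1 fya2 fyb1 fyb2 ((T.xs7 y v x u).symm.trans p0) ((T.xs5 x a y u).symm.trans p1) ((T.xs5 y b x u).symm.trans p2) ((T.xs3 b u a v).symm.trans q0) ((T.xs7 b y a v).symm.trans q1) ((T.xs7 a x b v).symm.trans q2) ((T.xs4 x a y b).symm.trans hr)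
    · have lab := f_same h h' hx ha hb oq (Or.inl ((T.xs3 a u b v).symm.trans q0))
      exact q_x_Sb20_Sb20 (rot5 h.ord h.ne.symm yu xu au bu lvy lyx lxa lab) ga gb fxa1 fxa2 fxb1 fxb2 fya1 fya2 fyb1 fyb2 ((T.xs7 y v x u).symm.trans p0) ((T.xs5 x a y u).symm.trans p1) ((T.xs5 y b x u).symm.trans p2) ((T.xs3 a u b v).symm.trans q0) ((T.xs7 b y a v).symm.trans q1) ((T.xs7 a x b v).symm.trans q2) ((T.xs4 x a y b).symm.trans hr)
    · have lab := f_same h h' hx ha hb oq (Or.inl ((T.xs3 a u b v).symm.trans q0))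
      exact q_x_Sb20_Sb02 (rot5 h.ord h.ne.symm yu xu au bu lvy lyx lxa lab) ga gb fxa1 fxa2 fxb1 fxb2 fya1 fya2 fyb1 fyb2 ((T.xs7 y v x u).symm.trans p0) ((T.xs5 x a y u).symm.trans p1) ((T.xs5 y b x u).symm.trans p2) ((T.xs3 a u b v).symm.trans q0) ((T.xs7 b y a v).symm.trans q1) ((T.xs7 a x b v).symm.trans q2) ((T.xs4 x a y b).symm.trans hr)
  · have lyx := op
    rcases h2 with ⟨oq, qA, q2⟩ | ⟨oq, qA, q2⟩ | ⟨oq, q0⟩ | ⟨oq, q0, q1, q2⟩ | ⟨oq, q0, q1, q2⟩ | ⟨oq, q0, q1, q2⟩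
    · obtain ⟨qB, qC⟩ := adj_f qA
      have q0 : T.X u a v b = false := (T.xs4 u a v b).trans qB
      have q1 : T.X u b v a = false := (T.xs4 u b v a).trans qC
      have lab := f_opp h h' hx ha hb oq q0 q1
      exact q_x_Sb02_N1 (rot5 h.ord h.ne.symm yu xu au bu lvy lyx lxa lab) ga gb fxa1 fxa2 fxb1 fxb2 fya1 fya2 fyb1 fyb2 ((T.xs7 y v x u).symm.trans p0) ((T.xs5 x a y u).symm.trans p1) ((T.xs5 y b x u).symm.trans p2) q0 q1 ((T.xs7 a x b u).symm.trans q2) ((T.xs4 x a y b).symm.trans hr)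
    · obtain ⟨qB, qC⟩ := adj_f qA
      have q0 : T.X u a v b = false := (T.xs4 u a v b).trans qB
      have q1 : T.X u b v a = false := (T.xs4 u b v a).trans qC
      have lba := f_opp h h' hx hb ha oq q1 q0
      exact q_x_Sb02_N2 (rot5 h.ord h.ne.symm yu xu bu au lvy lyx lxb lba) ga gb fxa1 fxa2 fxb1 fxb2 fya1 fya2 fyb1 fyb2 ((T.xs7 y v x u).symm.trans p0) ((T.xs5 x a y u).symm.trans p1) ((T.xs5 y b x u).symm.trans p2) q0 q1 ((T.xs7 b y a v).symm.trans q2) ((T.xs4 x a y b).symm.trans hr)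
    · have lab := f_same h h' hx ha hb oq (Or.inr ((T.xs7 a v b u).symm.trans q0))
      exact q_x_Sb02_Sa (rot5 h.ord h.ne.symm yu xu au bu lvy lyx lxa lab) ga gb fxa1 fxa2 fxb1 fxb2 fya1 fya2 fyb1 fyb2 ((T.xs7 y v x u).symm.trans p0) ((T.xs5 x a y u).symm.trans p1) ((T.xs5 y b x u).symm.trans p2) ((T.xs7 a v b u).symm.trans q0) ((T.xs4 x a y b).symm.trans hr)
    · have lba := f_same h h' hx hb ha oq (Or.inl ((T.xs3 b u a v).symm.trans q0))
      exact q_x_Sb02_Sb0 (rot5 h.ord h.ne.symm yu xu bu au lvy lyx lxb lba) ga gb fxa1 fxa2 fxb1 fxb2 fya1 fya2 fyb1 fyb2 ((T.xs7 y v x u).symm.trans p0) ((T.xs5 x a y u).symm.trans p1) ((T.xs5 y b x u).symm.trans p2) ((T.xs3 b u a v).symm.trans q0) ((T.xs7 b y a v).symm.trans q1) ((T.xs7 a x b v).symm.trans q2) ((T.xs4 x a y b).symm.trans hr)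
    · have lab := f_same h h' hx ha hb oq (Or.inl ((T.xs3 a u b v).symm.trans q0))
      exact q_x_Sb02_Sb20 (rot5 h.ord h.ne.symm yu xu au bu lvy lyx lxa lab) ga gb fxa1 fxa2 fxb1 fxb2 fya1 fya2 fyb1 fyb2 ((T.xs7 y v x u).symm.trans p0) ((T.xs5 x a y u).symm.trans p1) ((T.xs5 y b x u).symm.trans p2) ((T.xs3 a u b v).symm.trans q0) ((T.xs7 b y a v).symm.trans q1) ((T.xs7 a x b v).symm.trans q2) ((T.xs4 x a y b).symm.trans hr)
    · have lab := f_same h h' hx ha hb oq (Or.inl ((T.xs3 a u b v).symm.trans q0))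
      exact q_x_Sb02_Sb02 (rot5 h.ord h.ne.symm yu xu au bu lvy lyx lxa lab) ga gb fxa1 fxa2 fxb1 fxb2 fya1 fya2 fyb1 fyb2 ((T.xs7 y v x u).symm.trans p0) ((T.xs5 x a y u).symm.trans p1) ((T.xs5 y b x u).symm.trans p2) ((T.xs3 a u b v).symm.trans q0) ((T.xs7 b y a v).symm.trans q1) ((T.xs7 a x b v).symm.trans q2) ((T.xs4 x a y b).symm.trans hr)

theorem b_five : ∀ b0 b1 b2 b3 b4 b5 b6 b7 b8 b9 b10 b11 b12 b13 b14 : Bool,
    ok5 b0 b1 b2 b3 b4 b5 b6 b7 b8 b9 b10 b11 b12 b13 b14 = true →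
    (b0 || b1 || b2 || (b3 || b4 || b5) || (b6 || b7 || b8) || (b9 || b10 || b11) || (b12 || b13 || b14)) = true := by
  decide +kernel

/-- (5 points) five points span a crossing -/
theorem f_five {a b c d e : V} (hn : [a, b, c, d, e].Nodup) :
    (T.X a b c d || T.X a c b d || T.X a d b c || (T.X a b c e || T.X a c b e || T.X a e b c) ||
      (T.X a b d e || T.X a d b e || T.X a e b d) || (T.X a c d e || T.X a d c e || T.X a e c d) ||
      (T.X b c d e || T.X b d c e || T.X b e c d)) = true := by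
  simp only [List.nodup_cons, List.mem_cons, List.not_mem_nil, not_or, or_false, not_false_iff,
    List.nodup_nil, and_true] at hn
  obtain ⟨⟨a1, a2, a3, a4⟩, ⟨a5, a6, a7⟩, ⟨a8, a9⟩, a10⟩ := hn
  have h := T.ok5 a1 a2 a3 a4 a5 a6 a7 a8 a9 a10
  exact b_five _ _ _ _ _ _ _ _ _ _ _ _ _ _ _ h

end H38Q
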