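import Pool.Agent.Lib.H38Q.F

/-! # H38Q, chunk G1 (M): the order of the edges at `x` -/

open H53P

namespace H38Q

variable {V : Type*} {T : Table V} {u v : V} {ρ : V → ℝ} {X A : Finset V}

/-- (G1a, M) PROOF. `x ≠ u`, `x ≠ v` (`h.xu`), every `a ∈ A` with `T.X u v x a = true` is different from `u, v, x` (`T.ne`). Let `σ` be the rotation at `x` with `u` first (`T.ord_exists`, `x ≠ u`):
`T.Ord x σ`, `σ u < σ z` for `z ≠ x, u`. For such `p, q` different from `x, u` : `btw (σ u) (σ q) (σ p) = decide (σ p < σ q)` (`H53P.cc3_btw`).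
`f_sep` and `T.Ord x σ`: `T.alt x u v a b = btw (σ u) (σ v) (σ a) ^^ btw (σ u) (σ v) (σ b) = false`, so `σ a < σ v ↔ σ b < σ v` for all crossing `a, b`: either all are before `v` or all after `v`
(case on whether there is a crossing `a` with `σ a < σ v`). First case: `τ = σ`: for `σ a < σ b < σ v`: `T.alt x u b a v = decide (σ a < σ b) ^^ decide (σ v < σ b) = true`.
Second case (`σ v < σ a, σ b`): `τ = - σ`: if `σ b < σ a` then `decide (σ a < σ b) = false`, `decide (σ v < σ b) = true`. -/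
theorem star_order (h : Fr T u v ρ X A) {x : V} (hx : x ∈ X) : ∃ τ : V → ℝ,
    (∀ a ∈ A, ∀ b ∈ A, T.X u v x a = true → T.X u v x b = true → τ a = τ b → a = b) ∧
    ∀ a ∈ A, ∀ b ∈ A, T.X u v x a = true → T.X u v x b = true → τ a < τ b →
      T.alt x u b a v = true := by
  classical
  have hxu := (h.xu x hx).1
  have hxv := (h.xu x hx).2
  obtain ⟨σ, ⟨hσ1, hσ2⟩, hσ3⟩ := T.ord_exists hxu
  have hv : σ u < σ v := hσ3 v hxv.symm h.ne.symm
  -- data of a crossing point
  have hc : ∀ a, T.X u v x a = true → a ≠ x ∧ a ≠ u ∧ a ≠ v ∧ σ u < σ a := by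
    intro a ha
    obtain ⟨-, h2, -, h4, -, h6⟩ := T.ne u v x a ha
    exact ⟨h2.symm, h4.symm, h6.symm, hσ3 a h2.symm h4.symm⟩
  have hsep : ∀ a ∈ A, ∀ b ∈ A, T.X u v x a = true → T.X u v x b = true → σ a < σ v →
      σ b < σ v := by
    intro a ha b hb ga gb hav
    by_cases hab : a = b
    · rw [← hab]; exact hav
    · have h1 := f_sep h hx ha hb hab ga gb
      obtain ⟨a1, a2, a3, a4⟩ := hc a ga
      obtain ⟨b1, b2, b3, b4⟩ := hc b gb
      rw [hσ2 u v a b hxu.symm hxv.symm a1 b1 h.ne a2.symm b2.symm a3.symm b3.symm hab,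
        cc3_btw hv a4, cc3_btw hv b4] at h1
      by_contra hn
      simp [hav, hn] at h1
  have hdich : (∀ a ∈ A, T.X u v x a = true → σ a < σ v) ∨
      (∀ a ∈ A, T.X u v x a = true → σ v < σ a) := by
    by_cases hex : ∃ a ∈ A, T.X u v x a = true ∧ σ a < σ v
    · left
      obtain ⟨a, ha, ga, hav⟩ := hex
      exact fun b hb gb => hsep a ha b hb ga gb hav
    · right
      intro a ha ga
      obtain ⟨a1, a2, a3, a4⟩ := hc a ga
      rcases lt_trichotomy (σ a) (σ v) with h1 | h1 | h1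
      · exact absurd ⟨a, ha, ga, h1⟩ hex
      · exact absurd (hσ1 a v a1 hxv.symm h1) a3
      · exact h1
  have halt : ∀ a b, a ≠ b → T.X u v x a = true → T.X u v x b = true →
      T.alt x u b a v = (decide (σ a < σ b) ^^ decide (σ v < σ b)) := by
    intro a b hab ga gb
    obtain ⟨a1, a2, a3, a4⟩ := hc a ga
    obtain ⟨b1, b2, b3, b4⟩ := hc b gb
    rw [hσ2 u b a v hxu.symm b1 a1 hxv.symm b2.symm a2.symm h.ne (fun e => hab e.symm) b3 a3,
      cc3_btw b4 a4, cc3_btw b4 hv]
  rcases hdich with hd | hd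
  · refine ⟨σ, fun a _ b _ ga gb e => hσ1 a b (hc a ga).1 (hc b gb).1 e, ?_⟩
    intro a ha b hb ga gb hlt
    have hab : a ≠ b := fun e => by rw [e] at hlt; exact lt_irrefl _ hlt
    rw [halt a b hab ga gb]
    have h1 := hd b hb gb
    simp [hlt, h1.le]
  · refine ⟨fun z => - σ z, fun a _ b _ ga gb e => hσ1 a b (hc a ga).1 (hc b gb).1 (neg_injective e), ?_⟩
    intro a ha b hb ga gb hlt
    have hlt' : σ b < σ a := neg_lt_neg_iff.1 hlt
    have hab : a ≠ b := fun e => by rw [e] at hlt'; exact lt_irrefl _ hlt'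
    rw [halt a b hab ga gb]
    have h1 := hd b hb gb
    simp [hlt'.le, h1]

/-- (G1b, S/M) PROOF. `τ` of `star_order`. For the four rules: if `a = b` nothing to prove, otherwise `τ a < τ b` (`inj`), so `T.alt x u b a v = true` and `f_m1`, `f_m1'`, `f_m2`, `f_m3`. -/
theorem star_exists (h : Fr T u v ρ X A) {x : V} (hx : x ∈ X) : ∃ τ, Star T u v ρ X A x τ := by
  obtain ⟨τ, h1, h2⟩ := star_order h hx
  refine ⟨τ, ⟨h1, ?_, ?_, ?_, ?_⟩⟩
  · intro y hy a ha b hb hyx hadj ga gb hle hb1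
    rcases hle.eq_or_lt with he | hl
    · rw [h1 a ha b hb ga gb he]; exact hb1
    · have hab : a ≠ b := fun e => by rw [e] at hl; exact lt_irrefl _ hl
      exact f_m1 h hx hy ha hb hab hyx hadj ga gb (h2 a ha b hb ga gb hl) hb1
  · intro y hy a ha b hb hyx hadj ga gb hle hb1
    rcases hle.eq_or_lt with he | hl
    · rw [← h1 a ha b hb ga gb he]; exact hb1
    · have hab : a ≠ b := fun e => by rw [e] at hl; exact lt_irrefl _ hl
      exact f_m1' h hx hy ha hb hab hyx hadj ga gb (h2 a ha b hb ga gb hl) hb1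
  · intro y hy a ha b hb hyx hX ga gb hle hb1
    rcases hle.eq_or_lt with he | hl
    · rw [← h1 a ha b hb ga gb he]; exact hb1
    · have hab : a ≠ b := fun e => by rw [e] at hl; exact lt_irrefl _ hl
      exact f_m2 h hx hy ha hb hab hyx hX ga gb (h2 a ha b hb ga gb hl) hb1
  · intro y hy a ha b hb hyx hX ga gb hle hb1
    rcases hle.eq_or_lt with he | hl
    · rw [h1 a ha b hb ga gb he]; exact hb1
    · have hab : a ≠ b := fun e => by rw [e] at hl; exact lt_irrefl _ hl
      exact f_m3 h hx hy ha hb hab hyx hX ga gb (h2 a ha b hb ga gb hl) hb1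

end H38Q
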