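import Pool.Agent.Lib.H38Q.F

/-! # H38Q, chunk G2 (M): the classes and the order of the edges -/

open H53P

namespace H38Q

variable {V : Type*} {T : Table V} {u v : V} {ρ : V → ℝ} {X A : Finset V}

theorem g2_adj (a w x y : V) : T.adj a w x y = T.adj a w y x := by
  unfold Table.adj
  exact Bool.or_comm _ _

theorem g2_ne {b1 : Bool} (h : b1 = true → False) : b1 = false := by
  cases b1
  · rfl
  · exact absurd rfl h

/-- (G2a, S) the class `al` goes up. PROOF. Unfold `al`. `N1` (`ρ x < ρ y`): `m1'` of `Star y` (inner point `x`). `Sa`: nothing to do. `Sb02` (`ρ y < ρ x`, `T.X y v x u = true`): `T.X x c y u = false` goes up by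
`m3` of `Star x` (contraposition), `T.X y c x u = true` goes up by `m2` of `Star y`. -/
theorem al_up {x y c a b : V} {τ τ' : V → ℝ} (sx : Star T u v ρ X A x τ)
    (sy : Star T u v ρ X A y τ') (hx : x ∈ X) (hy : y ∈ X) (hc : c ∈ A) (ha : a ∈ A) (hb : b ∈ A)
    (gx : T.X u v x c = true) (gy : T.X u v y c = true) (ga : T.X u v x a = true)
    (gb : T.X u v y b = true) (h : al T u v ρ c x y) (h1 : τ c ≤ τ a) (h2 : τ' c ≤ τ' b) :
    N1 T u v ρ x y b ∨ Sa T u v ρ x y ∨ Sb02 T u v ρ x a y b := by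
  rcases h with h | h | h
  · left
    obtain ⟨h3, h4, h5⟩ := h
    exact ⟨h3, h4, sy.m1' x hx c hc b hb h3 (by rw [g2_adj]; exact h4) gy gb h2 h5⟩
  · exact Or.inr (Or.inl h)
  · right
    right
    obtain ⟨h3, h4, h5, h6⟩ := h
    refine ⟨h3, h4, g2_ne fun h7 => ?_, sy.m2 x hx c hc b hb h3 h4 gy gb h2 h6⟩
    have h8 := sx.m3 y hy c hc a ha h3 h4 gx ga h1 h7
    rw [h5] at h8
    exact Bool.noConfusion h8

/-- (G2b, S) the class `be` goes down. PROOF. `N2` (`ρ y < ρ x`): `m1` of `Star x`. `Sa`: nothing. `Sb20` (`ρ y < ρ x`, `T.X y v x u = true`): `T.X x c y u = true` goes down by `m3` of `Star x`, `T.X y c x u = false` goes down by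
`m2` of `Star y` (contraposition). -/
theorem be_down {x y c a b : V} {τ τ' : V → ℝ} (sx : Star T u v ρ X A x τ)
    (sy : Star T u v ρ X A y τ') (hx : x ∈ X) (hy : y ∈ X) (hc : c ∈ A) (ha : a ∈ A) (hb : b ∈ A)
    (gx : T.X u v x c = true) (gy : T.X u v y c = true) (ga : T.X u v x a = true)
    (gb : T.X u v y b = true) (h : be T u v ρ c x y) (h1 : τ a ≤ τ c) (h2 : τ' b ≤ τ' c) :
    N2 T u v ρ x a y ∨ Sa T u v ρ x y ∨ Sb20 T u v ρ x a y b := by
  rcases h with h | h | h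
  · left
    obtain ⟨h3, h4, h5⟩ := h
    exact ⟨h3, h4, sx.m1 y hy a ha c hc h3 h4 ga gx h1 h5⟩
  · exact Or.inr (Or.inl h)
  · right
    right
    obtain ⟨h3, h4, h5, h6⟩ := h
    refine ⟨h3, h4, sx.m3 y hy a ha c hc h3 h4 ga gx h1 h5, g2_ne fun h7 => ?_⟩
    have h8 := sy.m2 x hx b hb c hc h3 h4 gb gy h2 h7
    rw [h6] at h8
    exact Bool.noConfusion h8

/-- (G2c, S) the class `ga` at two columns `c` (before) and `c'` (after). PROOF. `Sb0` at `c` and `c'` (`ρ x < ρ y`, `T.X x v y u = true`): `T.X x a y u = false` by `m2` of `Star x` (otherwise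
`T.X x c' y u = true`), `T.X y b x u = false` by `m3` of `Star y` (otherwise `T.X y c x u = true`). -/
theorem ga_mid {x y c c' a b : V} {τ τ' : V → ℝ} (sx : Star T u v ρ X A x τ)
    (sy : Star T u v ρ X A y τ') (hx : x ∈ X) (hy : y ∈ X) (hc : c ∈ A) (hc' : c' ∈ A) (ha : a ∈ A)
    (hb : b ∈ A) (gx' : T.X u v x c' = true) (gy : T.X u v y c = true)
    (ga1 : T.X u v x a = true) (gb : T.X u v y b = true) (h : ga T u v ρ c x y)
    (h' : ga T u v ρ c' x y) (h1 : τ a ≤ τ c') (h2 : τ' c ≤ τ' b) : Sb0 T u v ρ x a y b := by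
  obtain ⟨h3, h4, h5, h6⟩ := h
  obtain ⟨_, _, h5', _⟩ := h'
  refine ⟨h3, h4, g2_ne fun h7 => ?_, g2_ne fun h7 => ?_⟩
  · have h8 := sx.m2 y hy a ha c' hc' h3 h4 ga1 gx' h1 h7
    rw [h5'] at h8
    exact Bool.noConfusion h8
  · have h8 := sy.m3 x hx c hc b hb h3 h4 gy gb h2 h7
    rw [h6] at h8
    exact Bool.noConfusion h8

/-- (G2d, S/M) PROOF. `f_total` at `c` and at `c'`. `be c`: done. `al c x y`: `al c' x y` by `al_up` (`a = b = c'`), the same for `y x`. `ga c x y`: at `c'`: `al c'`: done; `be c' x y` gives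
`be c x y` by `be_down` (`a = b = c`), the same for `y x`; `ga c' x y`: done; `ga c' y x` contradicts `ρ x < ρ y`. `ga c y x`: the same. -/
theorem comp_frame (h : Fr T u v ρ X A) {x y c c' : V} {τ τ' : V → ℝ} (sx : Star T u v ρ X A x τ)
    (sy : Star T u v ρ X A y τ') (hx : x ∈ X) (hy : y ∈ X) (hc : c ∈ A) (hc' : c' ∈ A)
    (hxy : x ≠ y) (gx : T.X u v x c = true) (gy : T.X u v y c = true) (gx' : T.X u v x c' = true)
    (gy' : T.X u v y c' = true) (h1 : τ c ≤ τ c') (h2 : τ' c ≤ τ' c') :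
    be T u v ρ c x y ∨ be T u v ρ c y x ∨ al T u v ρ c' x y ∨ al T u v ρ c' y x ∨
      (ga T u v ρ c x y ∧ ga T u v ρ c' x y) ∨ (ga T u v ρ c y x ∧ ga T u v ρ c' y x) := by
  rcases f_total h hx hy hc hxy gx gy with h3 | h3 | h3 | h3 | h3 | h3
  · exact Or.inr (Or.inr (Or.inl (al_up sx sy hx hy hc hc' hc' gx gy gx' gy' h3 h1 h2)))
  · exact Or.inr (Or.inr (Or.inr (Or.inl (al_up sy sx hy hx hc hc' hc' gy gx gy' gx' h3 h2 h1))))
  · exact Or.inl h3
  · exact Or.inr (Or.inl h3)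
  · rcases f_total h hx hy hc' hxy gx' gy' with h4 | h4 | h4 | h4 | h4 | h4
    · exact Or.inr (Or.inr (Or.inl h4))
    · exact Or.inr (Or.inr (Or.inr (Or.inl h4)))
    · exact Or.inl (be_down sx sy hx hy hc' hc hc gx' gy' gx gy h4 h1 h2)
    · exact Or.inr (Or.inl (be_down sy sx hy hx hc' hc hc gy' gx' gy gx h4 h2 h1))
    · exact Or.inr (Or.inr (Or.inr (Or.inr (Or.inl ⟨h3, h4⟩))))
    · exact absurd h3.1 (lt_asymm h4.1)
  · rcases f_total h hx hy hc' hxy gx' gy' with h4 | h4 | h4 | h4 | h4 | h4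
    · exact Or.inr (Or.inr (Or.inl h4))
    · exact Or.inr (Or.inr (Or.inr (Or.inl h4)))
    · exact Or.inl (be_down sx sy hx hy hc' hc hc gx' gy' gx gy h4 h1 h2)
    · exact Or.inr (Or.inl (be_down sy sx hy hx hc' hc hc gy' gx' gy gx h4 h2 h1))
    · exact absurd h3.1 (lt_asymm h4.1)
    · exact Or.inr (Or.inr (Or.inr (Or.inr (Or.inr ⟨h3, h4⟩))))

end H38Q
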