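import Pool.Agent.Lib.H38Q.C4
import Pool.Agent.Lib.H38Q.G1
import Pool.Agent.Lib.H38Q.G2

/-! # H38Q, chunk G3 (M): the reference column lemma in a frame -/

open H53P

namespace H38Q

variable {V : Type*} {T : Table V} {u v : V} {ρ : V → ℝ} {X A : Finset V}

/-- (G3a, M) PROOF. `inj`: `Star.inj`. `tal, tbe, tga`: `f_al, f_be, f_ga`. `ial, ibe, iga`: unfold, `lt_irrefl`. `comp`: `comp_frame`. `a1`: `al_up`, `a2`: `be_down`, `a4`: `ga_mid`, and the definition of `RL`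
(a disjunction of the six relations). -/
theorem sys_frame (h : Fr T u v ρ X A) (τ : V → V → ℝ) (hτ : ∀ x ∈ X, Star T u v ρ X A x (τ x))
    (X0 : Finset V) (hX0 : X0 ⊆ X) (G : V → Finset V) (hGA : ∀ x ∈ X0, G x ⊆ A)
    (hcr : ∀ x ∈ X0, ∀ a ∈ G x, T.X u v x a = true) :
    Sys G τ (al T u v ρ) (be T u v ρ) (ga T u v ρ) (RL T u v ρ) X0 := by
  have hXx : ∀ x ∈ X0, x ∈ X := fun x hx => hX0 hx
  constructor
  · intro x hx a ha b hb hab
    exact (hτ x (hXx x hx)).inj a (hGA x hx ha) b (hGA x hx hb) (hcr x hx a ha) (hcr x hx b hb) hab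
  · intro c x hx y hy z hz cx cy cz h1 h2
    exact f_al h (hXx x hx) (hXx y hy) (hXx z hz) (hGA x hx cx) (hcr x hx c cx) (hcr y hy c cy) (hcr z hz c cz) h1 h2
  · intro c x hx y hy z hz cx cy cz h1 h2
    exact f_be h (hXx x hx) (hXx y hy) (hXx z hz) (hGA x hx cx) (hcr x hx c cx) (hcr y hy c cy) (hcr z hz c cz) h1 h2
  · intro c x hx y hy z hz cx cy cz h1 h2
    exact f_ga h (hXx x hx) (hXx y hy) (hXx z hz) (hGA x hx cx) (hcr x hx c cx) (hcr y hy c cy) (hcr z hz c cz) h1 h2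
  · intro c x _ h1
    rcases h1 with h1 | h1 | h1
    · exact lt_irrefl _ h1.1
    · exact lt_irrefl _ h1.1
    · exact lt_irrefl _ h1.1
  · intro c x _ h1
    rcases h1 with h1 | h1 | h1
    · exact lt_irrefl _ h1.1
    · exact lt_irrefl _ h1.1
    · exact lt_irrefl _ h1.1
  · intro c x _ h1
    exact lt_irrefl _ h1.1
  · intro c c' x hx y hy cx cy cx' cy' hxy h1 h2
    exact comp_frame h (hτ x (hXx x hx)) (hτ y (hXx y hy)) (hXx x hx) (hXx y hy) (hGA x hx cx) (hGA x hx cx') hxy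
      (hcr x hx c cx) (hcr y hy c cy) (hcr x hx c' cx') (hcr y hy c' cy') h1 h2
  · intro c x hx y hy cx cy hal a ha b hb h1 h2
    rcases al_up (hτ x (hXx x hx)) (hτ y (hXx y hy)) (hXx x hx) (hXx y hy) (hGA x hx cx) (hGA x hx ha) (hGA y hy hb)
      (hcr x hx c cx) (hcr y hy c cy) (hcr x hx a ha) (hcr y hy b hb) hal h1 h2 with h3 | h3 | h3
    · exact Or.inl h3
    · exact Or.inr (Or.inr (Or.inl h3))
    · exact Or.inr (Or.inr (Or.inr (Or.inr (Or.inr h3))))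
  · intro c x hx y hy cx cy hbe a ha b hb h1 h2
    rcases be_down (hτ x (hXx x hx)) (hτ y (hXx y hy)) (hXx x hx) (hXx y hy) (hGA x hx cx) (hGA x hx ha) (hGA y hy hb)
      (hcr x hx c cx) (hcr y hy c cy) (hcr x hx a ha) (hcr y hy b hb) hbe h1 h2 with h3 | h3 | h3
    · exact Or.inr (Or.inl h3)
    · exact Or.inr (Or.inr (Or.inl h3))
    · exact Or.inr (Or.inr (Or.inr (Or.inr (Or.inl h3))))
  · intro c c' x hx y hy cx cy cx' cy' hga hga' a ha b hb h1 h2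
    exact Or.inr (Or.inr (Or.inr (Or.inl (ga_mid (hτ x (hXx x hx)) (hτ y (hXx y hy)) (hXx x hx) (hXx y hy)
      (hGA x hx cx) (hGA x hx cx') (hGA x hx ha) (hGA y hy hb) (hcr x hx c' cx') (hcr y hy c cy) (hcr x hx a ha)
      (hcr y hy b hb) hga hga' h1 h2))))

/-- (G3b, S) PROOF. Choose `τ x` by `star_exists` for `x ∈ X` (and `0` otherwise); `sys_frame` and `xs` with the column set `A0`. -/
theorem xs_frame [DecidableEq V] (h : Fr T u v ρ X A) (X0 A0 : Finset V) (hX0 : X0 ⊆ X)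
    (hA0 : A0 ⊆ A) (G : V → Finset V) (hG : ∀ x ∈ X0, G x ⊆ A0)
    (hcr : ∀ x ∈ X0, ∀ a ∈ G x, T.X u v x a = true) (D d k : ℕ)
    (hd : ∀ x ∈ X0, 5 * d ≤ (G x).card) (hA : A0.card ≤ D * d) (hd1 : 1 ≤ d) (hk : 1 ≤ k)
    (hX : D ^ 2 * k ^ 3 ≤ X0.card) (hne : X0.Nonempty) :
    ∃ (f : Fin k → V) (Z : Fin k → Finset V), Function.Injective f ∧ (∀ i, f i ∈ X0) ∧
      (∀ i, Z i ⊆ G (f i)) ∧ (∀ i, d ≤ (Z i).card) ∧
      ∀ i j, i < j → ∀ a ∈ Z i, ∀ b ∈ Z j, RL T u v ρ (f i) a (f j) b := by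
  classical
  have hex : ∀ x : V, ∃ τ : V → ℝ, x ∈ X → Star T u v ρ X A x τ := by
    intro x
    by_cases hx : x ∈ X
    · obtain ⟨τ, hτ⟩ := star_exists h hx
      exact ⟨τ, fun _ => hτ⟩
    · exact ⟨fun _ => 0, fun hc => absurd hc hx⟩
  choose τ hτ using hex
  exact xs (sys_frame h τ hτ X0 hX0 G (fun x hx => (hG x hx).trans hA0) hcr) A0 D d k hG hd hA hd1 hk hX hne

end H38Q
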