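import Pool.Agent.Lib.H38Q.S6

/-! # H38Q, chunk K1 (S/M): an edge with many crossings -/

open H53P

namespace H38Q

theorem k1_num (n : ℕ) (hn : 320 ≤ n) : 3 * n ^ 5 ≤ 4 * (n - 4) ^ 5 := by
  obtain ⟨m, rfl⟩ : ∃ m, n = m + 4 := ⟨n - 4, by omega⟩
  have hm : 316 ≤ m := by omega
  have e : m + 4 - 4 = m := by omega
  rw [e]
  have h2 : 316 * m ≤ m ^ 2 := by nlinarith
  have h3 : 316 * m ^ 2 ≤ m ^ 3 := by
    have := Nat.mul_le_mul_left (m ^ 2) hm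
    calc 316 * m ^ 2 = m ^ 2 * 316 := by ring
      _ ≤ m ^ 2 * m := this
      _ = m ^ 3 := by ring
  have h4 : 316 * m ^ 3 ≤ m ^ 4 := by
    have := Nat.mul_le_mul_left (m ^ 3) hm
    calc 316 * m ^ 3 = m ^ 3 * 316 := by ring
      _ ≤ m ^ 3 * m := this
      _ = m ^ 4 := by ring
  have h5 : 316 * m ^ 4 ≤ m ^ 5 := by
    have := Nat.mul_le_mul_left (m ^ 4) hm
    calc 316 * m ^ 4 = m ^ 4 * 316 := by ring
      _ ≤ m ^ 4 * m := this
      _ = m ^ 5 := by ring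
  have e1 : (m + 4) ^ 5 = m ^ 5 + 20 * m ^ 4 + 160 * m ^ 3 + 640 * m ^ 2 + 1280 * m + 1024 := by
    ring
  rw [e1]
  omega

/-- (K1) from `s6_f4` (helper63) -/
theorem cross_count {V : Type*} [Fintype V] [DecidableEq V] (T : Table V)
    (hn : 320 ≤ Fintype.card V) : ∃ u v : V, u ≠ v ∧
      (Fintype.card V) ^ 2 ≤
        20 * ((Finset.univ : Finset (V × V)).filter (fun p => T.X u v p.1 p.2 = true)).card := by
  obtain ⟨u, v, h⟩ := s6_f4 T (by omega)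
  obtain ⟨P, hP⟩ : ∃ P, P = ((Finset.univ : Finset (V × V)).filter
    (fun p => T.X u v p.1 p.2 = true)) := ⟨_, rfl⟩
  rw [← hP] at h
  obtain ⟨n, hnn⟩ : ∃ n, n = Fintype.card V := ⟨_, rfl⟩
  rw [← hnn] at h hn
  have h1 := k1_num n hn
  have h2 : n ^ 2 ≤ 20 * P.card := by
    by_contra hc
    have h3 : 20 * P.card < n ^ 2 := not_le.1 hc
    have hn0 : 0 < n ^ 3 := by positivity
    have h4 : n ^ 3 * (20 * P.card) < n ^ 3 * n ^ 2 := Nat.mul_lt_mul_of_pos_left h3 hn0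
    have h5 : n ^ 3 * n ^ 2 = n ^ 5 := by ring
    have h6 : 15 * n ^ 3 * P.card * 4 = 3 * (n ^ 3 * (20 * P.card)) := by ring
    omega
  have hne : P.Nonempty := by
    rw [← Finset.card_pos]
    have : 0 < n ^ 2 := by positivity
    omega
  obtain ⟨p, hp⟩ := hne
  rw [hP] at hp
  refine ⟨u, v, (T.ne _ _ _ _ (Finset.mem_filter.1 hp).2).1, ?_⟩
  rw [← hP, ← hnn]
  exact h2

end H38Q
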