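import Pool.Agent.Lib.H38Q.S4

/-! # H38Q, chunk K2: the two rotations at the poles -/

open H53P

namespace H38Q

/-- (K2) from `s4_pair` (helper63) -/
theorem two_rot {V : Type*} (T : Table V) {u v : V} (huv : u ≠ v) : ∃ ρ ρ' : V → ℝ,
    T.Ord u ρ ∧ T.Ord v ρ' ∧ (∀ x, x ≠ u → x ≠ v → ρ v < ρ x) ∧
    (∀ x, x ≠ v → x ≠ u → ρ' u < ρ' x) ∧
    ∀ x y, x ≠ u → x ≠ v → y ≠ u → y ≠ v → x ≠ y →
      (T.adj u v x y = false ↔ (ρ x < ρ y ↔ ρ' y < ρ' x)) := by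
  obtain ⟨ρ, ρ', h1, h2, h3, h4, h5⟩ := s4_pair T huv
  exact ⟨ρ, ρ', h1, h3, h2, h4, h5⟩

end H38Q
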