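import Mathlib

/-! # H38Q, chunk K3 (M, ONLY MATHLIB): two cuts -/

namespace H38Q

/-- (K3a, S/M) Ranks. PROOF. `r x = (S.filter (fun y => ρ y < ρ x)).card`; strictly increasing in `ρ x` on `S` (`Finset.card_lt_card`), `< S.card` (`x` itself is missing). -/
theorem rank_exists {α : Type*} (S : Finset α) (ρ : α → ℝ) : ∃ r : α → ℕ,
    (∀ x ∈ S, r x < S.card) ∧ ∀ x ∈ S, ∀ y ∈ S, (r x < r y ↔ ρ x < ρ y) := by
  classical
  refine ⟨fun x => (S.filter (fun y => ρ y < ρ x)).card, ?_, ?_⟩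
  · intro x hx
    refine Finset.card_lt_card ?_
    rw [Finset.ssubset_iff_of_subset (Finset.filter_subset _ _)]
    refine ⟨x, hx, ?_⟩
    rw [Finset.mem_filter]
    rintro ⟨_, h⟩
    exact lt_irrefl _ h
  · intro x hx y hy
    have hmono : ∀ a b : α, ρ a ≤ ρ b → (S.filter (fun z => ρ z < ρ a)).card ≤ (S.filter (fun z => ρ z < ρ b)).card := by
      intro a b hab
      refine Finset.card_le_card ?_
      intro z hz
      rw [Finset.mem_filter] at hz ⊢
      exact ⟨hz.1, lt_of_lt_of_le hz.2 hab⟩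
    constructor
    · intro h
      by_contra hcon
      have h2 := hmono y x (not_lt.mp hcon)
      exact absurd h (not_lt.mpr h2)
    · intro h
      refine Finset.card_lt_card ?_
      rw [Finset.ssubset_iff_of_subset]
      · refine ⟨x, ?_, ?_⟩
        · rw [Finset.mem_filter]
          exact ⟨hx, h⟩
        · rw [Finset.mem_filter]
          rintro ⟨_, h'⟩
          exact lt_irrefl _ h'
      · intro z hz
        rw [Finset.mem_filter] at hz ⊢
        exact ⟨hz.1, lt_trans hz.2 h⟩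

/-- (K3b, S) Few pairs are close. PROOF. For fixed `x ∈ S` the map `a ↦ r a` is injective on the `a` (`r a = r b` gives neither `ρ a < ρ b` nor `ρ b < ρ a`), with values in `(r x, r x + m)`, so there are at most `m`
such `a`; sum over `x` (`Finset.card_le_mul_card_image` for `e ↦ e.1`). -/
theorem close_card {α : Type*} [DecidableEq α] (S : Finset α) (ρ : α → ℝ)
    (hinj : ∀ a ∈ S, ∀ b ∈ S, ρ a = ρ b → a = b) (r : α → ℕ)
    (hr : ∀ x ∈ S, ∀ y ∈ S, (r x < r y ↔ ρ x < ρ y)) (G : Finset (α × α))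
    (hG : ∀ e ∈ G, e.1 ∈ S ∧ e.2 ∈ S ∧ ρ e.1 < ρ e.2) (m : ℕ) :
    (G.filter (fun e => r e.2 < r e.1 + m)).card ≤ S.card * m := by
  classical
  rw [mul_comm]
  refine Finset.card_le_mul_card_image_of_maps_to (f := fun e : α × α => e.1) (t := S) ?_ m ?_
  · intro e he
    exact (hG e (Finset.mem_filter.mp he).1).1
  · intro x hx
    have hcard : (Finset.Ico (r x) (r x + m)).card = m := by
      rw [Nat.card_Ico]
      omega
    calc _ ≤ (Finset.Ico (r x) (r x + m)).card := by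
          refine Finset.card_le_card_of_injOn (fun e : α × α => r e.2) ?_ ?_
          · intro e he
            have he1 := Finset.mem_filter.mp (Finset.mem_coe.mp he)
            have he2 := Finset.mem_filter.mp he1.1
            have he3 := hG e he2.1
            have he4 : e.1 = x := he1.2
            rw [Finset.mem_coe, Finset.mem_Ico]
            have h5 : r e.1 < r e.2 := (hr _ he3.1 _ he3.2.1).mpr he3.2.2
            have h6 := he2.2
            rw [he4] at h5 h6
            exact ⟨le_of_lt h5, h6⟩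
          · intro e he e' he' hee
            have he1 := Finset.mem_filter.mp (Finset.mem_coe.mp he)
            have he2 := Finset.mem_filter.mp he1.1
            have he3 := hG e he2.1
            have he4 : e.1 = x := he1.2
            have he1' := Finset.mem_filter.mp (Finset.mem_coe.mp he')
            have he2' := Finset.mem_filter.mp he1'.1
            have he3' := hG e' he2'.1
            have he4' : e'.1 = x := he1'.2
            have h7 : r e.2 = r e'.2 := hee
            have h8 : ρ e.2 = ρ e'.2 := by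
              rcases lt_trichotomy (ρ e.2) (ρ e'.2) with h | h | h
              · have := (hr _ he3.2.1 _ he3'.2.1).mpr h
                omega
              · exact h
              · have := (hr _ he3'.2.1 _ he3.2.1).mpr h
                omega
            exact Prod.ext (he4.trans he4'.symm) (hinj _ he3.2.1 _ he3'.2.1 h8)
      _ = m := hcard

/-- A threshold for the ranks is a threshold for the reals. -/
theorem k3_thr {α : Type*} (S : Finset α) (ρ : α → ℝ) (r : α → ℕ)
    (hr : ∀ x ∈ S, ∀ y ∈ S, (r x < r y ↔ ρ x < ρ y)) (t : ℕ) :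
    ∃ s : ℝ, ∀ x ∈ S, (r x < t → ρ x < s) ∧ (t ≤ r x → s ≤ ρ x) := by
  classical
  rcases (S.filter (fun x => t ≤ r x)).eq_empty_or_nonempty with h | h
  · rcases S.eq_empty_or_nonempty with hS | hS
    · refine ⟨0, ?_⟩
      intro x hx
      rw [hS] at hx
      exact absurd hx (Finset.notMem_empty x)
    · obtain ⟨x1, hx1, hmax⟩ := Finset.exists_max_image S ρ hS
      refine ⟨ρ x1 + 1, ?_⟩
      intro x hx
      refine ⟨fun _ => ?_, fun hx2 => ?_⟩
      · have := hmax x hx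
        linarith
      · exfalso
        have : x ∈ S.filter (fun x => t ≤ r x) := Finset.mem_filter.mpr ⟨hx, hx2⟩
        rw [h] at this
        exact absurd this (Finset.notMem_empty x)
  · obtain ⟨x0, hx0, hmin⟩ := Finset.exists_min_image _ ρ h
    have hx0' := Finset.mem_filter.mp hx0
    refine ⟨ρ x0, ?_⟩
    intro x hx
    refine ⟨fun hx2 => ?_, fun hx2 => ?_⟩
    · exact (hr x hx x0 hx0'.1).mp (lt_of_lt_of_le hx2 hx0'.2)
    · exact hmin x (Finset.mem_filter.mpr ⟨hx, hx2⟩)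

/-- Double counting. -/
theorem k3_count {α : Type*} [DecidableEq α] (n m : ℕ) (r r' : α → ℕ) (G1 : Finset (α × α))
    (h : ∀ e ∈ G1, r e.1 + m ≤ r e.2 ∧ r e.2 < n ∧ r' e.2 + m ≤ r' e.1 ∧ r' e.1 < n) (hn : 0 < n) :
    ∃ t t' : ℕ, m ^ 2 * G1.card ≤ n ^ 2 *
      (G1.filter (fun e => (r e.1 < t ∧ t ≤ r e.2) ∧ (r' e.2 < t' ∧ t' ≤ r' e.1))).card := by
  classical
  by_contra hcon
  push Not at hcon
  have h1 : ∑ p ∈ Finset.range n ×ˢ Finset.range n, n ^ 2 *
      (G1.filter (fun e => (r e.1 < p.1 ∧ p.1 ≤ r e.2) ∧ (r' e.2 < p.2 ∧ p.2 ≤ r' e.1))).card <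
      ∑ p ∈ Finset.range n ×ˢ Finset.range n, m ^ 2 * G1.card := by
    refine Finset.sum_lt_sum_of_nonempty ?_ ?_
    · exact ⟨(0, 0), Finset.mem_product.mpr ⟨Finset.mem_range.mpr hn, Finset.mem_range.mpr hn⟩⟩
    · intro p _
      exact hcon p.1 p.2
  rw [← Finset.mul_sum, Finset.sum_const, Finset.card_product, Finset.card_range, smul_eq_mul] at h1
  have h2 : m ^ 2 * G1.card ≤ ∑ p ∈ Finset.range n ×ˢ Finset.range n,
      (G1.filter (fun e => (r e.1 < p.1 ∧ p.1 ≤ r e.2) ∧ (r' e.2 < p.2 ∧ p.2 ≤ r' e.1))).card := by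
    have h3 : ∑ p ∈ Finset.range n ×ˢ Finset.range n,
        (G1.filter (fun e => (r e.1 < p.1 ∧ p.1 ≤ r e.2) ∧ (r' e.2 < p.2 ∧ p.2 ≤ r' e.1))).card =
        ∑ e ∈ G1, ((Finset.range n ×ˢ Finset.range n).filter
          (fun p : ℕ × ℕ => (r e.1 < p.1 ∧ p.1 ≤ r e.2) ∧ (r' e.2 < p.2 ∧ p.2 ≤ r' e.1))).card := by
      simp only [Finset.card_filter]
      exact Finset.sum_comm
    rw [h3]
    have h4 : ∑ e ∈ G1, m ^ 2 ≤ ∑ e ∈ G1, ((Finset.range n ×ˢ Finset.range n).filter
          (fun p : ℕ × ℕ => (r e.1 < p.1 ∧ p.1 ≤ r e.2) ∧ (r' e.2 < p.2 ∧ p.2 ≤ r' e.1))).card := by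
      refine Finset.sum_le_sum ?_
      intro e he
      obtain ⟨h5, h6, h7, h8⟩ := h e he
      have h9 : (Finset.Ioc (r e.1) (r e.2) ×ˢ Finset.Ioc (r' e.2) (r' e.1)) ⊆ (Finset.range n ×ˢ Finset.range n).filter
          (fun p : ℕ × ℕ => (r e.1 < p.1 ∧ p.1 ≤ r e.2) ∧ (r' e.2 < p.2 ∧ p.2 ≤ r' e.1)) := by
        intro p hp
        rw [Finset.mem_product, Finset.mem_Ioc, Finset.mem_Ioc] at hp
        rw [Finset.mem_filter, Finset.mem_product, Finset.mem_range, Finset.mem_range]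
        obtain ⟨⟨h10, h11⟩, h12, h13⟩ := hp
        refine ⟨⟨by omega, by omega⟩, ⟨h10, h11⟩, h12, h13⟩
      have h10 := Finset.card_le_card h9
      rw [Finset.card_product, Nat.card_Ioc, Nat.card_Ioc] at h10
      refine le_trans ?_ h10
      rw [pow_two]
      exact Nat.mul_le_mul (by omega) (by omega)
    rw [Finset.sum_const, smul_eq_mul, mul_comm] at h4
    exact h4
  have h3 : n ^ 2 * (m ^ 2 * G1.card) ≤ n ^ 2 * ∑ p ∈ Finset.range n ×ˢ Finset.range n,
      (G1.filter (fun e => (r e.1 < p.1 ∧ p.1 ≤ r e.2) ∧ (r' e.2 < p.2 ∧ p.2 ≤ r' e.1))).card :=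
    Nat.mul_le_mul_left _ h2
  have h4 : n * n * (m ^ 2 * G1.card) = n ^ 2 * (m ^ 2 * G1.card) := by ring
  rw [h4] at h1
  exact absurd h1 (not_lt.mpr h3)

/-- (K3c, M) PROOF. `n = S.card`, ranks `r, r'` (`rank_exists`) for `ρ, ρ'`. `G1` = the `e ∈ G` with `r e.1 + m ≤ r e.2` and `r' e.2 + m ≤ r' e.1`. `close_card` (for `ρ'` apply it to the swapped pairs, `G.image Prod.swap`): `G.card ≤ G1.card + 2 * n * m`, and
`2 * n * m ≤ G.card / 2`, so `G.card ≤ 2 * G1.card`. For `t, t' < n` let `N(t, t')` be the number of `e ∈ G1` with `r e.1 < t ≤ r e.2` and `r' e.2 < t' ≤ r' e.1`. Every `e ∈ G1` is counted for at least `m * m` pairs `(t, t')`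
(`t ∈ Ioc (r e.1) (r e.2)`, all `< n`), so `m ^ 2 * G1.card ≤ ∑ N(t, t')` over the `n ^ 2` pairs, and there is `(t, t')` with `m ^ 2 * G1.card ≤ n ^ 2 * N(t, t')` (if `S` is empty `G` is empty and everything is trivial).
Reals: if `t ≤ r x` for no `x ∈ S`.. take `s` = the minimum of the `ρ x`, `x ∈ S`, `t ≤ r x` (or any number larger than all `ρ x` if there is none): for `x ∈ S`: `r x < t → ρ x < s`, `t ≤ r x → s ≤ ρ x`. The same for `s'`. -/
theorem cut {α : Type*} [DecidableEq α] (S : Finset α) (ρ ρ' : α → ℝ)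
    (hinj : ∀ a ∈ S, ∀ b ∈ S, ρ a = ρ b → a = b) (hinj' : ∀ a ∈ S, ∀ b ∈ S, ρ' a = ρ' b → a = b)
    (G : Finset (α × α))
    (hG : ∀ e ∈ G, e.1 ∈ S ∧ e.2 ∈ S ∧ ρ e.1 < ρ e.2 ∧ ρ' e.2 < ρ' e.1) (m : ℕ)
    (hm : 4 * S.card * m ≤ G.card) : ∃ s s' : ℝ,
      m ^ 2 * G.card ≤ 2 * S.card ^ 2 *
        (G.filter (fun e => (ρ e.1 < s ∧ s ≤ ρ e.2) ∧ (ρ' e.2 < s' ∧ s' ≤ ρ' e.1))).card := by
  classical
  obtain ⟨r, hrn, hr⟩ := rank_exists S ρ
  obtain ⟨r', hrn', hr'⟩ := rank_exists S ρ'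
  rcases Nat.eq_zero_or_pos S.card with hn | hn
  · have hS : S = ∅ := Finset.card_eq_zero.mp hn
    have hG0 : G = ∅ := by
      rw [Finset.eq_empty_iff_forall_notMem]
      intro e he
      have := (hG e he).1
      rw [hS] at this
      exact absurd this (Finset.notMem_empty _)
    refine ⟨0, 0, ?_⟩
    rw [hG0]
    simp
  · obtain ⟨G1, hG1⟩ : ∃ G1 : Finset (α × α), G1 = G.filter (fun e => r e.1 + m ≤ r e.2 ∧ r' e.2 + m ≤ r' e.1) := ⟨_, rfl⟩
    have hA := close_card S ρ hinj r hr G (fun e he => ⟨(hG e he).1, (hG e he).2.1, (hG e he).2.2.1⟩) m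
    have hB := close_card S ρ' hinj' r' hr' (G.image Prod.swap) (by
      intro e he
      rw [Finset.mem_image] at he
      obtain ⟨e', he', hee⟩ := he
      rw [← hee]
      have h1 := hG e' he'
      exact ⟨h1.2.1, h1.1, h1.2.2.2⟩) m
    have hB' : (G.filter (fun e => r' e.1 < r' e.2 + m)).card ≤ S.card * m := by
      refine le_trans ?_ hB
      refine Finset.card_le_card_of_injOn Prod.swap ?_ ?_
      · intro e he
        have he1 := Finset.mem_filter.mp (Finset.mem_coe.mp he)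
        rw [Finset.mem_coe, Finset.mem_filter]
        exact ⟨Finset.mem_image_of_mem _ he1.1, he1.2⟩
      · exact fun a _ b _ hab => Prod.swap_injective hab
    have hC : G.card ≤ G1.card + ((G.filter (fun e => r e.2 < r e.1 + m)).card + (G.filter (fun e => r' e.1 < r' e.2 + m)).card) := by
      have h1 : G ⊆ G1 ∪ (G.filter (fun e => r e.2 < r e.1 + m) ∪ G.filter (fun e => r' e.1 < r' e.2 + m)) := by
        intro e he
        rw [Finset.mem_union, Finset.mem_union, hG1, Finset.mem_filter, Finset.mem_filter, Finset.mem_filter]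
        by_cases h2 : r e.2 < r e.1 + m
        · exact Or.inr (Or.inl ⟨he, h2⟩)
        · by_cases h3 : r' e.1 < r' e.2 + m
          · exact Or.inr (Or.inr ⟨he, h3⟩)
          · exact Or.inl ⟨he, not_lt.mp h2, not_lt.mp h3⟩
      refine (Finset.card_le_card h1).trans ((Finset.card_union_le _ _).trans ?_)
      exact Nat.add_le_add_left (Finset.card_union_le _ _) _
    have hD : G.card ≤ 2 * G1.card := by
      have h1 : G.card ≤ G1.card + (S.card * m + S.card * m) := le_trans hC (by omega)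
      have h2 : 4 * S.card * m = 4 * (S.card * m) := by ring
      omega
    obtain ⟨t, t', ht⟩ := k3_count S.card m r r' G1 (by
      intro e he
      rw [hG1, Finset.mem_filter] at he
      have h1 := hG e he.1
      exact ⟨he.2.1, hrn _ h1.2.1, he.2.2, hrn' _ h1.1⟩) hn
    obtain ⟨s, hs⟩ := k3_thr S ρ r hr t
    obtain ⟨s', hs'⟩ := k3_thr S ρ' r' hr' t'
    refine ⟨s, s', ?_⟩
    have hE : (G1.filter (fun e => (r e.1 < t ∧ t ≤ r e.2) ∧ (r' e.2 < t' ∧ t' ≤ r' e.1))).card ≤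
        (G.filter (fun e => (ρ e.1 < s ∧ s ≤ ρ e.2) ∧ (ρ' e.2 < s' ∧ s' ≤ ρ' e.1))).card := by
      refine Finset.card_le_card ?_
      intro e he
      rw [Finset.mem_filter, hG1, Finset.mem_filter] at he
      obtain ⟨⟨h1, _⟩, ⟨h2, h3⟩, h4, h5⟩ := he
      have h6 := hG e h1
      rw [Finset.mem_filter]
      exact ⟨h1, ⟨(hs _ h6.1).1 h2, (hs _ h6.2.1).2 h3⟩, (hs' _ h6.2.1).1 h4, (hs' _ h6.1).2 h5⟩
    calc m ^ 2 * G.card ≤ m ^ 2 * (2 * G1.card) := Nat.mul_le_mul_left _ hD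
      _ = 2 * (m ^ 2 * G1.card) := by ring
      _ ≤ 2 * (S.card ^ 2 * (G1.filter (fun e => (r e.1 < t ∧ t ≤ r e.2) ∧ (r' e.2 < t' ∧ t' ≤ r' e.1))).card) :=
          Nat.mul_le_mul_left _ ht
      _ ≤ 2 * (S.card ^ 2 * (G.filter (fun e => (ρ e.1 < s ∧ s ≤ ρ e.2) ∧ (ρ' e.2 < s' ∧ s' ≤ ρ' e.1))).card) :=
          Nat.mul_le_mul_left _ (Nat.mul_le_mul_left _ hE)
      _ = _ := by ring

end H38Q
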