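import Pool.Agent.Lib.H38Q.Defs
import Pool.Agent.Lib.H38Q.K1
import Pool.Agent.Lib.H38Q.K2
import Pool.Agent.Lib.H38Q.K3

/-! # H38Q, chunk K4 (M): a dense frame -/

open H53P

namespace H38Q

/-- (K4, M) PROOF. `n = card V`. `cross_count`: `u, v`; `two_rot`: `ρ, ρ'`. `S` = all points except `u, v`, `S.card ≤ n`. `P` = the pairs `(x, a)` with `T.X u v x a = true` (then `x, a ∈ S`, `x ≠ a` by `T.ne`), symmetric under swap
(`T.X u v a x = T.X u v x a`), `G0` = the pairs with `ρ x < ρ a`: `P.card = 2 * G0.card` (or only `P.card ≤ 2 * G0.card`: `P` is the union of `G0` and its swap). For `(x, a) ∈ G0`: `T.adj u v x a = false`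
(otherwise `cc2_uw` gives `T.X u v x a = false`), so `ρ' a < ρ' x` (`two_rot`). `m = n / 160` (`ℕ`): `4 * S.card * m ≤ n * n / 40 ≤ G0.card`, because `30 * G0.card ≥ (n - 2) * (n - 3)` and `40 * (n - 2) * (n - 3) ≥ 30 * n ^ 2` (`n ≥ 320`).
`cut`: `s, s'`; `X` = the `x ∈ S` with `ρ x < s`, `s' ≤ ρ' x`, `A` = the `a ∈ S` with `s ≤ ρ a`, `ρ' a < s'`. `Fr`: `lt` from the cuts, `fan` from `two_rot` (`ρ x < ρ a` and `ρ' a < ρ' x`), for `Fr T v u ρ' A X` the symmetries of `adj` (`cc1_adj`).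
The filtered set in `cut` is contained in the pairs `(x, a) ∈ X ×ˢ A` with `T.X u v x a = true`, the number of which is the sum over `x ∈ X` of the row sizes. Numbers: `m ^ 2 * G0.card ≤ 2 * n ^ 2 * N`, `320 * m ≥ n` (`n ≥ 160`), `40 * G0.card ≥ n ^ 2`: so
`n ^ 4 ≤ 320 ^ 2 * 40 * m ^ 2 * G0.card ≤ 320 ^ 2 * 40 * 2 * n ^ 2 * N` and `n ^ 2 ≤ 8192000 * N`. -/
theorem dense_frame {V : Type*} [Fintype V] [DecidableEq V] (T : Table V)
    (hn : 320 ≤ Fintype.card V) : ∃ (u v : V) (ρ ρ' : V → ℝ) (X A : Finset V),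
      Fr T u v ρ X A ∧ Fr T v u ρ' A X ∧
      (Fintype.card V) ^ 2 ≤
        8192000 * ∑ x ∈ X, (A.filter (fun a => T.X u v x a = true)).card := by
  classical
  obtain ⟨u, v, huv, hc⟩ := cross_count T hn
  obtain ⟨ρ, ρ', ho, ho', hmin, hmin', hadj⟩ := two_rot T huv
  obtain ⟨n, hnn⟩ : ∃ n, n = Fintype.card V := ⟨_, rfl⟩
  rw [← hnn] at hn hc ⊢
  obtain ⟨S, hS⟩ : ∃ S : Finset V, ∀ x, x ∈ S ↔ x ≠ u ∧ x ≠ v :=
    ⟨Finset.univ.filter (fun x => x ≠ u ∧ x ≠ v), fun x => by simp⟩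
  have hSn : S.card ≤ n := by rw [hnn]; exact Finset.card_le_univ S
  obtain ⟨P, hP⟩ : ∃ P : Finset (V × V), P = Finset.univ.filter (fun p => T.X u v p.1 p.2 = true) :=
    ⟨_, rfl⟩
  have hPm : ∀ p, p ∈ P ↔ T.X u v p.1 p.2 = true := fun p => by rw [hP]; simp
  rw [← hP] at hc
  have hPS : ∀ p ∈ P, p.1 ∈ S ∧ p.2 ∈ S ∧ p.1 ≠ p.2 := by
    intro p hp
    obtain ⟨h1, h2, h3, h4, h5, h6⟩ := T.ne _ _ _ _ ((hPm p).1 hp)
    exact ⟨(hS _).2 ⟨h3.symm, h5.symm⟩, (hS _).2 ⟨h4.symm, h6.symm⟩, h2⟩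
  have hsw : ∀ a b, T.X u v a b = T.X u v b a := fun a b => by
    rw [T.symm2 u v a b, T.symm1 a b u v, T.symm2 b a u v]
  have hG2 : P.card ≤ 2 * (P.filter (fun p => ρ p.1 < ρ p.2)).card := by
    have h1 : P ⊆ P.filter (fun p => ρ p.1 < ρ p.2) ∪
        (P.filter (fun p => ρ p.1 < ρ p.2)).image Prod.swap := by
      intro p hp
      obtain ⟨h1, h2, h3⟩ := hPS p hp
      rw [Finset.mem_union]
      rcases lt_trichotomy (ρ p.1) (ρ p.2) with h | h | h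
      · exact Or.inl (Finset.mem_filter.2 ⟨hp, h⟩)
      · exact absurd (ho.1 _ _ ((hS _).1 h1).1 ((hS _).1 h2).1 h) h3
      · refine Or.inr (Finset.mem_image.2 ⟨(p.2, p.1), Finset.mem_filter.2 ⟨?_, h⟩, rfl⟩)
        rw [hPm, hsw]
        exact (hPm p).1 hp
    have h2 := (Finset.card_le_card h1).trans (Finset.card_union_le _ _)
    have h3 : ((P.filter (fun p => ρ p.1 < ρ p.2)).image Prod.swap).card ≤
        (P.filter (fun p => ρ p.1 < ρ p.2)).card := Finset.card_image_le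
    omega
  obtain ⟨G, hG⟩ : ∃ G : Finset (V × V), G = P.filter (fun p => ρ p.1 < ρ p.2) := ⟨_, rfl⟩
  rw [← hG] at hG2
  have hGm : ∀ e ∈ G, e.1 ∈ S ∧ e.2 ∈ S ∧ ρ e.1 < ρ e.2 ∧ ρ' e.2 < ρ' e.1 := by
    intro e he
    rw [hG] at he
    obtain ⟨he1, he2⟩ := Finset.mem_filter.1 he
    obtain ⟨h1, h2, h3⟩ := hPS e he1
    refine ⟨h1, h2, he2, ?_⟩
    have h4 : T.adj u v e.1 e.2 = false := by
      cases hh : T.adj u v e.1 e.2
      · rfl
      · have h5 := cc2_uw T hh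
        rw [(hPm e).1 he1] at h5
        exact absurd h5 (by decide)
    exact ((hadj _ _ ((hS _).1 h1).1 ((hS _).1 h1).2 ((hS _).1 h2).1 ((hS _).1 h2).2 h3).1 h4).1 he2
  obtain ⟨m, hm⟩ : ∃ m, m = n / 160 := ⟨_, rfl⟩
  have hm1 : 160 * m ≤ n := by omega
  have hm2 : n ≤ 320 * m := by omega
  have h40 : n ^ 2 ≤ 40 * G.card := by omega
  have hmG : 4 * S.card * m ≤ G.card := by
    have h1 : 40 * (4 * S.card * m) ≤ 40 * G.card := by
      refine le_trans ?_ h40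
      calc 40 * (4 * S.card * m) = S.card * (160 * m) := by ring
        _ ≤ n * n := Nat.mul_le_mul hSn hm1
        _ = n ^ 2 := by ring
    omega
  have hinj : ∀ a ∈ S, ∀ b ∈ S, ρ a = ρ b → a = b := fun a ha b hb =>
    ho.1 a b ((hS a).1 ha).1 ((hS b).1 hb).1
  have hinj' : ∀ a ∈ S, ∀ b ∈ S, ρ' a = ρ' b → a = b := fun a ha b hb =>
    ho'.1 a b ((hS a).1 ha).2 ((hS b).1 hb).2
  obtain ⟨s, s', hss⟩ := cut S ρ ρ' hinj hinj' G hGm m hmG
  have hfan : ∀ x ∈ S.filter (fun x => ρ x < s ∧ s' ≤ ρ' x), ∀ a ∈ S.filter (fun a => s ≤ ρ a ∧ ρ' a < s'),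
      ρ x < ρ a ∧ ρ' a < ρ' x ∧ T.adj u v x a = false := by
    intro x hx a ha
    obtain ⟨hx1, hx2, hx3⟩ := Finset.mem_filter.1 hx
    obtain ⟨ha1, ha2, ha3⟩ := Finset.mem_filter.1 ha
    have h1 : ρ x < ρ a := hx2.trans_le ha2
    have h2 : ρ' a < ρ' x := ha3.trans_le hx3
    refine ⟨h1, h2, (hadj x a ((hS _).1 hx1).1 ((hS _).1 hx1).2 ((hS _).1 ha1).1 ((hS _).1 ha1).2
      (fun h => ?_)).2 ⟨fun _ => h2, fun _ => h1⟩⟩
    rw [h] at h1
    exact lt_irrefl _ h1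
  refine ⟨u, v, ρ, ρ', S.filter (fun x => ρ x < s ∧ s' ≤ ρ' x), S.filter (fun a => s ≤ ρ a ∧ ρ' a < s'),
    ⟨ho, huv, hmin, fun x hx => (hS x).1 (Finset.mem_filter.1 hx).1,
      fun a ha => (hS a).1 (Finset.mem_filter.1 ha).1, fun x hx a ha => (hfan x hx a ha).1,
      fun x hx a ha => (hfan x hx a ha).2.2⟩,
    ⟨ho', huv.symm, hmin', fun a ha => ((hS a).1 (Finset.mem_filter.1 ha).1).symm,
      fun x hx => ((hS x).1 (Finset.mem_filter.1 hx).1).symm, fun a ha x hx => (hfan x hx a ha).2.1,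
      fun a ha x hx => ?_⟩, ?_⟩
  · rw [← (cc1_adj T u v a x).2.2.1, (cc1_adj T u v a x).2.1]
    exact (hfan x hx a ha).2.2
  · have hN : (G.filter (fun e => (ρ e.1 < s ∧ s ≤ ρ e.2) ∧ (ρ' e.2 < s' ∧ s' ≤ ρ' e.1))).card ≤
        ∑ x ∈ S.filter (fun x => ρ x < s ∧ s' ≤ ρ' x),
          ((S.filter (fun a => s ≤ ρ a ∧ ρ' a < s')).filter (fun a => T.X u v x a = true)).card := by
      have h1 : G.filter (fun e => (ρ e.1 < s ∧ s ≤ ρ e.2) ∧ (ρ' e.2 < s' ∧ s' ≤ ρ' e.1)) ⊆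
          (S.filter (fun x => ρ x < s ∧ s' ≤ ρ' x) ×ˢ S.filter (fun a => s ≤ ρ a ∧ ρ' a < s')).filter
            (fun p => T.X u v p.1 p.2 = true) := by
        intro e he
        obtain ⟨he1, ⟨he2, he3⟩, he4, he5⟩ := Finset.mem_filter.1 he
        obtain ⟨h1, h2, -, -⟩ := hGm e he1
        rw [hG] at he1
        exact Finset.mem_filter.2 ⟨Finset.mem_product.2 ⟨Finset.mem_filter.2 ⟨h1, he2, he5⟩,
          Finset.mem_filter.2 ⟨h2, he3, he4⟩⟩, (hPm e).1 (Finset.mem_filter.1 he1).1⟩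
      refine (Finset.card_le_card h1).trans (le_of_eq ?_)
      simp only [Finset.card_filter _ (_ ×ˢ _), Finset.sum_product]
      exact Finset.sum_congr rfl fun x _ => (Finset.card_filter _ _).symm
    generalize ∑ x ∈ S.filter (fun x => ρ x < s ∧ s' ≤ ρ' x),
      ((S.filter (fun a => s ≤ ρ a ∧ ρ' a < s')).filter (fun a => T.X u v x a = true)).card = N at hN ⊢
    have e1 : n ^ 2 * n ^ 2 ≤ n ^ 2 * (8192000 * N) := by
      calc n ^ 2 * n ^ 2 ≤ (320 * m) ^ 2 * (40 * G.card) :=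
            Nat.mul_le_mul (Nat.pow_le_pow_left hm2 2) h40
        _ = 4096000 * (m ^ 2 * G.card) := by ring
        _ ≤ 4096000 * (2 * n ^ 2 * N) := by
            refine Nat.mul_le_mul_left _ (hss.trans ?_)
            exact Nat.mul_le_mul (Nat.mul_le_mul_left _ (Nat.pow_le_pow_left hSn 2)) hN
        _ = n ^ 2 * (8192000 * N) := by ring
    exact Nat.le_of_mul_le_mul_left e1 (pow_pos (by omega) 2)

end H38Q
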