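import Mathlib

/-!
# H38Q, file S1: staircases in dense 0-1 matrices (pure combinatorics)
-/

namespace H38Q

variable {ι κ : Type*} [LinearOrder ι] [LinearOrder κ] [Fintype ι] [Fintype κ]

/-- increasing in both kinds of coordinates -/
def Q : ι ⊕ κ → ι ⊕ κ → Prop
  | Sum.inl r, Sum.inl r' => r < r'
  | Sum.inr c, Sum.inr c' => c < c'
  | _, _ => True

/-- adjacent in the bipartite graph `E` -/
def S (E : Finset (ι × κ)) : ι ⊕ κ → ι ⊕ κ → Prop
  | Sum.inl r, Sum.inr c => (r, c) ∈ E
  | Sum.inr c, Sum.inl r => (r, c) ∈ E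
  | _, _ => False

/-- all elements of `W` but at most one in every row have a larger element of `W` in the row -/
theorem row_step (W : Finset (ι × κ)) :
    W.card ≤ (W.filter fun e => ∃ c', e.2 < c' ∧ (e.1, c') ∈ W).card + Fintype.card ι := by
  classical
  rw [← Finset.card_filter_add_card_filter_not (s := W) (fun e => ∃ c', e.2 < c' ∧ (e.1, c') ∈ W)]
  refine Nat.add_le_add_left ?_ _
  rw [← Finset.card_univ (α := ι)]
  refine Finset.card_le_card_of_injOn (fun e => e.1) (fun e _ => Finset.mem_coe.2 (Finset.mem_univ _)) ?_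
  intro e he f hf hef
  obtain ⟨e1, e2⟩ := e
  obtain ⟨f1, f2⟩ := f
  simp only [Finset.coe_filter, Set.mem_ofPred_eq, not_exists, not_and] at he hf hef
  subst hef
  rcases lt_trichotomy e2 f2 with h | h | h
  · exact absurd hf.1 (he.2 f2 h)
  · rw [h]
  · exact absurd he.1 (hf.2 e2 h)

theorem col_step (W : Finset (ι × κ)) :
    W.card ≤ (W.filter fun e => ∃ r', e.1 < r' ∧ (r', e.2) ∈ W).card + Fintype.card κ := by
  classical
  rw [← Finset.card_filter_add_card_filter_not (s := W) (fun e => ∃ r', e.1 < r' ∧ (r', e.2) ∈ W)]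
  refine Nat.add_le_add_left ?_ _
  rw [← Finset.card_univ (α := κ)]
  refine Finset.card_le_card_of_injOn (fun e => e.2) (fun e _ => Finset.mem_coe.2 (Finset.mem_univ _)) ?_
  intro e he f hf hef
  obtain ⟨e1, e2⟩ := e
  obtain ⟨f1, f2⟩ := f
  simp only [Finset.coe_filter, Set.mem_ofPred_eq, not_exists, not_and] at he hf hef
  subst hef
  rcases lt_trichotomy e1 f1 with h | h | h
  · exact absurd hf.1 (he.2 f1 h)
  · rw [h]
  · exact absurd he.1 (hf.2 e1 h)

/-- the induction -/
theorem stair_aux (E : Finset (ι × κ)) (M : ℕ) (h1 : Fintype.card ι ≤ M) (h2 : Fintype.card κ ≤ M) :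
    ∀ k : ℕ, ∃ H W : Finset (ι × κ), E.card ≤ H.card + k * M ∧ E.card ≤ W.card + k * M ∧
      (∀ e ∈ H, ∃ t : List (ι ⊕ κ), (Sum.inr e.2 :: Sum.inl e.1 :: t).length = k + 2 ∧
        (Sum.inr e.2 :: Sum.inl e.1 :: t).Pairwise Q ∧
        (Sum.inr e.2 :: Sum.inl e.1 :: t).IsChain (S E)) ∧
      (∀ e ∈ W, ∃ t : List (ι ⊕ κ), (Sum.inl e.1 :: Sum.inr e.2 :: t).length = k + 2 ∧
        (Sum.inl e.1 :: Sum.inr e.2 :: t).Pairwise Q ∧
        (Sum.inl e.1 :: Sum.inr e.2 :: t).IsChain (S E)) := by
  classical
  intro k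
  induction k with
  | zero =>
    refine ⟨E, E, by simp, by simp, ?_, ?_⟩
    · intro e he
      refine ⟨[], rfl, ?_, ?_⟩
      · simp [Q]
      · simp [S, he]
    · intro e he
      refine ⟨[], rfl, ?_, ?_⟩
      · simp [Q]
      · simp [S, he]
  | succ k ih =>
    obtain ⟨H, W, hH, hW, pH, pW⟩ := ih
    refine ⟨W.filter fun e => ∃ c', e.2 < c' ∧ (e.1, c') ∈ W,
      H.filter fun e => ∃ r', e.1 < r' ∧ (r', e.2) ∈ H, ?_, ?_, ?_, ?_⟩
    · have := row_step W
      have e1 : (k + 1) * M = k * M + M := by ring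
      omega
    · have := col_step H
      have e1 : (k + 1) * M = k * M + M := by ring
      omega
    · intro e he
      obtain ⟨he1, c', hc, hw⟩ := Finset.mem_filter.1 he
      obtain ⟨t, ht1, ht2, ht3⟩ := pW _ hw
      obtain ⟨t', -, -, ht3'⟩ := pW _ he1
      have heE : (e.1, e.2) ∈ E := (List.isChain_cons_cons.1 ht3').1
      refine ⟨Sum.inr c' :: t, ?_, ?_, ?_⟩
      · simp only [List.length_cons] at ht1 ⊢
        omega
      · refine List.pairwise_cons.2 ⟨?_, ht2⟩
        intro z hz
        rcases z with r | c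
        · trivial
        · change e.2 < c
          rcases List.mem_cons.1 hz with h | h
          · exact absurd h (by simp)
          · rcases List.mem_cons.1 h with h | h
            · have : c = c' := by simpa using h
              rw [this]; exact hc
            · have h3 := (List.pairwise_cons.1 (List.pairwise_cons.1 ht2).2).1 _ h
              exact hc.trans h3
      · exact List.isChain_cons_cons.2 ⟨heE, ht3⟩
    · intro e he
      obtain ⟨he1, r', hr, hh⟩ := Finset.mem_filter.1 he
      obtain ⟨t, ht1, ht2, ht3⟩ := pH _ hh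
      obtain ⟨t', -, -, ht3'⟩ := pH _ he1
      have heE : (e.1, e.2) ∈ E := (List.isChain_cons_cons.1 ht3').1
      refine ⟨Sum.inl r' :: t, ?_, ?_, ?_⟩
      · simp only [List.length_cons] at ht1 ⊢
        omega
      · refine List.pairwise_cons.2 ⟨?_, ht2⟩
        intro z hz
        rcases z with r | c
        · change e.1 < r
          rcases List.mem_cons.1 hz with h | h
          · exact absurd h (by simp)
          · rcases List.mem_cons.1 h with h | h
            · have : r = r' := by simpa using h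
              rw [this]; exact hr
            · have h3 := (List.pairwise_cons.1 (List.pairwise_cons.1 ht2).2).1 _ h
              exact hr.trans h3
        · trivial
      · exact List.isChain_cons_cons.2 ⟨heE, ht3⟩

/-- STAIRCASE. A 0-1 matrix with at most `M` rows and columns and more than `k M` ones contains an
increasing path with `k + 2` vertices. -/
theorem stair (E : Finset (ι × κ)) (M : ℕ) (h1 : Fintype.card ι ≤ M) (h2 : Fintype.card κ ≤ M)
    (k : ℕ) (h : k * M < E.card) :
    ∃ p : List (ι ⊕ κ), p.length = k + 2 ∧ p.Pairwise Q ∧ p.IsChain (S E) := by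
  obtain ⟨H, W, hH, -, pH, -⟩ := stair_aux E M h1 h2 k
  have : 0 < H.card := by omega
  obtain ⟨e, he⟩ := Finset.card_pos.1 this
  obtain ⟨t, a, b, c⟩ := pH e he
  exact ⟨_, a, b, c⟩

end H38Q
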