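import Pool.Agent.Lib.H38Q.Defs

/-!
# H38Q, file S4: the two rotations at `u` and `v`, and the cuts
-/

open H53P

namespace H38Q

variable {V : Type*} {T : Table V}

/-- the reversed rotation, with the same first element -/
theorem s4_flip {u v : V} (huv : u ≠ v) {ρ : V → ℝ} (h : T.Ord v ρ)
    (hm : ∀ x, x ≠ v → x ≠ u → ρ u < ρ x) : ∃ ρ' : V → ℝ, T.Ord v ρ' ∧
      (∀ x, x ≠ v → x ≠ u → ρ' u < ρ' x) ∧
      ∀ x y, x ≠ v → x ≠ u → y ≠ v → y ≠ u → (ρ' x < ρ' y ↔ ρ y < ρ x) := by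
  classical
  have hval : ∀ x, x ≠ u → (fun z => if z = u then (-10 : ℝ) else -Real.arctan (ρ z)) x =
      -Real.arctan (ρ x) := fun x hx => by simp [hx]
  have hvu : (fun z => if z = u then (-10 : ℝ) else -Real.arctan (ρ z)) u = -10 := by simp
  have hat : ∀ s t : ℝ, (-Real.arctan s < -Real.arctan t ↔ t < s) := fun s t => by
    rw [neg_lt_neg_iff]
    exact Real.arctan_strictMono.lt_iff_lt
  have hlow : ∀ s : ℝ, (-10 : ℝ) < -Real.arctan s := by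
    intro s
    have h1 := Real.arctan_lt_pi_div_two s
    have h3 := Real.pi_lt_four
    linarith
  generalize hg : (fun z => if z = u then (-10 : ℝ) else -Real.arctan (ρ z)) = ρ' at hval hvu
  have hb0 : ∀ a b c : V, a ≠ u → b ≠ u → c ≠ u →
      H53P.btw (ρ' a) (ρ' b) (ρ' c) = H53P.btw (ρ a) (ρ b) (ρ c) := by
    intro a b c ha hb hc
    unfold H53P.btw
    rw [hval a ha, hval b hb, hval c hc]
    simp only [hat]
    rw [Bool.or_comm]
    congr 1 <;> rw [decide_eq_decide] <;> exact and_comm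
  have hb1 : ∀ b c : V, b ≠ u → c ≠ u → b ≠ v → c ≠ v → b ≠ c →
      H53P.btw (ρ' u) (ρ' b) (ρ' c) = !H53P.btw (ρ u) (ρ b) (ρ c) := by
    intro b c hb hc hbv hcv hbc
    rw [cc3_btw (by rw [hvu, hval b hb]; exact hlow _) (by rw [hvu, hval c hc]; exact hlow _),
      cc3_btw (hm b hbv hb) (hm c hcv hc), hval b hb, hval c hc]
    simp only [hat]
    exact cc3_flip (fun he => hbc (h.1 b c hbv hcv he))
  have hb1' : ∀ b c : V, b ≠ u → c ≠ u → b ≠ v → c ≠ v → b ≠ c →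
      H53P.btw (ρ' b) (ρ' u) (ρ' c) = !H53P.btw (ρ b) (ρ u) (ρ c) := by
    intro b c hb hc hbv hcv hbc
    have hc' : ∀ x y z : ℝ, H53P.btw x y z = H53P.btw y x z := fun x y z => by
      unfold H53P.btw
      rw [Bool.or_comm]
    rw [hc' (ρ' b), hc' (ρ b)]
    exact hb1 b c hb hc hbv hcv hbc
  have hb2 : ∀ a b : V, a ≠ u → b ≠ u → a ≠ v → b ≠ v →
      H53P.btw (ρ' a) (ρ' b) (ρ' u) = false ∧ H53P.btw (ρ a) (ρ b) (ρ u) = false := by
    intro a b ha hb hav hbv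
    constructor
    · unfold H53P.btw
      have h1 : ρ' u < ρ' a := by rw [hvu, hval a ha]; exact hlow _
      have h2 : ρ' u < ρ' b := by rw [hvu, hval b hb]; exact hlow _
      simp [not_lt.2 h1.le, not_lt.2 h2.le]
    · unfold H53P.btw
      have h1 := hm a hav ha
      have h2 := hm b hbv hb
      simp [not_lt.2 h1.le, not_lt.2 h2.le]
  refine ⟨ρ', ⟨?_, ?_⟩, ?_, ?_⟩
  · intro x y hx hy he
    by_cases hxu : x = u
    · by_cases hyu : y = u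
      · rw [hxu, hyu]
      · rw [hxu, hvu, hval y hyu] at he
        exact absurd he (hlow _).ne
    · by_cases hyu : y = u
      · rw [hyu, hvu, hval x hxu] at he
        exact absurd he (hlow _).ne'
      · rw [hval x hxu, hval y hyu] at he
        exact h.1 x y hx hy (Real.arctan_strictMono.injective (neg_injective he))
  · intro p q x y hp hq hx hy hpq hpx hpy hqx hqy hxy
    rw [h.2 p q x y hp hq hx hy hpq hpx hpy hqx hqy hxy]
    by_cases h1 : p = u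
    · subst h1
      rw [hb1 q x (Ne.symm hpq) (Ne.symm hpx) hq hx hqx, hb1 q y (Ne.symm hpq) (Ne.symm hpy) hq hy hqy]
      simp
    · by_cases h2 : q = u
      · subst h2
        rw [hb1' p x h1 (Ne.symm hqx) hp hx hpx, hb1' p y h1 (Ne.symm hqy) hp hy hpy]
        simp
      · by_cases h3 : x = u
        · subst h3
          rw [(hb2 p q h1 h2 hp hq).1, (hb2 p q h1 h2 hp hq).2,
            hb0 p q y h1 h2 (Ne.symm hxy)]
        · by_cases h4 : y = u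
          · subst h4
            rw [(hb2 p q h1 h2 hp hq).1, (hb2 p q h1 h2 hp hq).2, hb0 p q x h1 h2 h3]
          · rw [hb0 p q x h1 h2 h3, hb0 p q y h1 h2 h4]
  · intro x _ hxu
    rw [hvu, hval x hxu]
    exact hlow _
  · intro x y _ hxu _ hyu
    rw [hval x hxu, hval y hyu]
    exact hat _ _

/-- the rotations at `u` and at `v`, in opposite orientations -/
theorem s4_pair (T : Table V) {u v : V} (huv : u ≠ v) : ∃ ρ ρ' : V → ℝ, T.Ord u ρ ∧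
    (∀ x, x ≠ u → x ≠ v → ρ v < ρ x) ∧ T.Ord v ρ' ∧ (∀ x, x ≠ v → x ≠ u → ρ' u < ρ' x) ∧
    ∀ x y, x ≠ u → x ≠ v → y ≠ u → y ≠ v → x ≠ y →
      (T.adj u v x y = false ↔ (ρ x < ρ y ↔ ρ' y < ρ' x)) := by
  obtain ⟨ρ, hρ1, hρ2, hρ3⟩ := T.rot u v huv
  obtain ⟨ρ', hρ1', hρ2', hρ3'⟩ := T.rot v u huv.symm
  have key : ∀ x y z, (x ≠ u ∧ x ≠ v) → (y ≠ u ∧ y ≠ v) → (z ≠ u ∧ z ≠ v) → x ≠ y → x ≠ z →
      y ≠ z → (T.adj u v x y ^^ (decide (ρ y < ρ x) ^^ decide (ρ' y < ρ' x))) =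
        (T.adj u v x z ^^ (decide (ρ z < ρ x) ^^ decide (ρ' z < ρ' x))) := by
    intro x y z hx hy hz hxy hxz hyz
    have h1 := hρ3 v x y z huv.symm hx.1 hy.1 hz.1 hx.2.symm hy.2.symm hz.2.symm hxy hxz hyz
    have h2 := hρ3' u x y z huv hx.2 hy.2 hz.2 hx.1.symm hy.1.symm hz.1.symm hxy hxz hyz
    rw [cc3_btw (hρ1 x hx.1 hx.2) (hρ1 y hy.1 hy.2),
      cc3_btw (hρ1 x hx.1 hx.2) (hρ1 z hz.1 hz.2)] at h1
    rw [cc3_btw (hρ1' x hx.2 hx.1) (hρ1' y hy.2 hy.1),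
      cc3_btw (hρ1' x hx.2 hx.1) (hρ1' z hz.2 hz.1)] at h2
    unfold altX at h1 h2
    rw [T.symm1 v u y z, T.symm1 u v y z] at h2
    rw [(cc1_adj T u v x y).1, (cc1_adj T u v x z).1, T.symm2 u y v x, T.symm2 u z v x]
    rw [T.symm1 v u y z] at h2
    have h3 := cc3_b1 _ _ _ _ _ _ _ h1
    have h4 := cc3_b1 _ _ _ _ _ _ _ h2
    rw [Bool.xor_comm (T.X v x y z)] at h4
    exact cc3_b2 _ _ _ _ _ _ _ _ (h3.symm.trans h4)
  have hne : ∀ x y, (x ≠ u ∧ x ≠ v) → (y ≠ u ∧ y ≠ v) → x ≠ y → ρ x ≠ ρ y ∧ ρ' x ≠ ρ' y :=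
    fun x y hx hy hxy => ⟨fun h => hxy (hρ2 x y hx.1 hy.1 h), fun h => hxy (hρ2' x y hx.2 hy.2 h)⟩
  obtain ⟨c, hc⟩ := cc3_const (fun x => x ≠ u ∧ x ≠ v)
    (fun x y => (T.adj u v x y ^^ (decide (ρ y < ρ x) ^^ decide (ρ' y < ρ' x))))
    (fun x y hx hy hxy => by
      obtain ⟨h1, h2⟩ := hne x y hx hy hxy
      rw [(cc1_adj T u v x y).2.1, cc3_flip h1.symm, cc3_flip h2.symm]
      generalize T.adj u v y x = a
      generalize decide (ρ x < ρ y) = b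
      generalize decide (ρ' x < ρ' y) = d
      revert a b d
      decide) key
  cases c
  · obtain ⟨ρ'', h1, h2, h3⟩ := s4_flip huv (T := T) (ρ := ρ') ⟨hρ2', hρ3'⟩ hρ1'
    refine ⟨ρ, ρ'', ⟨hρ2, hρ3⟩, hρ1, h1, h2, fun x y hxu hxw hyu hyw hxy => ?_⟩
    rw [h3 y x hyw hyu hxw hxu]
    have h4 := hc y x ⟨hyu, hyw⟩ ⟨hxu, hxw⟩ hxy.symm
    rw [← (cc1_adj T u v x y).2.1] at h4
    rw [← decide_eq_decide (p := ρ x < ρ y)]
    exact cc3_b3 _ _ _ h4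
  · refine ⟨ρ, ρ', ⟨hρ2, hρ3⟩, hρ1, ⟨hρ2', hρ3'⟩, hρ1', fun x y hxu hxw hyu hyw hxy => ?_⟩
    have h1 := hc y x ⟨hyu, hyw⟩ ⟨hxu, hxw⟩ hxy.symm
    obtain ⟨-, h4⟩ := hne x y ⟨hxu, hxw⟩ ⟨hyu, hyw⟩ hxy
    rw [← (cc1_adj T u v x y).2.1, cc3_flip h4] at h1
    rw [← decide_eq_decide (p := ρ x < ρ y)]
    exact cc3_b4 _ _ _ h1

theorem s4_adj {u v x a : V} (h : T.X u v x a = true) : T.adj u v x a = false := by
  unfold Table.adj
  have h1 := T.one u v x a h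
  have h2 : T.X u v a x = true := by
    rw [T.symm2, T.symm1, ← T.symm2]; exact h
  have h3 := T.one u v a x h2
  rw [h1, h3]
  rfl

end H38Q
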