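import Pool.Agent.Lib.H38Q.S4

/-!
# H38Q, file S5: cutting both rotations
-/

open H53P

namespace H38Q

variable {V : Type*} {T : Table V}

open Finset in
/-- few elements are close behind `x` -/
theorem s5_close [Fintype V] (f : V → ℝ) (W : Finset V)
    (hf : ∀ a ∈ W, ∀ b ∈ W, f a = f b → a = b) (x : V) (m : ℕ) :
    (W.filter fun a => f x < f a ∧ (univ.filter fun s => f x ≤ f s ∧ f s < f a).card < m).card
      ≤ m := by
  classical
  set S := W.filter fun a => f x < f a ∧ (univ.filter fun s => f x ≤ f s ∧ f s < f a).card < m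
    with hS
  rcases S.eq_empty_or_nonempty with h | h
  · rw [h]; simp
  · obtain ⟨a, ha, hmax⟩ := S.exists_max_image f h
    have ha' := (mem_filter.1 (hS ▸ ha))
    have hsub : S.erase a ⊆ univ.filter fun s => f x ≤ f s ∧ f s < f a := by
      intro s hs
      have hs' := (mem_filter.1 (hS ▸ (mem_of_mem_erase hs)))
      refine mem_filter.2 ⟨mem_univ _, hs'.2.1.le, lt_of_le_of_ne (hmax s (mem_of_mem_erase hs)) ?_⟩
      intro he
      exact ne_of_mem_erase hs (hf s hs'.1 a ha'.1 he)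
    have h1 := card_le_card hsub
    rw [card_erase_of_mem ha] at h1
    have h2 := ha'.2.2
    omega

open Finset in
/-- CUTS. -/
theorem s5_cut (T : Table V) [Fintype V] {u v : V} (huv : u ≠ v) (m R : ℕ)
    (hR : 2 * R + 4 * (m * Fintype.card V) ≤
      (univ.filter fun p : V × V => T.X u v p.1 p.2 = true).card) :
    ∃ (ρ ρ' : V → ℝ) (X A : Finset V), Fr T u v ρ X A ∧ Fr T v u ρ' A X ∧
      R * (m * m) ≤ Fintype.card V * Fintype.card V *
        ((X ×ˢ A).filter fun p : V × V => T.X u v p.1 p.2 = true).card := by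
  classical
  obtain ⟨ρ, ρ', hρ, hρm, hρ', hρm', hadj⟩ := s4_pair T huv
  have hX : ∀ x a, T.X u v x a = true → x ≠ u ∧ x ≠ v ∧ a ≠ u ∧ a ≠ v ∧ x ≠ a := by
    intro x a h
    obtain ⟨-, h1, h2, h3, h4, h5⟩ := T.ne u v x a h
    exact ⟨h2.symm, h4.symm, h3.symm, h5.symm, h1⟩
  have hor : ∀ x a, T.X u v x a = true → (ρ x < ρ a ↔ ρ' a < ρ' x) := by
    intro x a h
    obtain ⟨h1, h2, h3, h4, h5⟩ := hX x a h
    exact (hadj x a h1 h2 h3 h4 h5).1 (s4_adj h)
  set n := Fintype.card V with hn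
  set K := univ.filter fun p : V × V => T.X u v p.1 p.2 = true with hK
  set K1 := K.filter fun p : V × V => ρ p.1 < ρ p.2 with hK1
  have c1 : K.card ≤ 2 * K1.card := by
    have h1 : K ⊆ K1 ∪ K1.image Prod.swap := by
      intro p hp
      have hp1 := (mem_filter.1 (hK ▸ hp)).2
      obtain ⟨h1, h2, h3, h4, h5⟩ := hX _ _ hp1
      rcases lt_trichotomy (ρ p.1) (ρ p.2) with h | h | h
      · exact mem_union_left _ (mem_filter.2 ⟨hp, h⟩)
      · exact absurd (hρ.1 _ _ h1 h3 h) h5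
      · refine mem_union_right _ (mem_image.2 ⟨(p.2, p.1), mem_filter.2 ⟨?_, h⟩, by simp⟩)
        refine mem_filter.2 ⟨mem_univ _, ?_⟩
        rw [T.symm2, T.symm1, ← T.symm2]
        exact hp1
    calc K.card ≤ (K1 ∪ K1.image Prod.swap).card := card_le_card h1
      _ ≤ K1.card + (K1.image Prod.swap).card := card_union_le _ _
      _ ≤ K1.card + K1.card := Nat.add_le_add_left card_image_le _
      _ = 2 * K1.card := by ring
  set D := fun p : V × V => (univ.filter fun s => ρ p.1 ≤ ρ s ∧ ρ s < ρ p.2).card with hD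
  set D' := fun p : V × V => (univ.filter fun s => ρ' p.2 < ρ' s ∧ ρ' s ≤ ρ' p.1).card with hD'
  set K2 := K1.filter fun p => m ≤ D p ∧ m ≤ D' p with hK2
  have b1 : (K1.filter fun p => D p < m).card ≤ n * m := by
    have h1 : (K1.filter fun p => D p < m) ⊆ (univ : Finset V).biUnion fun x =>
        ((univ.filter fun a => a ≠ u).filter fun a => ρ x < ρ a ∧
          (univ.filter fun s => ρ x ≤ ρ s ∧ ρ s < ρ a).card < m).image fun a => (x, a) := by
      intro p hp
      obtain ⟨hp1, hp2⟩ := mem_filter.1 hp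
      obtain ⟨hp3, hp4⟩ := mem_filter.1 (hK1 ▸ hp1)
      have hp5 := (mem_filter.1 (hK ▸ hp3)).2
      refine mem_biUnion.2 ⟨p.1, mem_univ _, mem_image.2 ⟨p.2, ?_, rfl⟩⟩
      exact mem_filter.2 ⟨mem_filter.2 ⟨mem_univ _, (hX _ _ hp5).2.2.1⟩, hp4, hp2⟩
    calc _ ≤ _ := card_le_card h1
      _ ≤ ∑ x : V, _ := card_biUnion_le
      _ ≤ ∑ _x : V, m := by
        refine sum_le_sum fun x _ => card_image_le.trans ?_
        refine s5_close ρ _ ?_ x m
        intro a ha b hb he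
        exact hρ.1 a b (mem_filter.1 ha).2 (mem_filter.1 hb).2 he
      _ = n * m := by rw [sum_const, card_univ, smul_eq_mul]
  have b2 : (K1.filter fun p => D' p < m).card ≤ n * m := by
    have h1 : (K1.filter fun p => D' p < m) ⊆ (univ : Finset V).biUnion fun x =>
        ((univ.filter fun a => a ≠ v).filter fun a => -ρ' x < -ρ' a ∧
          (univ.filter fun s => -ρ' x ≤ -ρ' s ∧ -ρ' s < -ρ' a).card < m).image fun a => (x, a) := by
      intro p hp
      obtain ⟨hp1, hp2⟩ := mem_filter.1 hp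
      obtain ⟨hp3, hp4⟩ := mem_filter.1 (hK1 ▸ hp1)
      have hp5 := (mem_filter.1 (hK ▸ hp3)).2
      refine mem_biUnion.2 ⟨p.1, mem_univ _, mem_image.2 ⟨p.2, ?_, rfl⟩⟩
      refine mem_filter.2 ⟨mem_filter.2 ⟨mem_univ _, (hX _ _ hp5).2.2.2.1⟩,
        neg_lt_neg ((hor _ _ hp5).1 hp4), ?_⟩
      have h2 : (univ.filter fun s => -ρ' p.1 ≤ -ρ' s ∧ -ρ' s < -ρ' p.2) =
          univ.filter fun s => ρ' p.2 < ρ' s ∧ ρ' s ≤ ρ' p.1 := by
        refine filter_congr fun s _ => ?_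
        rw [neg_le_neg_iff, neg_lt_neg_iff]
        exact and_comm
      rw [h2]
      exact hp2
    calc _ ≤ _ := card_le_card h1
      _ ≤ ∑ x : V, _ := card_biUnion_le
      _ ≤ ∑ _x : V, m := by
        refine sum_le_sum fun x _ => card_image_le.trans ?_
        refine s5_close (fun z => -ρ' z) _ ?_ x m
        intro a ha b hb he
        exact hρ'.1 a b (mem_filter.1 ha).2 (mem_filter.1 hb).2 (neg_injective he)
      _ = n * m := by rw [sum_const, card_univ, smul_eq_mul]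
  have c2 : K1.card ≤ K2.card + n * m + n * m := by
    have h1 : K1 ⊆ (K2 ∪ K1.filter fun p => D p < m) ∪ K1.filter fun p => D' p < m := by
      intro p hp
      by_cases h2 : D p < m
      · exact mem_union_left _ (mem_union_right _ (mem_filter.2 ⟨hp, h2⟩))
      · by_cases h3 : D' p < m
        · exact mem_union_right _ (mem_filter.2 ⟨hp, h3⟩)
        · exact mem_union_left _ (mem_union_left _ (mem_filter.2 ⟨hp, not_lt.1 h2, not_lt.1 h3⟩))
    have h2 := (card_le_card h1).trans (card_union_le _ _)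
    have h3 := card_union_le K2 (K1.filter fun p => D p < m)
    omega
  have c3 : R ≤ K2.card := by
    have : m * n = n * m := mul_comm _ _
    omega
  -- double counting
  set C := fun q : V × V => (K2.filter fun p : V × V =>
    (ρ p.1 ≤ ρ q.1 ∧ ρ q.1 < ρ p.2) ∧ (ρ' p.2 < ρ' q.2 ∧ ρ' q.2 ≤ ρ' p.1)).card with hC
  have s1 : ∑ q : V × V, C q = ∑ p ∈ K2, D p * D' p := by
    have h1 : ∀ q : V × V, C q = ∑ p ∈ K2, if ((ρ p.1 ≤ ρ q.1 ∧ ρ q.1 < ρ p.2) ∧
        (ρ' p.2 < ρ' q.2 ∧ ρ' q.2 ≤ ρ' p.1)) then 1 else 0 := by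
      intro q
      exact card_filter _ _
    rw [sum_congr rfl fun q _ => h1 q, sum_comm]
    refine sum_congr rfl fun p _ => ?_
    have h2 : D p * D' p = ((univ.filter fun s => ρ p.1 ≤ ρ s ∧ ρ s < ρ p.2) ×ˢ
        (univ.filter fun s => ρ' p.2 < ρ' s ∧ ρ' s ≤ ρ' p.1)).card := (card_product _ _).symm
    rw [h2, ← card_filter]
    congr 1
    ext q
    simp only [mem_filter, mem_univ, true_and, mem_product]
  have s2 : R * (m * m) ≤ ∑ q : V × V, C q := by
    rw [s1]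
    calc R * (m * m) ≤ K2.card * (m * m) := Nat.mul_le_mul_right _ c3
      _ = ∑ _p ∈ K2, m * m := by rw [sum_const, smul_eq_mul]
      _ ≤ _ := sum_le_sum fun p hp => Nat.mul_le_mul (mem_filter.1 hp).2.1 (mem_filter.1 hp).2.2
  obtain ⟨q, -, hq⟩ := (univ : Finset (V × V)).exists_max_image C ⟨(u, u), mem_univ _⟩
  have s3 : ∑ q' : V × V, C q' ≤ n * n * C q := by
    calc ∑ q' : V × V, C q' ≤ ∑ _q' : V × V, C q := sum_le_sum fun q' h => hq q' h
      _ = n * n * C q := by rw [sum_const, card_univ, Fintype.card_prod, smul_eq_mul]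
  refine ⟨ρ, ρ', univ.filter fun x => (x ≠ u ∧ x ≠ v) ∧ ρ x ≤ ρ q.1 ∧ ρ' q.2 ≤ ρ' x,
    univ.filter fun a => (a ≠ u ∧ a ≠ v) ∧ ρ q.1 < ρ a ∧ ρ' a < ρ' q.2, ?_, ?_, ?_⟩
  · refine ⟨hρ, huv, hρm, fun x hx => (mem_filter.1 hx).2.1, fun a ha => (mem_filter.1 ha).2.1, ?_, ?_⟩
    · intro x hx a ha
      exact lt_of_le_of_lt (mem_filter.1 hx).2.2.1 (mem_filter.1 ha).2.2.1
    · intro x hx a ha
      have hx' := (mem_filter.1 hx).2
      have ha' := (mem_filter.1 ha).2
      have h1 : ρ x < ρ a := lt_of_le_of_lt hx'.2.1 ha'.2.1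
      have h2 : ρ' a < ρ' x := lt_of_lt_of_le ha'.2.2 hx'.2.2
      refine (hadj x a hx'.1.1 hx'.1.2 ha'.1.1 ha'.1.2 ?_).2 ⟨fun _ => h2, fun _ => h1⟩
      intro he
      rw [he] at h1
      exact lt_irrefl _ h1
  · refine ⟨hρ', huv.symm, hρm', fun a ha => (mem_filter.1 ha).2.1.symm,
      fun x hx => (mem_filter.1 hx).2.1.symm, ?_, ?_⟩
    · intro a ha x hx
      exact lt_of_lt_of_le (mem_filter.1 ha).2.2.2 (mem_filter.1 hx).2.2.2
    · intro a ha x hx
      have hx' := (mem_filter.1 hx).2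
      have ha' := (mem_filter.1 ha).2
      have h1 : ρ x < ρ a := lt_of_le_of_lt hx'.2.1 ha'.2.1
      have h2 : ρ' a < ρ' x := lt_of_lt_of_le ha'.2.2 hx'.2.2
      have h3 : T.adj u v x a = false := by
        refine (hadj x a hx'.1.1 hx'.1.2 ha'.1.1 ha'.1.2 ?_).2 ⟨fun _ => h2, fun _ => h1⟩
        intro he
        rw [he] at h1
        exact lt_irrefl _ h1
      rw [← h3]
      unfold Table.adj
      rw [T.symm2 v a u x, T.symm2 v x u a, Bool.or_comm]
  · refine s2.trans (s3.trans (Nat.mul_le_mul_left _ (card_le_card ?_)))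
    intro p hp
    obtain ⟨hp1, ⟨h1, h2⟩, h3, h4⟩ := mem_filter.1 hp
    have hp2 := (mem_filter.1 (hK ▸ (mem_filter.1 (hK1 ▸ (mem_filter.1 (hK2 ▸ hp1)).1)).1)).2
    obtain ⟨g1, g2, g3, g4, -⟩ := hX _ _ hp2
    refine mem_filter.2 ⟨mem_product.2 ⟨mem_filter.2 ⟨mem_univ _, ⟨g1, g2⟩, h1, h4⟩,
      mem_filter.2 ⟨mem_univ _, ⟨g3, g4⟩, h2, h3⟩⟩, hp2⟩

end H38Q
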