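import Pool.Agent.Lib.H38Q.S5
import Pool.Agent.Lib.H38Q.F

/-!
# H38Q, file S6: an edge with many crossings (F4)
-/

open H53P

namespace H38Q

variable {V : Type*} {T : Table V}

/-- the fifteen possible crossings of five points; the last entry is the missing point -/
def pat : Fin 15 → Fin 5 → Fin 5 :=
  ![![0, 1, 2, 3, 4], ![0, 2, 1, 3, 4], ![0, 3, 1, 2, 4], ![0, 1, 2, 4, 3], ![0, 2, 1, 4, 3],
    ![0, 4, 1, 2, 3], ![0, 1, 3, 4, 2], ![0, 3, 1, 4, 2], ![0, 4, 1, 3, 2], ![0, 2, 3, 4, 1],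
    ![0, 3, 2, 4, 1], ![0, 4, 2, 3, 1], ![1, 2, 3, 4, 0], ![1, 3, 2, 4, 0], ![1, 4, 2, 3, 0]]

theorem pat_surj : ∀ i : Fin 15, ∀ z : Fin 5, ∃ w, pat i w = z := by decide

theorem s6_five {t : Fin 5 → V} (ht : Function.Injective t) : ∃ i : Fin 15,
    T.X (t (pat i 0)) (t (pat i 1)) (t (pat i 2)) (t (pat i 3)) = true := by
  have hn : [t 0, t 1, t 2, t 3, t 4].Nodup := by
    have h0 : ([0, 1, 2, 3, 4] : List (Fin 5)).Nodup := by decide
    have := h0.map ht
    simpa using this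
  have h := f_five (T := T) hn
  simp only [Bool.or_eq_true] at h
  rcases h with (((((h | h) | h) | ((h | h) | h)) | ((h | h) | h)) | ((h | h) | h)) | ((h | h) | h)
  · exact ⟨0, h⟩
  · exact ⟨1, h⟩
  · exact ⟨2, h⟩
  · exact ⟨3, h⟩
  · exact ⟨4, h⟩
  · exact ⟨5, h⟩
  · exact ⟨6, h⟩
  · exact ⟨7, h⟩
  · exact ⟨8, h⟩
  · exact ⟨9, h⟩
  · exact ⟨10, h⟩
  · exact ⟨11, h⟩
  · exact ⟨12, h⟩
  · exact ⟨13, h⟩
  · exact ⟨14, h⟩

open Finset in
/-- (F4) some edge `uv` is crossed by many edges -/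
theorem s6_f4 (T : Table V) [Fintype V] (hn : 0 < Fintype.card V) : ∃ u v : V,
    (Fintype.card V - 4) ^ 5 ≤ 15 * Fintype.card V ^ 3 *
      (univ.filter fun p : V × V => T.X u v p.1 p.2 = true).card := by
  classical
  set n := Fintype.card V with hnn
  set P := univ.filter fun t : Fin 5 → V => Function.Injective t with hP
  have hcard : (n - 4) ^ 5 ≤ P.card := by
    have h1 : P.card = Fintype.card (Fin 5 ↪ V) := by
      rw [hP, ← Fintype.card_subtype]
      exact (Fintype.card_congr (Equiv.subtypeInjectiveEquivEmbedding (Fin 5) V))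
    rw [h1, Fintype.card_embedding_eq, Fintype.card_fin]
    have h2 := Nat.pow_sub_le_descFactorial n 5
    have h3 : n + 1 - 5 = n - 4 := by omega
    rwa [h3] at h2
  set C := univ.filter fun q : (V × V) × (V × V) => T.X q.1.1 q.1.2 q.2.1 q.2.2 = true with hC
  have hB : ∀ i : Fin 15, (univ.filter fun t : Fin 5 → V =>
      T.X (t (pat i 0)) (t (pat i 1)) (t (pat i 2)) (t (pat i 3)) = true).card ≤ C.card * n := by
    intro i
    have h1 : (C ×ˢ (univ : Finset V)).card = C.card * n := by rw [card_product, card_univ]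
    rw [← h1]
    refine card_le_card_of_injOn (fun t => (((t (pat i 0), t (pat i 1)), (t (pat i 2), t (pat i 3))),
      t (pat i 4))) ?_ ?_
    · intro t ht
      have ht' := (mem_filter.1 (mem_coe.1 ht)).2
      exact mem_coe.2 (mem_product.2 ⟨mem_filter.2 ⟨mem_univ _, ht'⟩, mem_univ _⟩)
    · intro t _ t' _ he
      simp only [Prod.mk.injEq] at he
      obtain ⟨⟨⟨h0, h1⟩, h2, h3⟩, h4⟩ := he
      funext z
      obtain ⟨w, rfl⟩ := pat_surj i z
      fin_cases w
      · exact h0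
      · exact h1
      · exact h2
      · exact h3
      · exact h4
  have hle : P.card ≤ 15 * (C.card * n) := by
    have h1 : P ⊆ (univ : Finset (Fin 15)).biUnion fun i => univ.filter fun t : Fin 5 → V =>
        T.X (t (pat i 0)) (t (pat i 1)) (t (pat i 2)) (t (pat i 3)) = true := by
      intro t ht
      obtain ⟨i, hi⟩ := s6_five (T := T) (mem_filter.1 ht).2
      exact mem_biUnion.2 ⟨i, mem_univ _, mem_filter.2 ⟨mem_univ _, hi⟩⟩
    calc P.card ≤ _ := card_le_card h1
      _ ≤ ∑ i : Fin 15, _ := card_biUnion_le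
      _ ≤ ∑ _i : Fin 15, C.card * n := sum_le_sum fun i _ => hB i
      _ = 15 * (C.card * n) := by rw [sum_const, card_univ, Fintype.card_fin, smul_eq_mul]
  have hV : Nonempty V := Fintype.card_pos_iff.1 hn
  obtain ⟨w⟩ := hV
  obtain ⟨q, -, hq⟩ := (univ : Finset (V × V)).exists_max_image
    (fun q => (univ.filter fun p : V × V => T.X q.1 q.2 p.1 p.2 = true).card) ⟨(w, w), mem_univ _⟩
  refine ⟨q.1, q.2, ?_⟩
  have hC2 : C.card ≤ n * n * (univ.filter fun p : V × V => T.X q.1 q.2 p.1 p.2 = true).card := by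
    have h1 : C ⊆ (univ : Finset (V × V)).biUnion fun r =>
        (univ.filter fun p : V × V => T.X r.1 r.2 p.1 p.2 = true).image fun p => (r, p) := by
      intro c hc
      exact mem_biUnion.2 ⟨c.1, mem_univ _, mem_image.2 ⟨c.2, mem_filter.2 ⟨mem_univ _,
        (mem_filter.1 hc).2⟩, rfl⟩⟩
    calc C.card ≤ _ := card_le_card h1
      _ ≤ ∑ r : V × V, _ := card_biUnion_le
      _ ≤ ∑ _r : V × V, (univ.filter fun p : V × V => T.X q.1 q.2 p.1 p.2 = true).card :=
        sum_le_sum fun r _ => card_image_le.trans (hq r (mem_univ _))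
      _ = _ := by rw [sum_const, card_univ, Fintype.card_prod, smul_eq_mul]
  calc (n - 4) ^ 5 ≤ P.card := hcard
    _ ≤ 15 * (C.card * n) := hle
    _ ≤ 15 * ((n * n * (univ.filter fun p : V × V => T.X q.1 q.2 p.1 p.2 = true).card) * n) :=
      Nat.mul_le_mul_left _ (Nat.mul_le_mul_right _ hC2)
    _ = _ := by ring

end H38Q
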