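import Pool.Agent.Lib.H38Q.F

/-!
# H38Q, file S7: the order of the crossing edges at a point
-/

open H53P

namespace H38Q

variable {V : Type*} {T : Table V} {u v : V} {ρ : V → ℝ} {X A : Finset V}

/-- the order of the edges `xa` which cross `uv`, at `x` -/
theorem s7_star (h : Fr T u v ρ X A) {x : V} (hx : x ∈ X) : ∃ τ : V → ℝ, Star T u v ρ X A x τ := by
  have hxu := h.xu x hx
  obtain ⟨σ, hσ, hσm⟩ := T.ord_exists (a := x) (w := u) hxu.1
  have hne : ∀ a, T.X u v x a = true → a ≠ x ∧ a ≠ u ∧ a ≠ v := by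
    intro a ha
    obtain ⟨-, h1, -, h3, -, h5⟩ := T.ne u v x a ha
    exact ⟨h1.symm, h3.symm, h5.symm⟩
  have halt : ∀ a b, T.X u v x a = true → T.X u v x b = true → a ≠ b →
      T.alt x u b a v = (decide (σ a < σ b) ^^ decide (σ v < σ b)) := by
    intro a b ha hb hab
    obtain ⟨a1, a2, a3⟩ := hne a ha
    obtain ⟨b1, b2, b3⟩ := hne b hb
    rw [hσ.2 u b a v hxu.1.symm b1 a1 hxu.2.symm b2.symm a2.symm h.ne hab.symm b3 a3,
      cc3_btw (hσm b b1 b2) (hσm a a1 a2), cc3_btw (hσm b b1 b2) (hσm v hxu.2.symm h.ne.symm)]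
  have hside : ∀ a b, a ∈ A → b ∈ A → T.X u v x a = true → T.X u v x b = true →
      (σ a < σ v ↔ σ b < σ v) := by
    intro a b haA hbA ha hb
    by_cases hab : a = b
    · rw [hab]
    obtain ⟨a1, a2, a3⟩ := hne a ha
    obtain ⟨b1, b2, b3⟩ := hne b hb
    have h1 := f_sep h hx haA hbA hab ha hb
    rw [hσ.2 u v a b hxu.1.symm hxu.2.symm a1 b1 h.ne a2.symm b2.symm a3.symm b3.symm hab,
      cc3_btw (hσm v hxu.2.symm h.ne.symm) (hσm a a1 a2),
      cc3_btw (hσm v hxu.2.symm h.ne.symm) (hσm b b1 b2)] at h1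
    rw [← decide_eq_decide]
    have hpq : ∀ p q : Bool, (p ^^ q) = false → p = q := by decide
    exact hpq _ _ h1
  -- a coordinate `τ` with the right direction
  have hτ : ∃ τ : V → ℝ, (∀ a ∈ A, ∀ b ∈ A, T.X u v x a = true → T.X u v x b = true →
      τ a = τ b → a = b) ∧ ∀ a ∈ A, ∀ b ∈ A, T.X u v x a = true → T.X u v x b = true →
      τ a < τ b → T.alt x u b a v = true := by
    by_cases hex : ∃ a ∈ A, T.X u v x a = true ∧ σ a < σ v
    · obtain ⟨a0, ha0, hX0, h0⟩ := hex
      refine ⟨σ, ?_, ?_⟩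
      · intro a _ b _ ha hb he
        exact hσ.1 a b (hne a ha).1 (hne b hb).1 he
      · intro a haA b hbA ha hb hlt
        have hab : a ≠ b := fun he => by rw [he] at hlt; exact lt_irrefl _ hlt
        rw [halt a b ha hb hab]
        have h1 : σ b < σ v := (hside a0 b ha0 hbA hX0 hb).1 h0
        simp [hlt, not_lt.2 h1.le]
    · push Not at hex
      refine ⟨fun z => -σ z, ?_, ?_⟩
      · intro a _ b _ ha hb he
        exact hσ.1 a b (hne a ha).1 (hne b hb).1 (neg_injective he)
      · intro a haA b hbA ha hb hlt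
        have hlt' : σ b < σ a := neg_lt_neg_iff.1 hlt
        have hab : a ≠ b := fun he => by rw [he] at hlt'; exact lt_irrefl _ hlt'
        rw [halt a b ha hb hab]
        have h1 : σ v ≤ σ b := hex b hbA hb
        have h2 : σ v < σ b := lt_of_le_of_ne h1 fun he =>
          (hne b hb).2.2 (hσ.1 v b hxu.2.symm (hne b hb).1 he).symm
        simp [not_lt.2 hlt'.le, h2]
  obtain ⟨τ, hinj, hτ⟩ := hτ
  have hle : ∀ a ∈ A, ∀ b ∈ A, T.X u v x a = true → T.X u v x b = true → τ a ≤ τ b → a ≠ b →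
      T.alt x u b a v = true := by
    intro a haA b hbA ha hb hab hne'
    exact hτ a haA b hbA ha hb (lt_of_le_of_ne hab fun he => hne' (hinj a haA b hbA ha hb he))
  refine ⟨τ, hinj, ?_, ?_, ?_, ?_⟩
  · intro y hy a ha b hb hyx hadj ga gb hab h1
    by_cases he : a = b
    · rw [he]; exact h1
    · exact f_m1 h hx hy ha hb he hyx hadj ga gb (hle a ha b hb ga gb hab he) h1
  · intro y hy a ha b hb hyx hadj ga gb hab h1
    by_cases he : a = b
    · rw [← he]; exact h1
    · exact f_m1' h hx hy ha hb he hyx hadj ga gb (hle a ha b hb ga gb hab he) h1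
  · intro y hy a ha b hb hyx hadj ga gb hab h1
    by_cases he : a = b
    · rw [← he]; exact h1
    · exact f_m2 h hx hy ha hb he hyx hadj ga gb (hle a ha b hb ga gb hab he) h1
  · intro y hy a ha b hb hyx hadj ga gb hab h1
    by_cases he : a = b
    · rw [he]; exact h1
    · exact f_m3 h hx hy ha hb he hyx hadj ga gb (hle a ha b hb ga gb hab he) h1

end H38Q
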