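import Pool.Agent.Lib.H38Q.F
import Pool.Agent.Lib.H38Q.S2

/-!
# H38Q, file S8: good chains

Two reference columns `c'` before `c`. The relations `al c` (edges after `c`), `be c'` (edges before
`c'`), `ga c` and `ga c'` (edges between) are transitive and any two points are comparable in one of
them.
-/

open H53P

namespace H38Q

variable {V : Type*} {T : Table V} {u v : V} {ρ : V → ℝ} {X A : Finset V}

theorem s8_adj (x y : V) (h : T.adj u v x y = false) : T.adj u v y x = false := by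
  rw [← (cc1_adj T u v x y).2.1]
  exact h

/-- the edges in interval `i` -/
def Itv (τ : V → V → ℝ) (c' c : V) (i : Fin 3) (x a : V) : Prop :=
  match i with
  | 0 => τ x c ≤ τ x a
  | 1 => τ x a ≤ τ x c'
  | 2 => τ x c' ≤ τ x a ∧ τ x a ≤ τ x c

theorem s8_al {x y : V} {σ τ : V → ℝ} (hx : x ∈ X) (hy : y ∈ X) (sx : Star T u v ρ X A x σ)
    (sy : Star T u v ρ X A y τ) {c a b : V} (hc : c ∈ A) (ha : a ∈ A) (hb : b ∈ A)
    (gxc : T.X u v x c = true) (gyc : T.X u v y c = true) (gxa : T.X u v x a = true)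
    (gyb : T.X u v y b = true) (hxa : σ c ≤ σ a) (hyb : τ c ≤ τ b) (h : al T u v ρ c x y) :
    RL T u v ρ x a y b := by
  rcases h with ⟨h1, h2, h3⟩ | h | ⟨h1, h2, h3, h4⟩
  · exact Or.inl ⟨h1, h2, sy.m1' x hx c hc b hb h1 (s8_adj _ _ h2) gyc gyb hyb h3⟩
  · exact Or.inr (Or.inr (Or.inl h))
  · refine Or.inr (Or.inr (Or.inr (Or.inr (Or.inr ⟨h1, h2, ?_, ?_⟩))))
    · by_contra hne
      rw [Bool.not_eq_false] at hne
      have := sx.m3 y hy c hc a ha h1 h2 gxc gxa hxa hne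
      rw [h3] at this
      exact Bool.false_ne_true this
    · exact sy.m2 x hx c hc b hb h1 h2 gyc gyb hyb h4

theorem s8_be {x y : V} {σ τ : V → ℝ} (hx : x ∈ X) (hy : y ∈ X) (sx : Star T u v ρ X A x σ)
    (sy : Star T u v ρ X A y τ) {c a b : V} (hc : c ∈ A) (ha : a ∈ A) (hb : b ∈ A)
    (gxc : T.X u v x c = true) (gyc : T.X u v y c = true) (gxa : T.X u v x a = true)
    (gyb : T.X u v y b = true) (hxa : σ a ≤ σ c) (hyb : τ b ≤ τ c) (h : be T u v ρ c x y) :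
    N2 T u v ρ x a y ∨ Sa T u v ρ x y ∨ Sb20 T u v ρ x a y b := by
  rcases h with ⟨h1, h2, h3⟩ | h | ⟨h1, h2, h3, h4⟩
  · exact Or.inl ⟨h1, h2, sx.m1 y hy a ha c hc h1 h2 gxa gxc hxa h3⟩
  · exact Or.inr (Or.inl h)
  · refine Or.inr (Or.inr ⟨h1, h2, ?_, ?_⟩)
    · exact sx.m3 y hy a ha c hc h1 h2 gxa gxc hxa h3
    · by_contra hne
      rw [Bool.not_eq_false] at hne
      have := sy.m2 x hx b hb c hc h1 h2 gyb gyc hyb hne
      rw [h4] at this
      exact Bool.false_ne_true this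

theorem s8_ga {x y : V} {σ τ : V → ℝ} (hx : x ∈ X) (hy : y ∈ X) (sx : Star T u v ρ X A x σ)
    (sy : Star T u v ρ X A y τ) {c' c a b : V} (hc' : c' ∈ A) (hc : c ∈ A) (ha : a ∈ A) (hb : b ∈ A)
    (gxc : T.X u v x c = true) (gyc : T.X u v y c' = true) (gxa : T.X u v x a = true)
    (gyb : T.X u v y b = true) (hxa : σ a ≤ σ c) (hyb : τ c' ≤ τ b) (h : ga T u v ρ c x y)
    (h' : ga T u v ρ c' x y) : Sb0 T u v ρ x a y b := by
  obtain ⟨h1, h2, h3, h4⟩ := h
  obtain ⟨-, -, h5, h6⟩ := h'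
  refine ⟨h1, h2, ?_, ?_⟩
  · by_contra hne
    rw [Bool.not_eq_false] at hne
    have := sx.m2 y hy a ha c hc h1 h2 gxa gxc hxa hne
    rw [h3] at this
    exact Bool.false_ne_true this
  · by_contra hne
    rw [Bool.not_eq_false] at hne
    have := sy.m3 x hx c' hc' b hb h1 h2 gyc gyb hyb hne
    rw [h6] at this
    exact Bool.false_ne_true this

/-- the three relations -/
def PP (T : Table V) (u v : V) (ρ : V → ℝ) (c' c : V) (i : Fin 3) (x y : V) : Prop :=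
  match i with
  | 0 => al T u v ρ c x y
  | 1 => be T u v ρ c' x y
  | 2 => ga T u v ρ c x y ∧ ga T u v ρ c' x y

theorem s8_irr (c' c : V) (i : Fin 3) (x : V) : ¬ PP T u v ρ c' c i x x := by
  intro h
  fin_cases i
  · rcases h with h | h | h
    · exact lt_irrefl _ h.1
    · exact lt_irrefl _ h.1
    · exact lt_irrefl _ h.1
  · rcases h with h | h | h
    · exact lt_irrefl _ h.1
    · exact lt_irrefl _ h.1
    · exact lt_irrefl _ h.1
  · exact lt_irrefl _ h.1.1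

/-- GOOD CHAINS. -/
theorem s8_chain (h : Fr T u v ρ X A) {Y : Finset V} (hY : Y ⊆ X) {c' c : V} (hc' : c' ∈ A)
    (hc : c ∈ A) (τ : V → V → ℝ) (hτ : ∀ x ∈ Y, Star T u v ρ X A x (τ x))
    (g' : ∀ x ∈ Y, T.X u v x c' = true) (g : ∀ x ∈ Y, T.X u v x c = true)
    (hlt : ∀ x ∈ Y, τ x c' ≤ τ x c) (s : ℕ) (hs : s ^ 3 < Y.card) :
    ∃ i, ∃ l : List V, l.length = s + 1 ∧ (∀ z ∈ l, z ∈ Y) ∧ l.Nodup ∧
      l.Pairwise (fun x y => ∀ a ∈ A, ∀ b ∈ A, T.X u v x a = true → T.X u v y b = true →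
        Itv τ c' c i x a → Itv τ c' c i y b → RL T u v ρ x a y b) := by
  obtain ⟨i, l, hl1, hl2, hl3⟩ := chain3 Y (PP T u v ρ c' c) (by
    intro i x hx y hy z hz h1 h2
    fin_cases i
    · exact f_al h (hY hx) (hY hy) (hY hz) hc (g x hx) (g y hy) (g z hz) h1 h2
    · exact f_be h (hY hx) (hY hy) (hY hz) hc' (g' x hx) (g' y hy) (g' z hz) h1 h2
    · exact ⟨f_ga h (hY hx) (hY hy) (hY hz) hc (g x hx) (g y hy) (g z hz) h1.1 h2.1,
        f_ga h (hY hx) (hY hy) (hY hz) hc' (g' x hx) (g' y hy) (g' z hz) h1.2 h2.2⟩) (by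
    intro x hx y hy hxy
    -- the third class at `c`
    have key : ∀ x ∈ Y, ∀ y ∈ Y, ga T u v ρ c x y →
        PP T u v ρ c' c 2 x y ∨ PP T u v ρ c' c 1 y x := by
      intro x hx y hy hg
      obtain ⟨h1, h2, h3, h4⟩ := hg
      have h5 : T.X x c' y u = false := by
        by_contra hne
        rw [Bool.not_eq_false] at hne
        have := (hτ x hx).m2 y (hY hy) c' hc' c hc h1 h2 (g' x hx) (g x hx) (hlt x hx) hne
        rw [h3] at this
        exact Bool.false_ne_true this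
      by_cases h6 : T.X y c' x u = true
      · exact Or.inr (Or.inr (Or.inr ⟨h1, h2, h6, h5⟩))
      · rw [Bool.not_eq_true] at h6
        exact Or.inl ⟨⟨h1, h2, h3, h4⟩, h1, h2, h5, h6⟩
    rcases f_total h (hY hx) (hY hy) hc hxy (g x hx) (g y hy) with h1 | h1 | h1 | h1 | h1 | h1
    · exact ⟨0, Or.inl h1⟩
    · exact ⟨0, Or.inr h1⟩
    · exact ⟨1, Or.inl (s8_be (hY hx) (hY hy) (hτ x hx) (hτ y hy) hc hc' hc' (g x hx) (g y hy)
        (g' x hx) (g' y hy) (hlt x hx) (hlt y hy) h1)⟩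
    · exact ⟨1, Or.inr (s8_be (hY hy) (hY hx) (hτ y hy) (hτ x hx) hc hc' hc' (g y hy) (g x hx)
        (g' y hy) (g' x hx) (hlt y hy) (hlt x hx) h1)⟩
    · rcases key x hx y hy h1 with h2 | h2
      · exact ⟨2, Or.inl h2⟩
      · exact ⟨1, Or.inr h2⟩
    · rcases key y hy x hx h1 with h2 | h2
      · exact ⟨2, Or.inr h2⟩
      · exact ⟨1, Or.inl h2⟩) s hs
  refine ⟨i, l, hl1, hl2, ?_, ?_⟩
  · refine hl3.imp ?_
    intro x y hxy he
    rw [he] at hxy
    exact s8_irr _ _ _ _ hxy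
  · refine hl3.imp_of_mem ?_
    intro x y hx hy hxy a ha b hb gxa gyb ixa iyb
    have hx' := hl2 x hx
    have hy' := hl2 y hy
    fin_cases i
    · exact s8_al (hY hx') (hY hy') (hτ x hx') (hτ y hy') hc ha hb (g x hx') (g y hy') gxa gyb
        ixa iyb hxy
    · rcases s8_be (hY hx') (hY hy') (hτ x hx') (hτ y hy') hc' ha hb (g' x hx') (g' y hy') gxa gyb
        ixa iyb hxy with h1 | h1 | h1
      · exact Or.inr (Or.inl h1)
      · exact Or.inr (Or.inr (Or.inl h1))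
      · exact Or.inr (Or.inr (Or.inr (Or.inr (Or.inl h1))))
    · exact Or.inr (Or.inr (Or.inr (Or.inl (s8_ga (hY hx') (hY hy') (hτ x hx') (hτ y hy') hc' hc
        ha hb (g x hx') (g' y hy') gxa gyb ixa.2 iyb.1 hxy.1 hxy.2))))

end H38Q
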